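import Pool.Agent.AG.Red.Main

/-!
# Project AG: the types of triangles in a minimal counterexample
-/

namespace AG

open Finset

variable {I : Type} [DecidableEq I]

namespace Obj

/-- in a connected bridgeless object with at least two triangles every triangle is a face, a blade
or eared -/
theorem types_of_bridgeless {S : Obj I} (hc : S.Conn) (hb : S.Bridgeless) (h2 : 2 ≤ S.F.card)
    {t : I} (ht : t ∈ S.F) : S.Face t ∨ ∃ c : Sd I, c.1 = t ∧ (S.Blade c ∨ S.Eared c) := by
  by_cases h : ∀ i, S.g (t, i) ≠ (t, i)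
  · exact Or.inl ⟨ht, h⟩
  · push Not at h
    obtain ⟨i, hi⟩ := h
    obtain ⟨h3, h4⟩ := hb.two_glued hc h2 (a := (t, i)) ht hi
    right
    refine ⟨unrot (t, i), rfl, ?_⟩
    by_cases hE : (t, i) ∈ S.E
    · right
      refine ⟨h4, ?_, ?_⟩
      · rw [unrot_unrot]; exact h3
      · rw [rot_unrot]; exact hE
    · left
      refine ⟨h4, ?_, ?_, ?_⟩
      · rw [unrot_unrot]; exact h3
      · rw [rot_unrot]; exact hi
      · rw [rot_unrot]; exact hE

theorem Cex.types {S : Obj I} {pt : Sd I → Pt} {R : Set Pt} (hC : Cex S pt R) {t : I}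
    (ht : t ∈ S.F) : S.Face t ∨ ∃ c : Sd I, c.1 = t ∧ (S.Blade c ∨ S.Eared c) :=
  types_of_bridgeless hC.conn hC.bridgeless hC.two_le ht

end Obj

end AG
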