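import Pool.Agent.AG.Reg.OfCex
import Pool.Agent.AG.Types

/-!
# Project AG: `Obj.Cex.base` (Reg/OfCex.lean) and `Obj.Cex.types` (Types.lean) in one import
-/
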