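import Pool.Agent.AG.Defs

/-!
# Project AG: basic API for `Obj`
-/

set_option linter.unusedSectionVars false
set_option linter.unusedSimpArgs false

namespace AG

open Finset

variable {I : Type}

theorem fin3_a (i : Fin 3) : i + 2 + 1 = i := by revert i; decide
theorem fin3_b (i : Fin 3) : i + 1 + 2 = i := by revert i; decide
theorem fin3_c (i : Fin 3) : i + 1 + 1 = i + 2 := by revert i; decide
theorem fin3_d (i : Fin 3) : i + 2 + 2 = i + 1 := by revert i; decide

@[simp] theorem rot_unrot (a : Sd I) : rot (unrot a) = a := by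
  rcases a with ⟨t, i⟩; simp [rot, unrot, fin3_a]

@[simp] theorem unrot_rot (a : Sd I) : unrot (rot a) = a := by
  rcases a with ⟨t, i⟩; simp [rot, unrot, fin3_b]

theorem rot_rot (a : Sd I) : rot (rot a) = unrot a := by
  rcases a with ⟨t, i⟩; simp [rot, unrot, fin3_c]

theorem unrot_unrot (a : Sd I) : unrot (unrot a) = rot a := by
  rcases a with ⟨t, i⟩; simp [rot, unrot, fin3_d]

@[simp] theorem rot_fst (a : Sd I) : (rot a).1 = a.1 := rfl
@[simp] theorem unrot_fst (a : Sd I) : (unrot a).1 = a.1 := rfl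

theorem rot_injective : Function.Injective (rot : Sd I → Sd I) := fun a b h => by
  rw [← unrot_rot a, h, unrot_rot]

theorem rot_ne (a : Sd I) : rot a ≠ a := by
  rcases a with ⟨t, i⟩; fin_cases i <;> simp [rot]

theorem unrot_ne (a : Sd I) : unrot a ≠ a := by
  rcases a with ⟨t, i⟩; fin_cases i <;> simp [unrot]

theorem unrot_ne_rot (a : Sd I) : unrot a ≠ rot a := by
  rcases a with ⟨t, i⟩; fin_cases i <;> simp [unrot, rot]

/-- the three sides of the triangle of `a` -/
theorem eq_of_fst_eq {a b : Sd I} (h : b.1 = a.1) : b = a ∨ b = rot a ∨ b = unrot a := by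
  rcases a with ⟨t, i⟩; rcases b with ⟨s, j⟩; simp only at h; subst h
  fin_cases i <;> fin_cases j <;> simp [rot, unrot]

namespace Obj

/-! ### equivalence of corners -/

theorem Eqv.refl (S : Obj I) (a : Sd I) : S.Eqv a a := Relation.EqvGen.refl a
theorem Eqv.symm {S : Obj I} {a b : Sd I} (h : S.Eqv a b) : S.Eqv b a := Relation.EqvGen.symm _ _ h
theorem Eqv.trans {S : Obj I} {a b c : Sd I} (h : S.Eqv a b) (h' : S.Eqv b c) : S.Eqv a c :=
  Relation.EqvGen.trans _ _ _ h h'

theorem Eqv.of_glued {S : Obj I} {a : Sd I} (h : S.g a ≠ a) : S.Eqv a (rot (S.g a)) :=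
  Relation.EqvGen.rel _ _ ⟨h, rfl⟩

theorem g_ne_iff {S : Obj I} {a : Sd I} : S.g (S.g a) ≠ S.g a ↔ S.g a ≠ a := by
  rw [S.invol]; exact ne_comm

/-- `rot a` and `g a` lie at the same vertex -/
theorem Eqv.of_glued' {S : Obj I} {a : Sd I} (h : S.g a ≠ a) : S.Eqv (rot a) (S.g a) := by
  have := Eqv.of_glued (S := S) (a := S.g a) (g_ne_iff.2 h)
  rw [S.invol] at this
  exact this.symm

theorem Step.mono {S' S : Obj I} (h : S'.Le S) {a b : Sd I} (hs : S'.Step a b) : S.Step a b := by
  rcases hs with ⟨h1, h2⟩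
  rcases h.g a with h3 | h3
  · rw [h3] at h1 h2; exact ⟨h1, h2⟩
  · exact absurd h3 h1

theorem Eqv.mono {S' S : Obj I} (h : S'.Le S) {a b : Sd I} (hs : S'.Eqv a b) : S.Eqv a b := by
  induction hs with
  | rel x y hxy => exact Relation.EqvGen.rel _ _ (hxy.mono h)
  | refl x => exact Eqv.refl _ _
  | symm x y _ ih => exact ih.symm
  | trans x y z _ _ ih1 ih2 => exact ih1.trans ih2

theorem Hit.mono {S' S : Obj I} [DecidableEq I] (h : S'.Le S) {C : Finset (Sd I)} {c : Sd I}
    (hc : S'.Hit C c) : S.Hit C c := by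
  rcases hc with ⟨d, hd, h1⟩
  exact ⟨d, hd, h1.mono h⟩

theorem Hit.subset {S : Obj I} [DecidableEq I] {C D : Finset (Sd I)} {c : Sd I}
    (hc : S.Hit C c) (h : C ⊆ D) : S.Hit D c := by
  rcases hc with ⟨d, hd, h1⟩
  exact ⟨d, h hd, h1⟩

theorem Hit.eqv {S : Obj I} [DecidableEq I] {C : Finset (Sd I)} {c c' : Sd I}
    (hc : S.Hit C c) (h : S.Eqv c c') : S.Hit C c' := by
  rcases hc with ⟨d, hd, h1⟩
  exact ⟨d, hd, h1.trans h⟩

/-- count once: if `d ≠ d'` are equivalent elements of `C`, then `d` can be erased -/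
theorem Hit.erase {S : Obj I} [DecidableEq I] {C : Finset (Sd I)} {c d d' : Sd I}
    (hc : S.Hit C c) (hd' : d' ∈ C) (hne : d ≠ d') (h : S.Eqv d d') : S.Hit (C.erase d) c := by
  rcases hc with ⟨e, he, h1⟩
  by_cases hed : e = d
  · subst hed
    exact ⟨d', mem_erase.2 ⟨hne.symm, hd'⟩, h.symm.trans h1⟩
  · exact ⟨e, mem_erase.2 ⟨hed, he⟩, h1⟩

/-! ### sides -/

variable [DecidableEq I]

theorem mem_sides {S : Obj I} {a : Sd I} : a ∈ S.sides ↔ a.1 ∈ S.F := by
  simp [sides]

theorem mem_vis {S : Obj I} {a : Sd I} : a ∈ S.vis ↔ a.1 ∈ S.F ∧ S.g a = a := by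
  simp [vis, mem_sides]

theorem mem_glued {S : Obj I} {a : Sd I} : a ∈ S.glued ↔ S.g a ≠ a := by
  simp only [glued, mem_filter, mem_sides, ne_eq, and_iff_right_iff_imp]
  exact S.memF a

theorem g_mem_glued {S : Obj I} {a : Sd I} : S.g a ∈ S.glued ↔ a ∈ S.glued := by
  rw [mem_glued, mem_glued, g_ne_iff]

theorem g_memF {S : Obj I} {a : Sd I} (h : S.g a ≠ a) : (S.g a).1 ∈ S.F :=
  S.memF _ (g_ne_iff.2 h)

theorem mem_bd {S : Obj I} {X : Finset I} {a : Sd I} :
    a ∈ S.bd X ↔ S.g a ≠ a ∧ a.1 ∈ X ∧ (S.g a).1 ∉ X := by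
  simp [bd, mem_glued]

theorem card_sides (S : Obj I) : S.sides.card = 3 * S.F.card := by
  simp [sides, mul_comm]

theorem card_vis_add_card_glued (S : Obj I) : S.vis.card + S.glued.card = 3 * S.F.card := by
  rw [← card_sides, vis, glued, Finset.card_filter_add_card_filter_not]

theorem g_injective (S : Obj I) : Function.Injective S.g := fun a b h => by
  rw [← S.invol a, h, S.invol]

/-- the boundary of the complement -/
theorem bd_sdiff (S : Obj I) (X : Finset I) : S.bd (S.F \ X) = (S.bd (S.F ∩ X)).image S.g := by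
  ext a
  simp only [mem_bd, mem_sdiff, mem_image, mem_inter, not_and, not_not]
  constructor
  · rintro ⟨h1, ⟨h2, h3⟩, h4⟩
    have h5 := g_memF h1
    exact ⟨S.g a, ⟨g_ne_iff.2 h1, ⟨h5, h4 h5⟩, fun _ => by rw [S.invol]; exact h3⟩, S.invol a⟩
  · rintro ⟨b, ⟨h1, ⟨h2, h3⟩, h4⟩, rfl⟩
    have h5 := g_memF h1
    refine ⟨g_ne_iff.2 h1, ⟨h5, h4 h5⟩, fun _ => ?_⟩
    rw [S.invol]; exact h3

theorem card_bd_sdiff (S : Obj I) {X : Finset I} (hX : X ⊆ S.F) :
    (S.bd (S.F \ X)).card = (S.bd X).card := by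
  rw [bd_sdiff, inter_eq_right.2 hX, card_image_of_injective _ S.g_injective]

theorem bd_empty (S : Obj I) : S.bd ∅ = ∅ := by
  ext a; simp [mem_bd]

theorem bd_F (S : Obj I) : S.bd S.F = ∅ := by
  ext a
  simp only [mem_bd, notMem_empty, iff_false, not_and, not_not]
  exact fun h _ => g_memF h

/-- submodularity of the boundary -/
theorem card_bd_inter_add_union (S : Obj I) (X Y : Finset I) :
    (S.bd (X ∩ Y)).card + (S.bd (X ∪ Y)).card ≤ (S.bd X).card + (S.bd Y).card := by
  classical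
  have key : ∀ Z : Finset I, (S.bd Z).card
      = ∑ a ∈ S.glued, if a.1 ∈ Z ∧ (S.g a).1 ∉ Z then 1 else 0 := fun Z => by
    rw [bd, Finset.card_filter]
  rw [key, key, key, key, ← Finset.sum_add_distrib, ← Finset.sum_add_distrib]
  refine Finset.sum_le_sum fun a _ => ?_
  by_cases h1 : a.1 ∈ X <;> by_cases h2 : a.1 ∈ Y <;> by_cases h3 : (S.g a).1 ∈ X <;>
    by_cases h4 : (S.g a).1 ∈ Y <;> simp [h1, h2, h3, h4]

/-! ### sub-objects -/

theorem Le.refl (S : Obj I) : S.Le S := ⟨subset_rfl, fun _ => Or.inl rfl⟩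

theorem Le.trans {S₁ S₂ S₃ : Obj I} (h : S₁.Le S₂) (h' : S₂.Le S₃) : S₁.Le S₃ := by
  refine ⟨h.F.trans h'.F, fun a => ?_⟩
  rcases h.g a with h1 | h1
  · rcases h'.g a with h2 | h2
    · exact Or.inl (h1.trans h2)
    · exact Or.inr (h1.trans h2)
  · exact Or.inr h1

theorem keep_le (S : Obj I) (X : Finset I) : (S.keep X).Le S := by
  refine ⟨inter_subset_left, fun a => ?_⟩
  by_cases h : a.1 ∈ X ∧ (S.g a).1 ∈ X
  · left; simp [keep, h]
  · right; simp [keep, h]

theorem cut_le (S : Obj I) (a : Sd I) : (S.cut a).Le S := by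
  refine ⟨subset_rfl, fun b => ?_⟩
  by_cases h : b = a ∨ b = S.g a
  · right; simp [cut, h]
  · left; simp [cut, h]

theorem setE_le (S : Obj I) (E' : Finset (Sd I)) (h : ∀ a ∈ E', a.1 ∈ S.F ∧ S.g a = a) :
    (S.setE E' h).Le S := ⟨subset_rfl, fun _ => Or.inl rfl⟩

theorem Le.glued {S' S : Obj I} (h : S'.Le S) {a : Sd I} (ha : S'.g a ≠ a) :
    S'.g a = S.g a ∧ S.g a ≠ a := by
  rcases h.g a with h1 | h1
  · exact ⟨h1, h1 ▸ ha⟩
  · exact absurd h1 ha

theorem Le.bd_subset {S' S : Obj I} (h : S'.Le S) (X : Finset I) : S'.bd X ⊆ S.bd X := by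
  intro a ha
  rw [mem_bd] at ha ⊢
  obtain ⟨h1, h2⟩ := h.glued ha.1
  rw [h1] at ha
  exact ⟨h2, ha.2⟩

theorem Le.bd_inter_subset {S' S : Obj I} (h : S'.Le S) (X : Finset I) :
    S'.bd (X ∩ S'.F) ⊆ S.bd X := by
  intro a ha
  rw [mem_bd] at ha ⊢
  obtain ⟨h0, h1, h2⟩ := ha
  obtain ⟨h3, h4⟩ := h.glued h0
  refine ⟨h4, (mem_inter.1 h1).1, fun h5 => h2 ?_⟩
  rw [h3]
  exact mem_inter.2 ⟨h5, h3 ▸ g_memF h0⟩

/-- a bridge stays a bridge in a sub-object -/
theorem Bridge.mono {S' S : Obj I} (h : S'.Le S) {a : Sd I} (hb : S.Bridge a)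
    (ha : S'.g a ≠ a) : S'.Bridge a := by
  obtain ⟨X, hX, hbd⟩ := hb
  refine ⟨X ∩ S'.F, inter_subset_right, ?_⟩
  refine subset_antisymm ((h.bd_inter_subset X).trans hbd.subset) ?_
  rw [singleton_subset_iff, mem_bd]
  have h1 : a ∈ S.bd X := by rw [hbd]; exact mem_singleton_self a
  rw [mem_bd] at h1
  refine ⟨ha, mem_inter.2 ⟨h1.2.1, S'.memF a ha⟩, fun h2 => h1.2.2 ?_⟩
  rw [(h.glued ha).1] at h2
  exact (mem_inter.1 h2).1

/-- MONOTONICITY: noncore triangles stay noncore -/
theorem Noncore.mono {S' S : Obj I} (h : S'.Le S) {t : I} (hn : S.Noncore t) (ht : t ∈ S'.F) :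
    S'.Noncore t :=
  ⟨ht, fun i hi => (hn.2 i (h.glued hi).2).mono h hi⟩

theorem Bridge.symm {S : Obj I} {a : Sd I} (hb : S.Bridge a) : S.Bridge (S.g a) := by
  obtain ⟨X, hX, hbd⟩ := hb
  refine ⟨S.F \ X, sdiff_subset, ?_⟩
  rw [bd_sdiff, inter_eq_right.2 hX, hbd, image_singleton]

theorem Bridge.glued {S : Obj I} {a : Sd I} (hb : S.Bridge a) : S.g a ≠ a := by
  obtain ⟨X, hX, hbd⟩ := hb
  have h1 : a ∈ S.bd X := by rw [hbd]; exact mem_singleton_self a
  exact (mem_bd.1 h1).1

/-- in a bridgeless object every nonempty boundary has at least two elements -/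
theorem Bridgeless.two_le {S : Obj I} (h : S.Bridgeless) {X : Finset I} (hX : X ⊆ S.F)
    (hne : (S.bd X).Nonempty) : 2 ≤ (S.bd X).card := by
  by_contra hlt
  have h1 : (S.bd X).card = 1 := by
    have := hne.card_pos; omega
  obtain ⟨a, ha⟩ := card_eq_one.1 h1
  exact h a ⟨X, hX, ha⟩

/-! ### keep -/

theorem keep_g (S : Obj I) (X : Finset I) (a : Sd I) :
    (S.keep X).g a = if a.1 ∈ X ∧ (S.g a).1 ∈ X then S.g a else a := rfl

theorem keep_F (S : Obj I) {X : Finset I} (hX : X ⊆ S.F) : (S.keep X).F = X :=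
  inter_eq_right.2 hX

theorem keep_bd (S : Obj I) {X Y : Finset I} (hY : Y ⊆ X) :
    (S.keep X).bd Y = (S.bd Y).filter (fun a => (S.g a).1 ∈ X) := by
  ext a
  simp only [mem_bd, mem_filter, keep_g]
  by_cases h : a.1 ∈ X ∧ (S.g a).1 ∈ X
  · simp [h, and_assoc]
  · simp only [h, if_false, ne_eq, not_true_eq_false, false_and, false_iff, not_and]
    rintro ⟨_, h1, _⟩ h2
    exact h ⟨hY h1, h2⟩

/-- the number of visits of a restriction: the unglued sides of its triangles and the boundary -/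
theorem card_vis_keep (S : Obj I) {X : Finset I} (hX : X ⊆ S.F) :
    (S.keep X).vis.card = (S.vis.filter (fun a => a.1 ∈ X)).card + (S.bd X).card := by
  rw [← card_union_of_disjoint]
  · congr 1
    ext a
    simp only [mem_vis, keep_F S hX, keep_g, mem_union, mem_filter, mem_bd]
    by_cases h1 : a.1 ∈ X
    · by_cases h2 : (S.g a).1 ∈ X
      · simp [h1, h2, hX h1]
      · by_cases h3 : S.g a = a
        · rw [h3] at h2; exact absurd h1 h2
        · simp [h1, h2, h3]
    · simp [h1]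
  · rw [disjoint_left]
    intro a ha hb
    rw [mem_filter, mem_vis] at ha
    rw [mem_bd] at hb
    exact hb.1 ha.1.2

theorem keep_E (S : Obj I) (X : Finset I) : (S.keep X).E = S.E.filter (fun a => a.1 ∈ X) := rfl

/-- bookkeeping for a partition of `F` in two parts -/
theorem N2_keep_add (S : Obj I) {X : Finset I} (hX : X ⊆ S.F) (k l : ℕ) :
    (S.keep X).N2 k + (S.keep (S.F \ X)).N2 l = S.N2 (k + l) + 2 * (S.bd X).card + 2 := by
  have h1 := card_vis_keep S hX
  have h2 := card_vis_keep S (sdiff_subset : S.F \ X ⊆ S.F)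
  rw [card_bd_sdiff S hX] at h2
  have h3 : (S.vis.filter (fun a => a.1 ∈ X)).card
      + (S.vis.filter (fun a => a.1 ∈ S.F \ X)).card = S.vis.card := by
    rw [← Finset.card_filter_add_card_filter_not (s := S.vis) (fun a => a.1 ∈ X)]
    congr 2
    refine filter_congr fun a ha => ?_
    simp [(mem_vis.1 ha).1]
  have h4 : (S.E.filter (fun a => a.1 ∈ X)).card
      + (S.E.filter (fun a => a.1 ∈ S.F \ X)).card = S.E.card := by
    rw [← Finset.card_filter_add_card_filter_not (s := S.E) (fun a => a.1 ∈ X)]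
    congr 2
    refine filter_congr fun a ha => ?_
    simp [S.earF a ha]
  have h5 : X.card + (S.F \ X).card = S.F.card := by
    rw [card_sdiff_of_subset hX]; have := card_le_card hX; omega
  simp only [N2, keep_F S hX, keep_F S sdiff_subset, keep_E]
  omega

/-! ### cut -/

theorem cut_g (S : Obj I) (a b : Sd I) :
    (S.cut a).g b = if b = a ∨ b = S.g a then b else S.g b := rfl

theorem card_vis_cut (S : Obj I) {a : Sd I} (ha : S.g a ≠ a) :
    (S.cut a).vis.card = S.vis.card + 2 := by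
  have : (S.cut a).vis = insert a (insert (S.g a) S.vis) := by
    ext b
    simp only [mem_vis, mem_insert, cut_g]
    by_cases h1 : b = a
    · subst h1; simpa [cut] using S.memF b ha
    · by_cases h2 : b = S.g a
      · subst h2; simpa [cut, h1] using g_memF ha
      · simp [h1, h2, cut]
  rw [this, card_insert_of_notMem, card_insert_of_notMem]
  · rw [mem_vis]; exact fun h => (g_ne_iff.2 ha) h.2
  · rw [mem_insert, mem_vis]
    rintro (h | h)
    · exact ha h.symm
    · exact ha h.2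

theorem N2_cut (S : Obj I) {a : Sd I} (ha : S.g a ≠ a) (k : ℕ) :
    (S.cut a).N2 k = S.N2 k + 2 := by
  simp only [N2, card_vis_cut S ha]
  simp only [cut]
  omega

theorem card_glued_cut (S : Obj I) {a : Sd I} (ha : S.g a ≠ a) :
    (S.cut a).glued.card + 2 = S.glued.card := by
  have h1 := card_vis_add_card_glued S
  have h2 := card_vis_add_card_glued (S.cut a)
  rw [card_vis_cut S ha] at h2
  have : (S.cut a).F = S.F := rfl
  rw [this] at h2
  omega

/-- cutting a side which is not a bridge keeps a connected object connected -/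
theorem Conn.cut {S : Obj I} (hc : S.Conn) {a : Sd I} (ha : ¬ S.Bridge a) : (S.cut a).Conn := by
  refine ⟨hc.1, fun X hX hne hXF => ?_⟩
  have hX' : X ⊆ S.F := hX
  have h1 := hc.2 X hX' hne hXF
  by_contra hemp
  rw [not_nonempty_iff_eq_empty] at hemp
  -- all boundary sides of `X` in `S` are `a` or `g a`
  have h2 : ∀ b ∈ S.bd X, b = a ∨ b = S.g a := by
    intro b hb
    by_contra hn
    have : b ∈ (S.cut a).bd X := by
      rw [mem_bd] at hb ⊢
      rw [cut_g, if_neg hn]
      exact hb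
    rw [hemp] at this
    exact notMem_empty _ this
  by_cases h3 : a ∈ S.bd X
  · refine ha ⟨X, hX', ?_⟩
    refine subset_antisymm (fun b hb => ?_) (singleton_subset_iff.2 h3)
    rcases h2 b hb with h | h
    · exact mem_singleton.2 h
    · exfalso
      subst h
      exact (mem_bd.1 h3).2.2 (mem_bd.1 hb).2.1
  · have h4 : S.bd X = {S.g a} := by
      obtain ⟨b, hb⟩ := h1
      refine subset_antisymm (fun c hcb => ?_) ?_
      · rcases h2 c hcb with h | h
        · exact absurd (h ▸ hcb) h3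
        · exact mem_singleton.2 h
      · rcases h2 b hb with h | h
        · exact absurd (h ▸ hb) h3
        · rw [singleton_subset_iff, ← h]; exact hb
    have h5 : S.Bridge (S.g a) := ⟨X, hX', h4⟩
    have h6 := h5.symm
    rw [S.invol] at h6
    exact ha h6

/-! ### linear fans -/

theorem cw_eqv (S : Obj I) (a : Sd I) : S.Eqv a (S.cw a) := by
  unfold cw
  split_ifs with h
  · exact Eqv.refl _ _
  · exact Eqv.of_glued h

theorem cw_iter_eqv (S : Obj I) (n : ℕ) (a : Sd I) : S.Eqv a (S.cw^[n] a) := by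
  induction n with
  | zero => exact Eqv.refl _ _
  | succ n ih =>
    rw [Function.iterate_succ_apply']
    exact ih.trans (cw_eqv _ _)

theorem cw_of_unglued {S : Obj I} {a : Sd I} (h : S.g a = a) : S.cw a = a := by simp [cw, h]

theorem cw_iter_of_unglued {S : Obj I} {a : Sd I} (h : S.g a = a) (n : ℕ) : S.cw^[n] a = a := by
  induction n with
  | zero => rfl
  | succ n ih => rw [Function.iterate_succ_apply, cw_of_unglued h, ih]

theorem Linear.mono {S' S : Obj I} (h : S'.Le S) (hl : S.Linear) : S'.Linear := by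
  intro a
  obtain ⟨n, hn⟩ := hl a
  induction n generalizing a with
  | zero =>
    refine ⟨0, ?_⟩
    rcases h.g a with h1 | h1
    · simp only [Function.iterate_zero, id_eq] at hn ⊢; rw [h1, hn]
    · simpa using h1
  | succ n ih =>
    by_cases h1 : S'.g a = a
    · exact ⟨0, by simpa using h1⟩
    · obtain ⟨h2, h3⟩ := h.glued h1
      have h4 : S'.cw a = S.cw a := by simp [cw, h2, h3]
      obtain ⟨m, hm⟩ := ih (S.cw a) (by simpa [Function.iterate_succ_apply] using hn)
      refine ⟨m + 1, ?_⟩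
      rw [Function.iterate_succ_apply, h4]
      exact hm

open Classical in
/-- the last corner of the fan of `a` in the clockwise direction (an unglued side, for linear
objects); it names the visit of `a` -/
noncomputable def last (S : Obj I) (a : Sd I) : Sd I :=
  if h : ∃ n, S.g (S.cw^[n] a) = S.cw^[n] a then S.cw^[Nat.find h] a else a

theorem last_eq_of {S : Obj I} {a : Sd I} {n : ℕ} (h : S.g (S.cw^[n] a) = S.cw^[n] a) :
    S.last a = S.cw^[n] a := by
  classical
  have hex : ∃ n, S.g (S.cw^[n] a) = S.cw^[n] a := ⟨n, h⟩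
  unfold last
  rw [dif_pos hex]
  have h1 := Nat.find_spec hex
  have h2 : Nat.find hex ≤ n := Nat.find_min' hex h
  obtain ⟨k, hk⟩ := Nat.exists_eq_add_of_le h2
  rw [hk, add_comm, Function.iterate_add_apply, cw_iter_of_unglued h1]

theorem last_unglued {S : Obj I} (hl : S.Linear) (a : Sd I) : S.g (S.last a) = S.last a := by
  obtain ⟨n, hn⟩ := hl a
  rw [last_eq_of hn, hn]

theorem last_eqv (S : Obj I) (a : Sd I) : S.Eqv a (S.last a) := by
  classical
  unfold last
  split_ifs with h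
  · exact cw_iter_eqv _ _ _
  · exact Eqv.refl _ _

theorem last_of_unglued {S : Obj I} {a : Sd I} (h : S.g a = a) : S.last a = a :=
  last_eq_of (n := 0) (by simpa using h)

theorem last_cw {S : Obj I} (hl : S.Linear) (a : Sd I) : S.last (S.cw a) = S.last a := by
  obtain ⟨n, hn⟩ := hl (S.cw a)
  rw [last_eq_of hn, ← Function.iterate_succ_apply]
  exact (last_eq_of (n := n + 1) (by rw [Function.iterate_succ_apply]; exact hn)).symm

/-- for linear objects, corners are equivalent iff their fans end at the same unglued side -/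
theorem eqv_iff {S : Obj I} (hl : S.Linear) {a b : Sd I} : S.Eqv a b ↔ S.last a = S.last b := by
  constructor
  · intro h
    induction h with
    | rel x y hxy =>
      rcases hxy with ⟨h1, rfl⟩
      rw [← last_cw hl x, cw, if_neg h1]
    | refl x => rfl
    | symm x y _ ih => exact ih.symm
    | trans x y z _ _ ih1 ih2 => exact ih1.trans ih2
  · intro h
    exact (last_eqv S a).trans (h ▸ (last_eqv S b).symm)

theorem cw_mem {S : Obj I} {a : Sd I} (h : a ∈ S.sides) : S.cw a ∈ S.sides := by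
  unfold cw
  split_ifs with h1
  · exact h
  · rw [mem_sides, rot_fst]; exact g_memF h1

theorem last_mem_vis {S : Obj I} (hl : S.Linear) {a : Sd I} (h : a ∈ S.sides) :
    S.last a ∈ S.vis := by
  rw [mem_vis]
  refine ⟨?_, last_unglued hl a⟩
  obtain ⟨n, hn⟩ := hl a
  rw [last_eq_of hn, ← mem_sides]
  clear hn
  induction n with
  | zero => exact h
  | succ n ih => rw [Function.iterate_succ_apply']; exact cw_mem ih

end Obj

end AG
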