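import Pool.Agent.AG.GeoDefs

/-!
# Project AG: faces, blades, candidates (virtual blades), stubs, minimal counterexamples

CONVENTIONS (see Defs.lean): `a = (t,i)` is a corner of `t` and the side of `t` from this corner to
the next corner `rot a`.  The corner `a` has the two sides `a` (clockwise side, it starts at the
corner) and `unrot a` (counterclockwise side, it ends at the corner); the opposite side is `rot a`.
If `a` is glued, `S.g a` is the partner, it runs backwards; the corner `rot (S.g a)` is the
clockwise neighbour of the corner `a` in its fan, `S.g (unrot a)` the counterclockwise one.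

VIRTUAL BLADE at the corner `w` of the face `s = w.1`: the blade triangle `t` is glued to the side
`rot w` of `s` opposite to `w`; its side is `a = S.g (rot w)`, which starts at the corner
`rot (rot w) = unrot w` of `s` and ends at the corner `rot w` of `s`.
* `VirtA w`: the apex `y` of `t` is the start of `a`, i.e. the blade `t` has apex corner `a`;
  then `x` = end of `a` = corner `rot w` of `s`, and the STUB `v x` is the side `w`.
* `VirtB w`: the apex `y` of `t` is the end of `a`, i.e. the blade `t` has apex corner `rot a`;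
  then `x` = start of `a` = corner `unrot w` of `s`, and the STUB `v x` is the side `unrot w`.
-/

namespace AG

open Finset

variable {I : Type} [DecidableEq I]

namespace Obj

/-- all three sides of `t` are glued -/
def Face (S : Obj I) (t : I) : Prop := t ∈ S.F ∧ ∀ i, S.g (t, i) ≠ (t, i)

/-- REAL BLADE with apex corner `c`: the two sides at the corner are glued, the base `rot c` is
not glued and not an ear -/
def Blade (S : Obj I) (c : Sd I) : Prop :=
  S.g c ≠ c ∧ S.g (unrot c) ≠ unrot c ∧ S.g (rot c) = rot c ∧ rot c ∉ S.E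

/-- EARED triangle with apex corner `c` -/
def Eared (S : Obj I) (c : Sd I) : Prop :=
  S.g c ≠ c ∧ S.g (unrot c) ≠ unrot c ∧ rot c ∈ S.E

/-- the neighbour across the glued side `a` is a face (ACTIVE in the text; in a bridgeless
connected object `S - {t,s}` is then connected for every blade `t` adjacent to the face `s`) -/
def Active (S : Obj I) (a : Sd I) : Prop := S.g a ≠ a ∧ S.Face (S.g a).1

/-- the triangle `c.1` hosts a pair at its corner `c`: both its sides at `c` are glued and blocked
at `c` (see `AG.IsPair`) -/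
abbrev PairAt (S : Obj I) (pt : Sd I → Pt) (c : Sd I) : Prop := AG.IsPair S pt c

/-- candidate across the side `a` of the blade `a.1` whose apex is the START of `a` -/
def CandA (S : Obj I) (pt : Sd I → Pt) (a : Sd I) : Prop :=
  S.Blade a ∧ S.Active a ∧ (S.IsU pt a ∨ (S.PairAt pt a ∧ ¬ S.Active (unrot a)))

/-- candidate across the side `a` of the blade `a.1` whose apex is the END of `a` -/
def CandB (S : Obj I) (pt : Sd I → Pt) (a : Sd I) : Prop :=
  S.Blade (rot a) ∧ S.Active a ∧ (S.IsU pt a ∨ (S.PairAt pt (rot a) ∧ ¬ S.Active (rot a)))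

/-- candidate (virtual blade) `(t,s)`: `t = a.1`, `s = (S.g a).1`, across the side `a` of `t` -/
def Cand (S : Obj I) (pt : Sd I → Pt) (a : Sd I) : Prop := S.CandA pt a ∨ S.CandB pt a

/-- virtual blade at the corner `w` with stub `w` -/
def VirtA (S : Obj I) (pt : Sd I → Pt) (w : Sd I) : Prop := S.CandA pt (S.g (rot w))

/-- virtual blade at the corner `w` with stub `unrot w` -/
def VirtB (S : Obj I) (pt : Sd I → Pt) (w : Sd I) : Prop := S.CandB pt (S.g (rot w))

/-- blade (real or virtual) at the corner `w`; its triangle (the blade triangle or the face) is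
`w.1` -/
def BladeAt (S : Obj I) (pt : Sd I → Pt) (w : Sd I) : Prop :=
  S.Blade w ∨ S.VirtA pt w ∨ S.VirtB pt w

/-- `c` is a STUB of the blade at the corner `w` -/
def Stub (S : Obj I) (pt : Sd I → Pt) (w c : Sd I) : Prop :=
  (S.Blade w ∧ (c = w ∨ c = unrot w)) ∨ (S.VirtA pt w ∧ c = w) ∨ (S.VirtB pt w ∧ c = unrot w)

/-- the corner `p` is at an ear end: some ear starts or ends at the visit of `p` -/
def EarEnd (S : Obj I) (p : Sd I) : Prop := ∃ a ∈ S.E, S.Eqv a p ∨ S.Eqv (rot a) p

/-! ### small facts on faces and blades -/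

section facts

variable {S : Obj I} {pt : Sd I → Pt}

theorem VirtA.face {w : Sd I} (h : S.VirtA pt w) : S.Face w.1 := by
  have := h.2.1.2
  rwa [S.invol, rot_fst] at this

theorem VirtB.face {w : Sd I} (h : S.VirtB pt w) : S.Face w.1 := by
  have := h.2.1.2
  rwa [S.invol, rot_fst] at this

theorem Face.glued {t : I} (h : S.Face t) {a : Sd I} (ha : a.1 = t) : S.g a ≠ a := by
  subst ha; exact h.2 a.2

theorem BladeAt.memF {w : Sd I} (h : S.BladeAt pt w) : w.1 ∈ S.F := by
  rcases h with h | h | h
  · exact S.memF _ h.1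
  · exact h.face.1
  · exact h.face.1

theorem BladeAt.glued {w : Sd I} (h : S.BladeAt pt w) : S.g w ≠ w := by
  rcases h with h | h | h
  · exact h.1
  · exact h.face.glued rfl
  · exact h.face.glued rfl

theorem BladeAt.glued' {w : Sd I} (h : S.BladeAt pt w) : S.g (unrot w) ≠ unrot w := by
  rcases h with h | h | h
  · exact h.2.1
  · exact h.face.glued rfl
  · exact h.face.glued rfl

theorem Eared.unglued {c : Sd I} (h : S.Eared c) : S.g (rot c) = rot c := S.earFree _ h.2.2

theorem Eared.memF {c : Sd I} (h : S.Eared c) : c.1 ∈ S.F := S.memF _ h.1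

theorem Blade.memF {c : Sd I} (h : S.Blade c) : c.1 ∈ S.F := S.memF _ h.1

theorem Eared.not_bladeAt {c : Sd I} (h : S.Eared c) : ¬ S.BladeAt pt c := by
  rintro (h1 | h1 | h1)
  · exact h1.2.2.2 h.2.2
  · exact h1.face.glued (rot_fst c) h.unglued
  · exact h1.face.glued (rot_fst c) h.unglued

theorem Blade.not_virt {c : Sd I} (h : S.Blade c) : ¬ (S.VirtA pt c ∨ S.VirtB pt c) := by
  rintro (h1 | h1)
  · exact h1.face.glued (rot_fst c) h.2.2.1
  · exact h1.face.glued (rot_fst c) h.2.2.1

/-- the only unglued side of a blade or of an eared triangle with apex corner `c` is `rot c` -/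
theorem eq_rot_of_unglued {c a : Sd I} (h1 : S.g c ≠ c) (h2 : S.g (unrot c) ≠ unrot c)
    (ha : S.g a = a) (hac : a.1 = c.1) : a = rot c := by
  rcases eq_of_fst_eq hac with h | h | h
  · rw [h] at ha; exact absurd ha h1
  · exact h
  · rw [h] at ha; exact absurd ha h2

theorem Face.g {c : Sd I} (h : S.Face c.1) : S.g c ≠ c := h.2 c.2

theorem Face.glued' {a b : Sd I} (h : S.Face b.1) (e : a.1 = b.1) : S.g a ≠ a := by
  rw [← e] at h; exact h.2 a.2

/-- no triangle is a real blade and a face -/
theorem Blade.not_face {c : Sd I} (h : S.Blade c) : ¬ S.Face c.1 := fun h1 =>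
  (h1.glued' (a := rot c) rfl) h.2.2.1

theorem Eared.not_face {c : Sd I} (h : S.Eared c) : ¬ S.Face c.1 := fun h1 =>
  (h1.glued' (a := rot c) rfl) (S.earFree _ h.2.2)

/-- no triangle is eared and a real blade -/
theorem Blade.not_eared {c d : Sd I} (h : S.Blade c) (h' : S.Eared d) : c.1 ≠ d.1 := by
  intro e
  have h0 := S.earFree _ h'.2.2
  rcases eq_of_fst_eq e with h1 | h1 | h1
  · rw [h1] at h; exact h.2.2.2 h'.2.2
  · rw [h1] at h; exact h.1 h0
  · rw [h1] at h
    apply h.2.1
    rw [unrot_unrot]
    exact h0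

theorem Blade.unique {c d : Sd I} (h : S.Blade c) (h' : S.Blade d) (e : c.1 = d.1) : c = d := by
  have h0 := h'.2.2.1
  rcases eq_of_fst_eq e with h1 | h1 | h1
  · exact h1
  · rw [h1] at h; exact absurd h0 h.1
  · rw [h1] at h
    exfalso
    apply h.2.1
    rw [unrot_unrot]
    exact h0

theorem Eared.unique {c d : Sd I} (h : S.Eared c) (h' : S.Eared d) (e : c.1 = d.1) : c = d := by
  have h0 := S.earFree _ h'.2.2
  rcases eq_of_fst_eq e with h1 | h1 | h1
  · exact h1
  · rw [h1] at h; exact absurd h0 h.1
  · rw [h1] at h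
    exfalso
    apply h.2.1
    rw [unrot_unrot]
    exact h0

end facts

/-- INDUCTION HYPOTHESIS: P holds for all geometric connected objects inside `R` with fewer than
`n` glued sides -/
def IH (I : Type) [DecidableEq I] (R : Set Pt) (n : ℕ) : Prop :=
  ∀ (S : Obj I) (pt : Sd I → Pt), S.Geo pt → S.Conn → (∀ t ∈ S.F, tri pt t ⊆ R) →
    S.glued.card < n → ∀ W ⊆ S.sides, P S pt R W

/-- MINIMAL COUNTEREXAMPLE (with no forced visit, see the reductions) -/
structure Cex (S : Obj I) (pt : Sd I → Pt) (R : Set Pt) : Prop where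
  geo : S.Geo pt
  conn : S.Conn
  sub : ∀ t ∈ S.F, tri pt t ⊆ R
  ih : IH I R S.glued.card
  bad : ¬ P S pt R ∅

end Obj

end AG
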