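import Pool.Agent.AG.Plane

/-!
# Project AG (MP_586e8d), block GEO-B: the convex quadrilateral of a `U` diagonal, seeing lemmas

`t1 = (x,y,w1)`, `t2 = (y,x,w2)` counterclockwise, common diagonal `xy`; both angle sums at `x`
and at `y` are smaller than `π`, i.e. `Ccw x w2 w1` and `Ccw y w1 w2`.
-/

namespace AG

/-- the closed quadrilateral `x w2 y w1` -/
def quad (x y w1 w2 : Pt) : Set Pt :=
  {p | 0 ≤ cr x w2 p ∧ 0 ≤ cr w2 y p ∧ 0 ≤ cr y w1 p ∧ 0 ≤ cr w1 x p}

theorem convex_quad (x y w1 w2 : Pt) : Convex ℝ (quad x y w1 w2) := by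
  have : quad x y w1 w2 = {p | 0 ≤ cr x w2 p} ∩ ({p | 0 ≤ cr w2 y p} ∩
    ({p | 0 ≤ cr y w1 p} ∩ {p | 0 ≤ cr w1 x p})) := rfl
  rw [this]
  exact (convex_half _ _).inter ((convex_half _ _).inter ((convex_half _ _).inter (convex_half _ _)))

/-- hypotheses of a `U` diagonal -/
structure UQ (x y w1 w2 : Pt) : Prop where
  t1 : Ccw x y w1
  t2 : Ccw y x w2
  ax : Ccw x w2 w1
  ay : Ccw y w1 w2

namespace UQ

variable {x y w1 w2 : Pt}

theorem of_ang (h1 : Ccw x y w1) (h2 : Ccw y x w2) (hx : ang x w2 y + ang x y w1 < Real.pi)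
    (hy : ang y w1 x + ang y x w2 < Real.pi) : UQ x y w1 w2 :=
  ⟨h1, h2, (ang_add h2.rot h1 hx).1, (ang_add h1.rot h2 hy).1⟩

/-- the other diagonal of the same quadrilateral -/
theorem flip (h : UQ x y w1 w2) : UQ w2 w1 x y := ⟨h.ax.rot, h.ay.rot, h.t2.rot', h.t1.rot'⟩

theorem symm (h : UQ x y w1 w2) : UQ y x w2 w1 := ⟨h.t2, h.t1, h.ay, h.ax⟩

end UQ

theorem quad_symm (x y w1 w2 : Pt) : quad y x w2 w1 = quad x y w1 w2 := by
  ext p; unfold quad; simp only [Set.mem_setOf_eq]; tauto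

theorem quad_flip (x y w1 w2 : Pt) : quad w2 w1 x y = quad x y w1 w2 := by
  ext p; unfold quad; simp only [Set.mem_setOf_eq]; tauto

theorem UQ.sub1 {x y w1 w2 : Pt} (h : UQ x y w1 w2) : ctri x y w1 ⊆ quad x y w1 w2 := by
  rintro p ⟨h1, h2, h3⟩
  have e1 : cr x y w1 * cr x w2 p = cr w1 x p * cr x w2 y + cr x y p * cr x w2 w1 := by
    unfold cr; ring
  have e2 : cr x y w1 * cr w2 y p = cr y w1 p * cr w2 y x + cr x y p * cr w2 y w1 := by
    unfold cr; ring
  have p0 : 0 < cr x y w1 := h.t1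
  have p1 : 0 < cr x w2 y := h.t2.rot
  have p2 : 0 < cr w2 y x := h.t2.rot'
  have p3 : 0 < cr x w2 w1 := h.ax
  have p4 : 0 < cr w2 y w1 := h.ay.rot'
  refine ⟨?_, ?_, h2, h3⟩
  · refine nonneg_of_mul_nonneg_right ?_ p0
    rw [e1]; positivity
  · refine nonneg_of_mul_nonneg_right ?_ p0
    rw [e2]; positivity

theorem UQ.sub2 {x y w1 w2 : Pt} (h : UQ x y w1 w2) : ctri y x w2 ⊆ quad x y w1 w2 := by
  rw [← quad_symm]; exact h.symm.sub1

/-- the two triangles at the diagonal `xy` fill the quadrilateral -/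
theorem UQ.union {x y w1 w2 : Pt} (h : UQ x y w1 w2) :
    ctri x y w1 ∪ ctri y x w2 = quad x y w1 w2 := by
  apply Set.Subset.antisymm
  · exact Set.union_subset h.sub1 h.sub2
  · rintro p ⟨h1, h2, h3, h4⟩
    rcases le_total 0 (cr x y p) with h5 | h5
    · exact Or.inl ⟨h5, h3, h4⟩
    · refine Or.inr ⟨?_, h1, h2⟩
      rw [cr_swap']; linarith

/-- the flip does not change the union -/
theorem UQ.union_flip {x y w1 w2 : Pt} (h : UQ x y w1 w2) :
    ctri x w2 w1 ∪ ctri y w1 w2 = ctri x y w1 ∪ ctri y x w2 := by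
  rw [h.union, ← quad_flip, ← h.flip.union, ctri_rot x w2 w1, ctri_rot y w1 w2]

/-- every point of an open triangle of the flipped pair which is not on the line `xy` is in an
old open triangle -/
theorem UQ.otri_sub {x y w1 w2 : Pt} (h : UQ x y w1 w2) {p : Pt}
    (hp : p ∈ otri x w2 w1 ∨ p ∈ otri y w1 w2) (hne : cr x y p ≠ 0) :
    p ∈ otri x y w1 ∨ p ∈ otri y x w2 := by
  -- the four strict inequalities
  have key : ∀ {x y w1 w2 : Pt}, UQ x y w1 w2 → ∀ p, p ∈ otri x y w1 →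
      0 < cr x w2 p ∧ 0 < cr w2 y p ∧ 0 < cr y w1 p ∧ 0 < cr w1 x p := by
    rintro x y w1 w2 h p ⟨h1, h2, h3⟩
    have e1 : cr x y w1 * cr x w2 p = cr w1 x p * cr x w2 y + cr x y p * cr x w2 w1 := by
      unfold cr; ring
    have e2 : cr x y w1 * cr w2 y p = cr y w1 p * cr w2 y x + cr x y p * cr w2 y w1 := by
      unfold cr; ring
    have p0 : 0 < cr x y w1 := h.t1
    have p1 : 0 < cr x w2 y := h.t2.rot
    have p2 : 0 < cr w2 y x := h.t2.rot'
    have p3 : 0 < cr x w2 w1 := h.ax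
    have p4 : 0 < cr w2 y w1 := h.ay.rot'
    refine ⟨?_, ?_, h2, h3⟩
    · refine (mul_pos_iff_of_pos_left p0).1 ?_
      rw [e1]; positivity
    · refine (mul_pos_iff_of_pos_left p0).1 ?_
      rw [e2]; positivity
  have hq : 0 < cr x w2 p ∧ 0 < cr w2 y p ∧ 0 < cr y w1 p ∧ 0 < cr w1 x p := by
    rcases hp with hp | hp
    · have := key h.flip p (by rw [otri_rot]; exact hp)
      tauto
    · have := key h.flip.symm p (by rw [otri_rot]; exact hp)
      tauto
  rcases lt_or_gt_of_ne hne with h5 | h5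
  · right
    refine ⟨?_, hq.1, hq.2.1⟩
    rw [cr_swap']; linarith
  · left
    exact ⟨h5, hq.2.2.1, hq.2.2.2⟩

/-- a nonempty open set contains a point off a line -/
theorem exists_off_line {U : Set Pt} (hU : IsOpen U) (hne : U.Nonempty) {x y : Pt} (hxy : x ≠ y) :
    ∃ p ∈ U, cr x y p ≠ 0 := by
  obtain ⟨p, hp⟩ := hne
  have hpos : 0 < (y.1 - x.1) ^ 2 + (y.2 - x.2) ^ 2 := by
    by_contra hcon
    apply hxy
    have h1 : (y.1 - x.1) ^ 2 = 0 := by nlinarith [sq_nonneg (y.1 - x.1), sq_nonneg (y.2 - x.2)]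
    have h2 : (y.2 - x.2) ^ 2 = 0 := by nlinarith [sq_nonneg (y.1 - x.1), sq_nonneg (y.2 - x.2)]
    have h3 := pow_eq_zero_iff (two_ne_zero) |>.1 h1
    have h4 := pow_eq_zero_iff (two_ne_zero) |>.1 h2
    ext <;> linarith
  let f : ℝ → Pt := fun e => (p.1 - e * (y.2 - x.2), p.2 + e * (y.1 - x.1))
  have hf : Continuous f := by
    refine Continuous.prodMk ?_ ?_ <;> fun_prop
  have hf0 : f 0 = p := by simp [f]
  have hcr : ∀ e, cr x y (f e) = cr x y p + e * ((y.1 - x.1) ^ 2 + (y.2 - x.2) ^ 2) := by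
    intro e; simp only [f, cr]; ring
  have hU0 : f ⁻¹' U ∈ nhds (0 : ℝ) :=
    hf.continuousAt.preimage_mem_nhds (by rw [hf0]; exact hU.mem_nhds hp)
  rcases eq_or_ne (cr x y p) 0 with h0 | h0
  · have h1 : ∃ᶠ e in nhdsWithin (0 : ℝ) {0}ᶜ, e ∈ f ⁻¹' U ∧ e ≠ 0 := by
      apply Filter.Eventually.frequently
      filter_upwards [mem_nhdsWithin_of_mem_nhds hU0, self_mem_nhdsWithin] with e he he'
      exact ⟨he, he'⟩
    obtain ⟨e, he, he'⟩ := h1.exists
    refine ⟨f e, he, ?_⟩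
    rw [hcr, h0, zero_add]
    exact mul_ne_zero he' hpos.ne'
  · exact ⟨p, hp, h0⟩

/-- two triangles on the same side of the same directed side overlap -/
theorem otri_inter_same_side {a b c d : Pt} (h1 : Ccw a b c) (h2 : Ccw a b d) :
    (otri a b c ∩ otri a b d).Nonempty := by
  have hpos : 0 < (b.1 - a.1) ^ 2 + (b.2 - a.2) ^ 2 := by
    by_contra hcon
    apply h1.ne
    have h1 : (b.1 - a.1) ^ 2 = 0 := by nlinarith [sq_nonneg (b.1 - a.1), sq_nonneg (b.2 - a.2)]
    have h2 : (b.2 - a.2) ^ 2 = 0 := by nlinarith [sq_nonneg (b.1 - a.1), sq_nonneg (b.2 - a.2)]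
    have h3 := pow_eq_zero_iff (two_ne_zero) |>.1 h1
    have h4 := pow_eq_zero_iff (two_ne_zero) |>.1 h2
    ext <;> linarith
  let m : Pt := ((a.1 + b.1) / 2, (a.2 + b.2) / 2)
  let f : ℝ → Pt := fun e => (m.1 - e * (b.2 - a.2), m.2 + e * (b.1 - a.1))
  have hf : Continuous f := by
    refine Continuous.prodMk ?_ ?_ <;> fun_prop
  have hcr : ∀ e, cr a b (f e) = e * ((b.1 - a.1) ^ 2 + (b.2 - a.2) ^ 2) := by
    intro e; simp only [f, m, cr]; ring
  have hc : ∀ u v : Pt, Continuous fun e => cr u v (f e) := by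
    intro u v
    simp only [f, cr]
    fun_prop
  have hev : ∀ u v : Pt, 0 < cr u v (f 0) → ∀ᶠ e in nhdsWithin (0 : ℝ) (Set.Ioi 0),
      0 < cr u v (f e) := by
    intro u v h
    exact mem_nhdsWithin_of_mem_nhds ((hc u v).continuousAt.eventually (lt_mem_nhds h))
  have e1 : cr b c (f 0) = cr a b c / 2 := by simp only [f, m, cr]; ring
  have e2 : cr c a (f 0) = cr a b c / 2 := by simp only [f, m, cr]; ring
  have e3 : cr b d (f 0) = cr a b d / 2 := by simp only [f, m, cr]; ring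
  have e4 : cr d a (f 0) = cr a b d / 2 := by simp only [f, m, cr]; ring
  have q1 : 0 < cr a b c / 2 := half_pos h1
  have q2 : 0 < cr a b d / 2 := half_pos h2
  have hall : ∀ᶠ e in nhdsWithin (0 : ℝ) (Set.Ioi 0),
      0 < cr b c (f e) ∧ 0 < cr c a (f e) ∧ 0 < cr b d (f e) ∧ 0 < cr d a (f e) ∧ 0 < e := by
    filter_upwards [hev b c (by rw [e1]; exact q1), hev c a (by rw [e2]; exact q1),
      hev b d (by rw [e3]; exact q2), hev d a (by rw [e4]; exact q2), self_mem_nhdsWithin]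
      with e p1 p2 p3 p4 p5
    exact ⟨p1, p2, p3, p4, p5⟩
  obtain ⟨e, p1, p2, p3, p4, p5⟩ := hall.exists
  have p6 : 0 < cr a b (f e) := by rw [hcr]; exact mul_pos p5 hpos
  exact ⟨f e, ⟨p6, p1, p2⟩, ⟨p6, p3, p4⟩⟩

/-- (disjointness after the flip) -/
theorem UQ.disj_flip {x y w1 w2 : Pt} (h : UQ x y w1 w2) {O : Set Pt} (hO : IsOpen O)
    (h1 : Disjoint (otri x y w1) O) (h2 : Disjoint (otri y x w2) O) :
    Disjoint (otri x w2 w1) O ∧ Disjoint (otri y w1 w2) O := by
  have key : ∀ T : Set Pt, IsOpen T → (∀ p ∈ T, p ∈ otri x w2 w1 ∨ p ∈ otri y w1 w2) →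
      Disjoint T O := by
    intro T hT hsub
    rw [Set.disjoint_iff_inter_eq_empty]
    by_contra hne
    have hne' : (T ∩ O).Nonempty := Set.nonempty_iff_ne_empty.2 hne
    obtain ⟨p, hp, hc⟩ := exists_off_line (hT.inter hO) hne' h.t1.ne
    rcases h.otri_sub (hsub p hp.1) hc with h3 | h3
    · exact Set.disjoint_left.1 h1 h3 hp.2
    · exact Set.disjoint_left.1 h2 h3 hp.2
  exact ⟨key _ (isOpen_otri _ _ _) fun p hp => Or.inl hp,
    key _ (isOpen_otri _ _ _) fun p hp => Or.inr hp⟩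

/-- the two new triangles are disjoint -/
theorem UQ.disj_new {x y w1 w2 : Pt} (h : UQ x y w1 w2) :
    Disjoint (otri x w2 w1) (otri y w1 w2) := by
  rw [Set.disjoint_left]
  rintro p ⟨_, h2, _⟩ ⟨_, h4, _⟩
  rw [cr_swap'] at h4
  linarith

/-- (c3) a triangle with side `w1w2` meets the interior of the quadrilateral in an old triangle -/
theorem UQ.c3 {x y w1 w2 u : Pt} (h : UQ x y w1 w2) (hu : Ccw w1 w2 u) :
    ∃ p ∈ otri w1 w2 u, p ∈ otri x y w1 ∨ p ∈ otri y x w2 := by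
  have h1 := otri_inter_same_side hu h.ay.rot
  obtain ⟨p, hp, hc⟩ := exists_off_line ((isOpen_otri _ _ _).inter (isOpen_otri _ _ _)) h1
    h.t1.ne
  refine ⟨p, hp.1, h.otri_sub (Or.inr ?_) hc⟩
  rw [← otri_rot]; exact hp.2

/-! ### seeing -/

/-- every point of the quadrilateral sees every point of the quadrilateral -/
theorem UQ.sees {x y w1 w2 : Pt} (h : UQ x y w1 w2) {q p : Pt}
    (hq : q ∈ ctri x y w1 ∪ ctri y x w2) (hp : p ∈ ctri x y w1 ∪ ctri y x w2) :
    segment ℝ q p ⊆ ctri x y w1 ∪ ctri y x w2 := by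
  rw [h.union] at *
  exact (convex_quad _ _ _ _).segment_subset hq hp

/-- seeing through a side which is blocked only at `y`: `t1 = (x,y,w1)`, `t = (y,x,x')`, the
angle sum at `x` is smaller than `π` (`Ccw x x' w1`), `p` in `t` on the left of the ray from `y`
... i.e. `0 ≤ cr y w1 p` -/
theorem sees_half {x y w1 x' p : Pt} (h1 : Ccw x y w1) (h2 : Ccw y x x') (hx : Ccw x x' w1)
    (hp : p ∈ ctri y x x') (hy : 0 ≤ cr y w1 p) :
    segment ℝ w1 p ⊆ ctri x y w1 ∪ ctri y x x' := by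
  rintro q ⟨s, r, hs, hr, hsr, rfl⟩
  obtain ⟨hp1, hp2, hp3⟩ := hp
  have h1' : 0 < cr x y w1 := h1
  have h2' : 0 < cr y x x' := h2
  have hx' : 0 < cr x x' w1 := hx
  have k1 : 0 ≤ cr w1 x p := by
    have e : cr y x x' * cr w1 x p = cr x x' p * cr x y w1 + cr y x p * cr x x' w1 := by
      unfold cr; ring
    refine nonneg_of_mul_nonneg_right ?_ h2'
    rw [e]; positivity
  have c1 : cr y w1 (s • w1 + r • p) = r * cr y w1 p := by
    rw [cr_affine _ _ _ _ _ _ hsr, cr_self_right]; ring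
  have c2 : cr w1 x (s • w1 + r • p) = r * cr w1 x p := by
    rw [cr_affine _ _ _ _ _ _ hsr, cr_self_left]; ring
  have c3 : cr x y (s • w1 + r • p) = s * cr x y w1 - r * cr y x p := by
    rw [cr_affine _ _ _ _ _ _ hsr, cr_swap' y x p]; ring
  have c4 : cr x x' (s • w1 + r • p) = s * cr x x' w1 + r * cr x x' p :=
    cr_affine _ _ _ _ _ _ hsr
  have c5 : cr x' y (s • w1 + r • p) = s * cr x' y w1 + r * cr x' y p :=
    cr_affine _ _ _ _ _ _ hsr
  rcases le_total 0 (cr x y (s • w1 + r • p)) with h5 | h5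
  · left
    refine ⟨h5, ?_, ?_⟩
    · rw [c1]; positivity
    · rw [c2]; positivity
  · right
    refine ⟨?_, ?_, ?_⟩
    · rw [cr_swap']; linarith
    · rw [c4]; positivity
    · rw [c5]
      rcases le_total 0 (cr x' y w1) with h6 | h6
      · positivity
      · have pl : cr x y w1 * cr x' y p + cr y x p * cr x' y w1 = cr y w1 p * cr y x x' := by
          unfold cr; ring
        have pl' : 0 ≤ cr x y w1 * cr x' y p + cr y x p * cr x' y w1 := by
          rw [pl]; positivity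
        have h7 : s * cr x y w1 ≤ r * cr y x p := by rw [c3] at h5; linarith
        have h8 : (r * cr y x p) * cr x' y w1 ≤ (s * cr x y w1) * cr x' y w1 :=
          mul_le_mul_of_nonpos_right h7 h6
        refine nonneg_of_mul_nonneg_right (a := cr x y w1) ?_ h1'
        nlinarith [mul_nonneg hr pl']

/-- the mirror image: `t2 = (y,x',w2)` on the other side of `t`: written for
`t = (y,x,x')`, `t2 = (x',... )`: side `x'y` of `t`, neighbour `(y,x',w2)`, angle sum at `x'`
smaller than `π` -/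
theorem sees_half' {x y x' w2 p : Pt} (h1 : Ccw y x' w2) (h2 : Ccw y x x') (hx : Ccw x' w2 x)
    (hp : p ∈ ctri y x x') (hy : 0 ≤ cr y p w2) :
    segment ℝ w2 p ⊆ ctri y x' w2 ∪ ctri y x x' := by
  rintro q ⟨s, r, hs, hr, hsr, rfl⟩
  obtain ⟨hp1, hp2, hp3⟩ := hp
  have h1' : 0 < cr y x' w2 := h1
  have h2' : 0 < cr y x x' := h2
  have hx' : 0 < cr x' w2 x := hx
  have k1 : 0 ≤ cr x' w2 p := by
    have e : cr y x x' * cr x' w2 p = cr x x' p * cr y x' w2 + cr x' y p * cr x' w2 x := by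
      unfold cr; ring
    refine nonneg_of_mul_nonneg_right ?_ h2'
    rw [e]; positivity
  have c1 : cr w2 y (s • w2 + r • p) = r * cr y p w2 := by
    rw [cr_affine _ _ _ _ _ _ hsr, cr_self_left, ← cr_rot w2 y p]; ring
  have c2 : cr x' w2 (s • w2 + r • p) = r * cr x' w2 p := by
    rw [cr_affine _ _ _ _ _ _ hsr, cr_self_right]; ring
  have c3 : cr y x' (s • w2 + r • p) = s * cr y x' w2 - r * cr x' y p := by
    rw [cr_affine _ _ _ _ _ _ hsr, cr_swap' x' y p]; ring
  have c4 : cr x x' (s • w2 + r • p) = s * cr x' w2 x + r * cr x x' p := by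
    rw [cr_affine _ _ _ _ _ _ hsr, ← cr_rot x x' w2]
  have c5 : cr y x (s • w2 + r • p) = s * cr y x w2 + r * cr y x p :=
    cr_affine _ _ _ _ _ _ hsr
  rcases le_total 0 (cr y x' (s • w2 + r • p)) with h5 | h5
  · left
    refine ⟨h5, ?_, ?_⟩
    · rw [c2]; positivity
    · rw [c1]; positivity
  · right
    refine ⟨?_, ?_, ?_⟩
    · rw [c5]
      rcases le_total 0 (cr y x w2) with h6 | h6
      · positivity
      · have pl : cr y x' w2 * cr y x p + cr x' y p * cr y x w2 = cr y p w2 * cr y x x' := by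
          unfold cr; ring
        have pl' : 0 ≤ cr y x' w2 * cr y x p + cr x' y p * cr y x w2 := by
          rw [pl]; positivity
        have h7 : s * cr y x' w2 ≤ r * cr x' y p := by rw [c3] at h5; linarith
        have h8 : (r * cr x' y p) * cr y x w2 ≤ (s * cr y x' w2) * cr y x w2 :=
          mul_le_mul_of_nonpos_right h7 h6
        refine nonneg_of_mul_nonneg_right (a := cr y x' w2) ?_ h1'
        nlinarith [mul_nonneg hr pl']
    · rw [c4]; positivity
    · rw [cr_swap']; linarith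

/-- (pair) around `y`: `w1, x, x', w2` counterclockwise, total angle smaller than `2π`; then a
point `p` of the triangle `(y,x,x')` is not more than `π` away from `w1` or from `w2` -/
theorem pair_dichotomy {y w1 x x' w2 p : Pt} (h1 : Ccw y w1 x) (h2 : Ccw y x x')
    (h3 : Ccw y x' w2) (hs : ang y w1 x + ang y x x' + ang y x' w2 < 2 * Real.pi)
    (hp : p ∈ ctri y x x') : 0 ≤ cr y w1 p ∨ 0 ≤ cr y p w2 := by
  obtain ⟨hp1, hp2, hp3⟩ := hp
  have h1' : 0 < cr y w1 x := h1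
  have h2' : 0 < cr y x x' := h2
  have h3' : 0 < cr y x' w2 := h3
  have hp3' : 0 ≤ cr y p x' := by rw [cr_rot x' y p]; exact hp3
  have e1 : cr y x x' * cr y w1 p = cr y p x' * cr y w1 x + cr y x p * cr y w1 x' := by
    unfold cr; ring
  have e2 : cr y x x' * cr y p w2 = cr y x p * cr y x' w2 + cr y p x' * cr y x w2 := by
    unfold cr; ring
  rcases hp1.eq_or_lt with h0 | h0
  · left
    refine nonneg_of_mul_nonneg_right ?_ h2'
    rw [e1, ← h0]
    have : 0 ≤ cr y p x' * cr y w1 x := by positivity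
    linarith
  rcases hp3'.eq_or_lt with h0' | h0'
  · right
    refine nonneg_of_mul_nonneg_right ?_ h2'
    rw [e2, ← h0']
    have : 0 ≤ cr y x p * cr y x' w2 := by positivity
    linarith
  by_contra hcon
  push Not at hcon
  have a1 : ¬ Ccw y w1 p := fun h => absurd h (by unfold Ccw; linarith [hcon.1])
  have a2 : ¬ Ccw y p w2 := fun h => absurd h (by unfold Ccw; linarith [hcon.2])
  rw [← ang_add_lt_pi_iff h1 h0] at a1
  rw [← ang_add_lt_pi_iff h0' h3] at a2
  have a3 := ang_add_of_ccw (a := y) (b := x) (c := p) (d := x') h0 h0' h2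
  linarith

end AG
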