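import Pool.Agent.AG.Fan
import Pool.Agent.AG.Blades
import Pool.Agent.AG.Quad

/-!
# Project AG: the cut calculus (C1-C7, L1, L3, L4 of AG_v2.md), in dart form   (helper85)

`S.bd X` is the set of the darts which leave `X`.  Everything is for `X ⊆ S.F`.
-/

set_option linter.unusedSectionVars false
set_option linter.unusedSimpArgs false

namespace AG

open Finset

variable {I : Type} [DecidableEq I]

namespace Obj

variable {S : Obj I}

/-! ### general tools -/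

theorem Conn.eq_empty_or {X : Finset I} (hc : S.Conn) (hX : X ⊆ S.F) (h : S.bd X = ∅) :
    X = ∅ ∨ X = S.F := by
  by_contra hcon
  push Not at hcon
  have := hc.2 X hX hcon.1 hcon.2
  rw [h] at this
  exact not_nonempty_empty this

theorem Conn.bd_nonempty {X : Finset I} (hc : S.Conn) (hX : X ⊆ S.F) (hne : X.Nonempty)
    (hF : X ≠ S.F) : (S.bd X).Nonempty := hc.2 X hX hne hF

/-- every cut of a connected bridgeless object has at least two edges -/
theorem Bridgeless.two_le' (hb : S.Bridgeless) (hc : S.Conn) {X : Finset I} (hX : X ⊆ S.F)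
    (hne : X.Nonempty) (hF : X ≠ S.F) : 2 ≤ (S.bd X).card :=
  hb.two_le hX (hc.bd_nonempty hX hne hF)

theorem nonempty_of_bd {X : Finset I} {a : Sd I} (h : a ∈ S.bd X) : X.Nonempty :=
  ⟨a.1, (mem_bd.1 h).2.1⟩

theorem ne_F_of_bd {X : Finset I} {a : Sd I} (h : a ∈ S.bd X) : X ≠ S.F := by
  rintro rfl
  exact (mem_bd.1 h).2.2 (g_memF (mem_bd.1 h).1)

theorem mem_bd_compl {X : Finset I} {a : Sd I} : a ∈ S.bd (S.F \ X) ↔ S.g a ∈ S.bd (S.F ∩ X) := by
  rw [bd_sdiff, mem_image]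
  constructor
  · rintro ⟨b, hb, rfl⟩; rw [S.invol]; exact hb
  · intro h; exact ⟨S.g a, h, S.invol a⟩

theorem mem_bd_compl' {X : Finset I} (hX : X ⊆ S.F) {a : Sd I} :
    a ∈ S.bd (S.F \ X) ↔ S.g a ∈ S.bd X := by
  rw [mem_bd_compl, inter_eq_right.2 hX]

/-! ### C1 -/

/-- C1, undirected: same boundary edges -/
theorem eq_or_compl (hc : S.Conn) {X Y : Finset I} (hX : X ⊆ S.F) (hY : Y ⊆ S.F)
    (h : ∀ a, (a ∈ S.bd X ∨ S.g a ∈ S.bd X) ↔ (a ∈ S.bd Y ∨ S.g a ∈ S.bd Y)) :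
    Y = X ∨ Y = S.F \ X := by
  -- glued sides: crossing for `X` iff crossing for `Y`
  have key : ∀ a, S.g a ≠ a → ((a.1 ∈ X ↔ (S.g a).1 ∈ X) ↔ (a.1 ∈ Y ↔ (S.g a).1 ∈ Y)) := by
    intro a ha
    have hk : ∀ Z : Finset I, (a ∈ S.bd Z ∨ S.g a ∈ S.bd Z) ↔ ¬ (a.1 ∈ Z ↔ (S.g a).1 ∈ Z) := by
      intro Z
      rw [mem_bd, mem_bd, S.invol]
      have ha' : a ≠ S.g a := ha.symm
      by_cases h1 : a.1 ∈ Z <;> by_cases h2 : (S.g a).1 ∈ Z <;> simp [h1, h2, ha, ha']
    have := h a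
    rw [hk, hk] at this
    exact not_iff_not.1 this
  set Z := (X \ Y) ∪ (Y \ X) with hZ
  have hZF : Z ⊆ S.F := by
    intro t ht
    rw [hZ, mem_union, mem_sdiff, mem_sdiff] at ht
    rcases ht with ht | ht
    · exact hX ht.1
    · exact hY ht.1
  have hmem : ∀ t, t ∈ Z ↔ ¬ (t ∈ X ↔ t ∈ Y) := by
    intro t
    rw [hZ, mem_union, mem_sdiff, mem_sdiff]
    by_cases h1 : t ∈ X <;> by_cases h2 : t ∈ Y <;> simp [h1, h2]
  have hbd : S.bd Z = ∅ := by
    rw [eq_empty_iff_forall_notMem]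
    intro a ha
    rw [mem_bd, hmem, hmem] at ha
    obtain ⟨h0, h1, h2⟩ := ha
    have h3 := key a h0
    tauto
  rcases hc.eq_empty_or hZF hbd with h1 | h1
  · left
    ext t
    by_contra hcon
    have : t ∈ Z := (hmem t).2 (fun e => hcon e.symm)
    rw [h1] at this
    exact notMem_empty _ this
  · right
    ext t
    rw [mem_sdiff]
    constructor
    · intro ht
      have h2 : t ∈ Z := h1 ▸ hY ht
      rw [hmem] at h2
      exact ⟨hY ht, fun h3 => h2 ⟨fun _ => ht, fun _ => h3⟩⟩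
    · rintro ⟨h2, h3⟩
      have h4 : t ∈ Z := h1 ▸ h2
      rw [hmem] at h4
      by_contra h5
      exact h4 ⟨fun h => absurd h h3, fun h => absurd h h5⟩

/-- C1, directed: a nonempty boundary determines the set -/
theorem eq_of_bd_eq (hc : S.Conn) {X Y : Finset I} (hX : X ⊆ S.F) (hY : Y ⊆ S.F)
    (hne : (S.bd X).Nonempty) (h : S.bd X = S.bd Y) : X = Y := by
  rcases eq_or_compl hc hX hY (fun a => by rw [h]) with h1 | h1
  · exact h1.symm
  · exfalso
    obtain ⟨a, ha⟩ := hne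
    have h2 : a ∈ S.bd Y := h ▸ ha
    rw [h1] at h2
    have h3 := (mem_bd.1 ha).2.1
    have h4 := (mem_bd.1 h2).2.1
    exact (mem_sdiff.1 h4).2 h3

/-! ### C2: the face lemma -/

/-- C2: two different sides of a triangle with three glued sides are never a 2-cut -/
theorem Bridgeless.face_aux (hb : S.Bridgeless) {X : Finset I} (hX : X ⊆ S.F) {a b c : Sd I}
    (hab : b.1 = a.1) (hac : c.1 = a.1) (hcg : S.g c ≠ c) (hca : c ≠ a) (hcb : c ≠ b)
    (hall : ∀ d : Sd I, d.1 = a.1 → d = a ∨ d = b ∨ d = c)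
    (h : S.bd X = {a, b}) : False := by
  have ha : a ∈ S.bd X := by rw [h]; simp
  have hb' : b ∈ S.bd X := by rw [h]; simp
  have hcn : c ∉ S.bd X := by rw [h]; simp [hca, hcb]
  have haX := (mem_bd.1 ha).2.1
  have hcX : (S.g c).1 ∈ X := by
    by_contra h1
    exact hcn (mem_bd.2 ⟨hcg, hac ▸ haX, h1⟩)
  refine hb (S.g c) ⟨X.erase a.1, (erase_subset _ _).trans hX, ?_⟩
  ext d
  rw [mem_singleton, mem_bd, mem_erase, mem_erase]
  constructor
  · rintro ⟨h1, ⟨h2, h3⟩, h4⟩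
    by_cases h5 : (S.g d).1 ∈ X
    · have h6 : (S.g d).1 = a.1 := by
        by_contra h7; exact h4 ⟨h7, h5⟩
      rcases hall _ h6 with h7 | h7 | h7
      · exfalso
        apply (mem_bd.1 ha).2.2
        rw [← h7, S.invol]; exact h3
      · exfalso
        apply (mem_bd.1 hb').2.2
        rw [← h7, S.invol]; exact h3
      · rw [← h7, S.invol]
    · exfalso
      have h6 : d ∈ S.bd X := mem_bd.2 ⟨h1, h3, h5⟩
      rw [h, mem_insert, mem_singleton] at h6
      rcases h6 with rfl | rfl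
      · exact h2 rfl
      · exact h2 hab
  · rintro rfl
    refine ⟨g_ne_iff.2 hcg, ⟨?_, hcX⟩, ?_⟩
    · rw [← hac]; exact S.ne c hcg
    · rw [S.invol, hac]; exact fun h1 => h1.1 rfl

/-- C2 -/
theorem Bridgeless.face_cut (hb : S.Bridgeless) {X : Finset I} (hX : X ⊆ S.F) {a b : Sd I}
    (hf : S.Face a.1) (hab : b.1 = a.1) (hne : a ≠ b) :
    S.bd X ≠ {a, b} ∧ S.bd X ≠ {S.g a, S.g b} := by
  -- the third side
  obtain ⟨c, hc1, hc2, hc3, hall⟩ : ∃ c : Sd I, c.1 = a.1 ∧ c ≠ a ∧ c ≠ b ∧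
      ∀ d : Sd I, d.1 = a.1 → d = a ∨ d = b ∨ d = c := by
    rcases eq_of_fst_eq hab with h | h | h
    · exact absurd h.symm hne
    · refine ⟨unrot a, rfl, unrot_ne a, by rw [h]; exact unrot_ne_rot a, fun d hd => ?_⟩
      rcases eq_of_fst_eq hd with h1 | h1 | h1
      · exact Or.inl h1
      · exact Or.inr (Or.inl (h1.trans h.symm))
      · exact Or.inr (Or.inr h1)
    · refine ⟨rot a, rfl, rot_ne a, by rw [h]; exact (unrot_ne_rot a).symm, fun d hd => ?_⟩
      rcases eq_of_fst_eq hd with h1 | h1 | h1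
      · exact Or.inl h1
      · exact Or.inr (Or.inr h1)
      · exact Or.inr (Or.inl (h1.trans h.symm))
  have hcg : S.g c ≠ c := by
    have := hf.2 c.2
    rwa [← hc1] at this
  refine ⟨hb.face_aux hX hab hc1 hcg hc2 hc3 hall, fun h => ?_⟩
  refine hb.face_aux (X := S.F \ X) sdiff_subset hab hc1 hcg hc2 hc3 hall ?_
  rw [bd_sdiff, inter_eq_right.2 hX, h, image_insert, image_singleton, S.invol, S.invol]

/-! ### C3: the sub lemma -/

/-- C3 -/
theorem sub_of_bd (hc : S.Conn) {X Y : Finset I} (hY : Y ⊆ S.F) (hne : X.Nonempty) (hX : X ⊆ S.F)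
    (h1 : ∀ a ∈ S.bd X, (S.g a).1 ∉ Y) (h2 : ∀ a ∈ S.bd Y, a.1 ∈ X) : Y ⊆ X := by
  have hbd : S.bd (Y \ X) = ∅ := by
    rw [eq_empty_iff_forall_notMem]
    intro a ha
    rw [mem_bd, mem_sdiff, mem_sdiff] at ha
    obtain ⟨h0, ⟨h3, h4⟩, h5⟩ := ha
    by_cases h6 : (S.g a).1 ∈ Y
    · have h7 : (S.g a).1 ∈ X := by by_contra h8; exact h5 ⟨h6, h8⟩
      have h8 : S.g a ∈ S.bd X := mem_bd.2 ⟨g_ne_iff.2 h0, h7, by rw [S.invol]; exact h4⟩
      have := h1 _ h8
      rw [S.invol] at this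
      exact this h3
    · exact h4 (h2 a (mem_bd.2 ⟨h0, h3, h6⟩))
  rcases hc.eq_empty_or (sdiff_subset.trans hY) hbd with h3 | h3
  · exact sdiff_eq_empty_iff_subset.1 h3
  · exfalso
    obtain ⟨t, ht⟩ := hne
    have : t ∈ Y \ X := h3 ▸ hX ht
    exact (mem_sdiff.1 this).2 ht

/-- C3, disjoint form -/
theorem disjoint_of_bd (hc : S.Conn) {X Y : Finset I} (hX : X ⊆ S.F) (hF : X ≠ S.F)
    (h1 : ∀ a ∈ S.bd X, a.1 ∉ Y) (h2 : ∀ a ∈ S.bd Y, a.1 ∉ X) : Disjoint X Y := by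
  have hbd : S.bd (X ∩ Y) = ∅ := by
    rw [eq_empty_iff_forall_notMem]
    intro a ha
    rw [mem_bd, mem_inter, mem_inter] at ha
    obtain ⟨h0, ⟨h3, h4⟩, h5⟩ := ha
    by_cases h6 : (S.g a).1 ∈ X
    · have h7 : (S.g a).1 ∉ Y := fun h8 => h5 ⟨h6, h8⟩
      exact h2 a (mem_bd.2 ⟨h0, h4, h7⟩) h3
    · exact h1 a (mem_bd.2 ⟨h0, h3, h6⟩) h4
  rcases hc.eq_empty_or (inter_subset_left.trans hX) hbd with h3 | h3
  · exact disjoint_iff_inter_eq_empty.2 h3
  · exfalso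
    apply hF
    exact subset_antisymm hX (h3 ▸ inter_subset_left)

/-! ### C4: both sides of a 2-cut are connected -/

/-- C4 -/
theorem exists_inner (hc : S.Conn) (hb : S.Bridgeless) {X Z : Finset I} (hX : X ⊆ S.F)
    (h2 : (S.bd X).card ≤ 3) (hZ : Z ⊆ X) (hne : Z.Nonempty) (hZX : Z ≠ X) :
    ∃ a ∈ S.bd Z, (S.g a).1 ∈ X := by
  by_contra hcon
  push Not at hcon
  have s1 : S.bd Z ⊆ S.bd X := by
    intro a ha
    have h := mem_bd.1 ha
    exact mem_bd.2 ⟨h.1, hZ h.2.1, hcon a ha⟩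
  have s2 : S.bd (X \ Z) ⊆ S.bd X := by
    intro a ha
    rw [mem_bd, mem_sdiff, mem_sdiff] at ha
    obtain ⟨h0, ⟨h3, h4⟩, h5⟩ := ha
    refine mem_bd.2 ⟨h0, h3, fun h6 => ?_⟩
    have h7 : (S.g a).1 ∈ Z := by by_contra h8; exact h5 ⟨h6, h8⟩
    have h8 : S.g a ∈ S.bd Z := mem_bd.2 ⟨g_ne_iff.2 h0, h7, by rw [S.invol]; exact h4⟩
    have := hcon _ h8
    rw [S.invol] at this
    exact this h3
  have hdisj : Disjoint (S.bd Z) (S.bd (X \ Z)) := by
    rw [disjoint_left]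
    intro a ha ha'
    exact (mem_sdiff.1 (mem_bd.1 ha').2.1).2 (mem_bd.1 ha).2.1
  have hXne : X.Nonempty := hne.mono hZ
  have hne2 : (X \ Z).Nonempty := by
    rw [sdiff_nonempty]
    exact fun h => hZX (subset_antisymm hZ h)
  have c1 : 2 ≤ (S.bd Z).card := by
    apply hb.two_le' hc (hZ.trans hX) hne
    rintro rfl
    exact hZX (subset_antisymm hZ hX)
  have c2 : 2 ≤ (S.bd (X \ Z)).card := by
    apply hb.two_le' hc (sdiff_subset.trans hX) hne2
    intro h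
    obtain ⟨t, ht⟩ := hne
    have : t ∈ X \ Z := h ▸ hX (hZ ht)
    exact (mem_sdiff.1 this).2 ht
  have c3 := card_le_card (union_subset s1 s2)
  rw [card_union_of_disjoint hdisj] at c3
  omega

/-- C4 / C7: a set with at most three boundary edges is connected -/
theorem keep_conn (hc : S.Conn) (hb : S.Bridgeless) {X : Finset I} (hX : X ⊆ S.F)
    (h2 : (S.bd X).card ≤ 3) (hne : X.Nonempty) : (S.keep X).Conn := by
  refine ⟨by rw [keep_F S hX]; exact hne, fun Z hZ hZne hZX => ?_⟩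
  rw [keep_F S hX] at hZ hZX
  obtain ⟨a, ha, ha'⟩ := exists_inner hc hb hX h2 hZ hZne hZX
  rw [keep_bd S hZ]
  exact ⟨a, mem_filter.2 ⟨ha, ha'⟩⟩

/-- C7: removing a set with at most three boundary edges -/
theorem keep_sdiff_conn (hc : S.Conn) (hb : S.Bridgeless) {M : Finset I} (hM : M ⊆ S.F)
    (h3 : (S.bd M).card ≤ 3) (hne : (S.F \ M).Nonempty) : (S.keep (S.F \ M)).Conn :=
  keep_conn hc hb sdiff_subset (by rw [card_bd_sdiff S hM]; exact h3) hne

/-! ### C6: the crossing lemma -/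

/-- number of darts from `U` to `W` -/
def nd (S : Obj I) (U W : Finset I) : ℕ :=
  (S.glued.filter (fun a => a.1 ∈ U ∧ (S.g a).1 ∈ W)).card

theorem nd_symm (U W : Finset I) : S.nd U W = S.nd W U := by
  unfold nd
  refine card_bij' (fun a _ => S.g a) (fun a _ => S.g a) ?_ ?_ ?_ ?_
  · intro a ha
    rw [mem_filter] at ha ⊢
    exact ⟨g_mem_glued.2 ha.1, ha.2.2, by rw [S.invol]; exact ha.2.1⟩
  · intro a ha
    rw [mem_filter] at ha ⊢
    exact ⟨g_mem_glued.2 ha.1, ha.2.2, by rw [S.invol]; exact ha.2.1⟩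
  · intro a _; exact S.invol a
  · intro a _; exact S.invol a

theorem nd_pos {U W : Finset I} (h : 0 < S.nd U W) :
    ∃ a, S.g a ≠ a ∧ a.1 ∈ U ∧ (S.g a).1 ∈ W := by
  obtain ⟨a, ha⟩ := card_pos.1 h
  rw [mem_filter, mem_glued] at ha
  exact ⟨a, ha⟩

/-- C6 -/
theorem crossing (hc : S.Conn) (hb : S.Bridgeless) {X Y : Finset I} (hX : X ⊆ S.F)
    (hY : Y ⊆ S.F) (hX2 : (S.bd X).card = 2) (hY2 : (S.bd Y).card = 2)
    (h1 : (X ∩ Y).Nonempty) (h2 : (X \ Y).Nonempty) (h3 : (Y \ X).Nonempty)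
    (h4 : (S.F \ (X ∪ Y)).Nonempty) :
    ∃ e e' f f' : Sd I,
      S.bd X = {e, e'} ∧ S.bd Y = {f, f'} ∧
      (e.1 ∈ X ∧ e.1 ∈ Y ∧ (S.g e).1 ∉ X ∧ (S.g e).1 ∈ Y) ∧
      (e'.1 ∈ X ∧ e'.1 ∉ Y ∧ (S.g e').1 ∉ X ∧ (S.g e').1 ∉ Y) ∧
      (f.1 ∈ X ∧ f.1 ∈ Y ∧ (S.g f).1 ∈ X ∧ (S.g f).1 ∉ Y) ∧
      (f'.1 ∉ X ∧ f'.1 ∈ Y ∧ (S.g f').1 ∉ X ∧ (S.g f').1 ∉ Y) := by
  classical
  set P := X ∩ Y with hP
  set Q := X \ Y with hQ
  set R := Y \ X with hR
  set O := S.F \ (X ∪ Y) with hO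
  -- sums over glued darts
  have hbd : ∀ Z : Finset I, (S.bd Z).card
      = ∑ a ∈ S.glued, if a.1 ∈ Z ∧ (S.g a).1 ∉ Z then 1 else 0 := fun Z => by
    rw [bd, Finset.card_filter]
  have hnd : ∀ U W : Finset I, S.nd U W
      = ∑ a ∈ S.glued, if a.1 ∈ U ∧ (S.g a).1 ∈ W then 1 else 0 := fun U W => by
    rw [nd, Finset.card_filter]
  have e1 : (S.bd X).card = S.nd P R + S.nd P O + S.nd Q R + S.nd Q O := by
    simp only [hbd, hnd, ← Finset.sum_add_distrib]
    refine Finset.sum_congr rfl fun a ha => ?_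
    have hg := mem_glued.1 ha
    have m1 := S.memF a hg
    have m2 := g_memF hg
    by_cases b1 : a.1 ∈ X <;> by_cases b2 : a.1 ∈ Y <;> by_cases b3 : (S.g a).1 ∈ X <;>
      by_cases b4 : (S.g a).1 ∈ Y <;> simp [hP, hQ, hR, hO, b1, b2, b3, b4, m1, m2]
  have e2 : (S.bd Y).card = S.nd P Q + S.nd P O + S.nd R Q + S.nd R O := by
    simp only [hbd, hnd, ← Finset.sum_add_distrib]
    refine Finset.sum_congr rfl fun a ha => ?_
    have hg := mem_glued.1 ha
    have m1 := S.memF a hg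
    have m2 := g_memF hg
    by_cases b1 : a.1 ∈ X <;> by_cases b2 : a.1 ∈ Y <;> by_cases b3 : (S.g a).1 ∈ X <;>
      by_cases b4 : (S.g a).1 ∈ Y <;> simp [hP, hQ, hR, hO, b1, b2, b3, b4, m1, m2]
  have e3 : (S.bd P).card = S.nd P Q + S.nd P R + S.nd P O := by
    simp only [hbd, hnd, ← Finset.sum_add_distrib]
    refine Finset.sum_congr rfl fun a ha => ?_
    have hg := mem_glued.1 ha
    have m1 := S.memF a hg
    have m2 := g_memF hg
    by_cases b1 : a.1 ∈ X <;> by_cases b2 : a.1 ∈ Y <;> by_cases b3 : (S.g a).1 ∈ X <;>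
      by_cases b4 : (S.g a).1 ∈ Y <;> simp [hP, hQ, hR, hO, b1, b2, b3, b4, m1, m2]
  have e4 : (S.bd Q).card = S.nd Q P + S.nd Q R + S.nd Q O := by
    simp only [hbd, hnd, ← Finset.sum_add_distrib]
    refine Finset.sum_congr rfl fun a ha => ?_
    have hg := mem_glued.1 ha
    have m1 := S.memF a hg
    have m2 := g_memF hg
    by_cases b1 : a.1 ∈ X <;> by_cases b2 : a.1 ∈ Y <;> by_cases b3 : (S.g a).1 ∈ X <;>
      by_cases b4 : (S.g a).1 ∈ Y <;> simp [hP, hQ, hR, hO, b1, b2, b3, b4, m1, m2]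
  have e5 : (S.bd R).card = S.nd R P + S.nd R Q + S.nd R O := by
    simp only [hbd, hnd, ← Finset.sum_add_distrib]
    refine Finset.sum_congr rfl fun a ha => ?_
    have hg := mem_glued.1 ha
    have m1 := S.memF a hg
    have m2 := g_memF hg
    by_cases b1 : a.1 ∈ X <;> by_cases b2 : a.1 ∈ Y <;> by_cases b3 : (S.g a).1 ∈ X <;>
      by_cases b4 : (S.g a).1 ∈ Y <;> simp [hP, hQ, hR, hO, b1, b2, b3, b4, m1, m2]
  have e6 : (S.bd O).card = S.nd O P + S.nd O Q + S.nd O R := by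
    simp only [hbd, hnd, ← Finset.sum_add_distrib]
    refine Finset.sum_congr rfl fun a ha => ?_
    have hg := mem_glued.1 ha
    have m1 := S.memF a hg
    have m2 := g_memF hg
    by_cases b1 : a.1 ∈ X <;> by_cases b2 : a.1 ∈ Y <;> by_cases b3 : (S.g a).1 ∈ X <;>
      by_cases b4 : (S.g a).1 ∈ Y <;> simp [hP, hQ, hR, hO, b1, b2, b3, b4, m1, m2]
  have hPF : P ⊆ S.F := inter_subset_left.trans hX
  have hQF : Q ⊆ S.F := sdiff_subset.trans hX
  have hRF : R ⊆ S.F := sdiff_subset.trans hY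
  have hOF : O ⊆ S.F := sdiff_subset
  have hne : ∀ {U W : Finset I}, U ⊆ S.F → W ⊆ S.F → W.Nonempty → Disjoint U W → U ≠ S.F := by
    rintro U W hU hW ⟨t, ht⟩ hd rfl
    exact disjoint_left.1 hd (hW ht) ht
  have dPQ : Disjoint P Q := by
    rw [disjoint_left]; intro t h h'
    exact (mem_sdiff.1 h').2 (mem_inter.1 h).2
  have dRP : Disjoint R P := by
    rw [disjoint_left]; intro t h h'
    exact (mem_sdiff.1 h).2 (mem_inter.1 h').1
  have dOP : Disjoint O P := by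
    rw [disjoint_left]; intro t h h'
    exact (mem_sdiff.1 h).2 (mem_union_left _ (mem_inter.1 h').1)
  have b3 := hb.two_le' hc hPF h1 (hne hPF hQF h2 dPQ)
  have b4 := hb.two_le' hc hQF h2 (hne hQF hPF h1 dPQ.symm)
  have b5 := hb.two_le' hc hRF h3 (hne hRF hPF h1 dRP)
  have b6 := hb.two_le' hc hOF h4 (hne hOF hPF h1 dOP)
  have s1 := nd_symm (S := S) Q P
  have s2 := nd_symm (S := S) R P
  have s3 := nd_symm (S := S) O P
  have s4 := nd_symm (S := S) R Q
  have s5 := nd_symm (S := S) O Q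
  have s6 := nd_symm (S := S) O R
  have pPR : 0 < S.nd P R := by omega
  have pQO : 0 < S.nd Q O := by omega
  have pPQ : 0 < S.nd P Q := by omega
  have pRO : 0 < S.nd R O := by omega
  obtain ⟨e, he0, he1, he2⟩ := nd_pos pPR
  obtain ⟨e', he0', he1', he2'⟩ := nd_pos pQO
  obtain ⟨f, hf0, hf1, hf2⟩ := nd_pos pPQ
  obtain ⟨f', hf0', hf1', hf2'⟩ := nd_pos pRO
  simp only [hP, hQ, hR, hO, mem_inter, mem_sdiff, mem_union, not_or] at he1 he2 he1' he2' hf1 hf2 hf1' hf2'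
  have pair : ∀ {Z : Finset I} {a b : Sd I}, (S.bd Z).card = 2 → a ∈ S.bd Z → b ∈ S.bd Z → a ≠ b →
      S.bd Z = {a, b} := by
    intro Z a b hZ ha hb hab
    symm
    apply eq_of_subset_of_card_le
    · intro x hx
      rw [mem_insert, mem_singleton] at hx
      rcases hx with rfl | rfl <;> assumption
    · rw [hZ, card_pair hab]
  refine ⟨e, e', f, f', ?_, ?_, ⟨he1.1, he1.2, he2.2, he2.1⟩, ⟨he1'.1, he1'.2, he2'.2.1, he2'.2.2⟩,
    ⟨hf1.1, hf1.2, hf2.1, hf2.2⟩, ⟨hf1'.2, hf1'.1, hf2'.2.1, hf2'.2.2⟩⟩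
  · refine pair hX2 (mem_bd.2 ⟨he0, he1.1, he2.2⟩) (mem_bd.2 ⟨he0', he1'.1, he2'.2.1⟩) ?_
    rintro rfl
    exact he1'.2 he1.2
  · refine pair hY2 (mem_bd.2 ⟨hf0, hf1.2, hf2.2⟩) (mem_bd.2 ⟨hf0', hf1'.1, hf2'.2.2⟩) ?_
    rintro rfl
    exact hf1'.2 hf1.1

/-! ### sets between two sides of one visit -/

/-- no side joins a visit to itself (true for geometric objects) -/
def Loopless (S : Obj I) : Prop := ∀ a : Sd I, a.1 ∈ S.F → ¬ S.Eqv a (rot a)

/-- `X` is the part of the object between the sides `c` and `c'` of one visit: it contains the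
triangles at the positions `ps c, …, ps c' - 1` -/
structure IsIn (S : Obj I) (c c' : Sd I) (X : Finset I) : Prop where
  gl : S.g c ≠ c
  gl' : S.g c' ≠ c'
  eqv : S.Eqv c c'
  lt : S.ps c < S.ps c'
  sub : X ⊆ S.F
  bd : S.bd X = {c, S.g c'}

namespace IsIn

variable {c c' : Sd I} {X : Finset I}

theorem mem_left (h : S.IsIn c c' X) : c ∈ S.bd X := by rw [h.bd]; simp
theorem mem_right (h : S.IsIn c c' X) : S.g c' ∈ S.bd X := by rw [h.bd]; simp

theorem ne (hr : S.Loopless) (h : S.IsIn c c' X) : c ≠ S.g c' := by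
  intro e
  have h1 : S.Eqv (rot c') (S.g c') := Eqv.of_glued' h.gl'
  rw [← e] at h1
  exact hr c' (S.memF _ h.gl') ((h1.trans h.eqv).symm)

theorem card (hr : S.Loopless) (h : S.IsIn c c' X) : (S.bd X).card = 2 := by
  rw [h.bd, card_pair (h.ne hr)]

theorem nonempty (h : S.IsIn c c' X) : X.Nonempty := nonempty_of_bd h.mem_left

theorem ne_F (h : S.IsIn c c' X) : X ≠ S.F := ne_F_of_bd h.mem_left

/-- no boundary edge at the positions strictly between, below or above -/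
theorem no_cross (hr : S.Loopless) (h : S.IsIn c c' X) {e : Sd I} (he : S.Eqv c e)
    (h1 : S.ps e ≠ S.ps c) (h2 : S.ps e ≠ S.ps c') (hg : S.g e ≠ e) :
    e.1 ∈ X ↔ (S.g e).1 ∈ X := by
  by_contra hcon
  have hcF := S.memF _ h.gl
  have hcF' := S.memF _ h.gl'
  have l1 : ¬ S.Eqv c (S.g c) := fun h3 => hr c hcF (h3.trans (Eqv.of_glued' h.gl).symm)
  have l2 : ¬ S.Eqv c' (S.g c') := fun h3 => hr c' hcF' (h3.trans (Eqv.of_glued' h.gl').symm)
  rcases mem_bd_or hg hcon with h3 | h3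
  · rw [h.bd, mem_insert, mem_singleton] at h3
    rcases h3 with rfl | h3
    · exact h1 rfl
    · rw [h3] at he
      exact l2 (h.eqv.symm.trans he)
  · rw [h.bd, mem_insert, mem_singleton] at h3
    rcases h3 with h3 | h3
    · rw [← h3, S.invol] at l1
      rw [← h3] at he
      exact l1 he
    · exact h2 (by rw [S.g_injective h3])

/-- L1 -/
theorem mem_iff (hl : S.Linear) (hr : S.Loopless) (h : S.IsIn c c' X) {d : Sd I}
    (hd : S.Eqv c d) : d.1 ∈ X ↔ S.ps c ≤ S.ps d ∧ S.ps d < S.ps c' := by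
  have hc1 : c.1 ∈ X := (mem_bd.1 h.mem_left).2.1
  have hc2 : (S.g c).1 ∉ X := (mem_bd.1 h.mem_left).2.2
  have hc3 : (S.g c').1 ∈ X := (mem_bd.1 h.mem_right).2.1
  have hc4 : c'.1 ∉ X := by have := (mem_bd.1 h.mem_right).2.2; rwa [S.invol] at this
  rcases Nat.lt_or_ge (S.ps d) (S.ps c) with h1 | h1
  · -- below
    have h2 := ps_of_glued hl h.gl
    have h3 : d.1 ∉ X := by
      intro hdX
      obtain ⟨e, e1, e2, e3, e4, e5, -⟩ := exists_cross hl (a := d) (b := S.cw c)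
        (hd.symm.trans (S.cw_eqv c)) (by omega) (X := X)
        (by rw [cw_fst h.gl]; exact fun hh => hc2 (hh.1 hdX))
      exact e5 (h.no_cross hr (hd.trans e1) (by omega) (by have := h.lt; omega) e2)
    constructor
    · intro h4; exact absurd h4 h3
    · intro h4; omega
  · rcases Nat.lt_or_ge (S.ps d) (S.ps c') with h2 | h2
    · constructor
      · intro _; exact ⟨h1, h2⟩
      · intro _
        by_contra hdX
        obtain ⟨e, e1, e2, e3, e4, e5, -⟩ := exists_cross hl (a := c) (b := d) hd h1 (X := X)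
          (fun hh => hdX (hh.1 hc1))
        exact e5 (h.no_cross hr e1 (by omega) (by omega) e2)
    · constructor
      · intro hdX
        exfalso
        obtain ⟨e, e1, e2, e3, e4, e5, -⟩ := exists_cross hl (a := c') (b := d)
          (h.eqv.symm.trans hd) h2 (X := X) (fun hh => hc4 (hh.2 hdX))
        exact e5 (h.no_cross hr (h.eqv.trans e1) (by have := h.lt; omega) (by omega) e2)
      · intro h4; omega

/-- uniqueness -/
theorem unique (hc : S.Conn) {Y : Finset I} (h : S.IsIn c c' X) (h' : S.IsIn c c' Y) : X = Y :=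
  eq_of_bd_eq hc h.sub h'.sub ⟨c, h.mem_left⟩ (h.bd.trans h'.bd.symm)

/-- the triangle below `c` -/
theorem g_left_iff (hl : S.Linear) (hr : S.Loopless) (h : S.IsIn c c' X) {d : Sd I}
    (hd : S.Eqv c d) (hg : S.g d ≠ d) :
    (S.g d).1 ∈ X ↔ S.ps c + 1 ≤ S.ps d ∧ S.ps d ≤ S.ps c' := by
  have h1 : (S.cw d).1 = (S.g d).1 := cw_fst hg
  have h2 := ps_of_glued hl hg
  rw [← h1, h.mem_iff hl hr (hd.trans (S.cw_eqv d))]
  omega

end IsIn

/-- existence of `IsIn` from the boundary edges -/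
theorem exists_isIn (hl : S.Linear) (hr : S.Loopless) {c c' : Sd I} {X : Finset I}
    (hX : X ⊆ S.F) (gl : S.g c ≠ c) (gl' : S.g c' ≠ c') (he : S.Eqv c c')
    (hlt : S.ps c < S.ps c')
    (h : ∀ a, (a ∈ S.bd X ∨ S.g a ∈ S.bd X) ↔ (a = c ∨ a = S.g c ∨ a = c' ∨ a = S.g c')) :
    ∃ Y, (Y = X ∨ Y = S.F \ X) ∧ S.IsIn c c' Y := by
  have main : ∀ Y ⊆ S.F, c ∈ S.bd Y →
      (∀ a, (a ∈ S.bd Y ∨ S.g a ∈ S.bd Y) ↔ (a = c ∨ a = S.g c ∨ a = c' ∨ a = S.g c')) →
      S.IsIn c c' Y := by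
    intro Y hY hcY hh
    have hcF := S.memF _ gl
    have hcF' := S.memF _ gl'
    have l1 : ¬ S.Eqv c (S.g c) := fun h3 => hr c hcF (h3.trans (Eqv.of_glued' gl).symm)
    have l2 : ¬ S.Eqv c' (S.g c') := fun h3 => hr c' hcF' (h3.trans (Eqv.of_glued' gl').symm)
    have hc1 : c.1 ∈ Y := (mem_bd.1 hcY).2.1
    have hc' : c' ∉ S.bd Y := by
      intro h1
      have h2 : (S.g c').1 ∉ Y := (mem_bd.1 h1).2.2
      have h3 := ps_of_glued hl gl'
      obtain ⟨e, e1, e2, e3, e4, e5, -⟩ := exists_cross hl (a := c) (b := S.cw c')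
        (he.trans (S.cw_eqv c')) (by omega) (X := Y)
        (by rw [cw_fst gl']; exact fun hh => h2 (hh.1 hc1))
      have h4 := (hh e).1 (mem_bd_or e2 e5)
      rcases h4 with rfl | h4 | rfl | h4
      · omega
      · rw [h4] at e1; exact l1 e1
      · omega
      · rw [h4] at e1; exact l2 (he.symm.trans e1)
    have hgc' : S.g c' ∈ S.bd Y := by
      have := (hh c').2 (by simp)
      rcases this with h1 | h1
      · exact absurd h1 hc'
      · exact h1
    refine ⟨gl, gl', he, hlt, hY, ?_⟩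
    ext a
    rw [mem_insert, mem_singleton]
    constructor
    · intro ha
      rcases (hh a).1 (Or.inl ha) with h1 | h1 | h1 | h1
      · exact Or.inl h1
      · exfalso
        have h2 := (mem_bd.1 ha).2.2
        rw [h1, S.invol] at h2
        exact h2 hc1
      · exact absurd (h1 ▸ ha) hc'
      · exact Or.inr h1
    · rintro (rfl | rfl)
      · exact hcY
      · exact hgc'
  have hc0 := (h c).2 (by simp)
  rcases hc0 with h1 | h1
  · exact ⟨X, Or.inl rfl, main X hX h1 h⟩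
  · refine ⟨S.F \ X, Or.inr rfl, main _ sdiff_subset ((mem_bd_compl' hX).2 h1) fun a => ?_⟩
    rw [mem_bd_compl' hX, mem_bd_compl' hX, S.invol, ← h a]
    exact or_comm

/-- L4, nesting -/
theorem IsIn.subset (hc : S.Conn) (hl : S.Linear) (hr : S.Loopless) {c c' d d' : Sd I}
    {X Y : Finset I} (h : S.IsIn c c' X) (h' : S.IsIn d d' Y) (he : S.Eqv c d)
    (h1 : S.ps c ≤ S.ps d) (h2 : S.ps d' ≤ S.ps c') : Y ⊆ X := by
  refine sub_of_bd hc h'.sub h.nonempty h.sub (fun a ha => ?_) (fun a ha => ?_)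
  · rw [h.bd, mem_insert, mem_singleton] at ha
    rcases ha with rfl | rfl
    · rw [h'.g_left_iff hl hr he.symm h.gl]
      omega
    · rw [S.invol, h'.mem_iff hl hr (he.symm.trans h.eqv)]
      omega
  · rw [h'.bd, mem_insert, mem_singleton] at ha
    have := h'.lt
    rcases ha with rfl | rfl
    · rw [h.mem_iff hl hr he]
      omega
    · rw [h.g_left_iff hl hr (he.trans h'.eqv) h'.gl']
      omega

/-- L4, disjointness -/
theorem IsIn.disjoint (hc : S.Conn) (hl : S.Linear) (hr : S.Loopless) {c c' d d' : Sd I}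
    {X Y : Finset I} (h : S.IsIn c c' X) (h' : S.IsIn d d' Y) (he : S.Eqv c d)
    (h1 : S.ps c' ≤ S.ps d) : Disjoint X Y := by
  have hlt := h.lt
  have hlt' := h'.lt
  refine disjoint_of_bd hc h.sub h.ne_F (fun a ha => ?_) (fun a ha => ?_)
  · rw [h.bd, mem_insert, mem_singleton] at ha
    rcases ha with rfl | rfl
    · rw [h'.mem_iff hl hr he.symm]
      omega
    · rw [h'.g_left_iff hl hr (he.symm.trans h.eqv) h.gl']
      omega
  · rw [h'.bd, mem_insert, mem_singleton] at ha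
    rcases ha with rfl | rfl
    · rw [h.mem_iff hl hr he]
      omega
    · rw [h.g_left_iff hl hr (he.trans h'.eqv) h'.gl']
      omega

/-! ### geometric objects -/

/-- a directed segment is a side of at most one triangle -/
theorem Geo.eq_of_pts {pt : Sd I → Pt} (hG : S.Geo pt) {a b : Sd I} (ha : a.1 ∈ S.F)
    (hb : b.1 ∈ S.F) (h1 : pt a = pt b) (h2 : pt (rot a) = pt (rot b)) : a = b :=
  hG.side_inj ha hb h1 h2

theorem Geo.pt_of_eqv {pt : Sd I → Pt} (hG : S.Geo pt) {a b : Sd I} (h : S.Eqv a b) :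
    pt a = pt b := by
  induction h with
  | rel x y hxy => rcases hxy with ⟨h1, rfl⟩; exact (hG.mat x h1).symm
  | refl x => rfl
  | symm x y _ ih => exact ih.symm
  | trans x y z _ _ ih1 ih2 => exact ih1.trans ih2

/-- geometric objects have no loops -/
theorem Geo.loopless {pt : Sd I → Pt} (hG : S.Geo pt) : S.Loopless := by
  intro a ha he
  have h1 := Geo.pt_of_eqv hG he
  have hccw : Ccw (pt a) (pt (rot a)) (pt (unrot a)) := hG.ccw ha
  exact hccw.ne h1

/-- L3: two sides with the same visits at both ends (in the same direction) are equal -/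
theorem Geo.eq_of_eqv {pt : Sd I → Pt} (hG : S.Geo pt) {a b : Sd I} (ha : a.1 ∈ S.F)
    (hb : b.1 ∈ S.F) (h1 : S.Eqv a b) (h2 : S.Eqv (rot a) (rot b)) : a = b :=
  Geo.eq_of_pts hG ha hb (Geo.pt_of_eqv hG h1) (Geo.pt_of_eqv hG h2)

/-- L3 for edges: two glued sides which join the same two points are the same edge -/
theorem Geo.eq_or_of_pts {pt : Sd I → Pt} (hG : S.Geo pt) {a b : Sd I} (ha : a.1 ∈ S.F)
    (hb : S.g b ≠ b) (h1 : (pt a = pt b ∧ pt (rot a) = pt (rot b)) ∨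
      (pt a = pt (rot b) ∧ pt (rot a) = pt b)) : a = b ∨ a = S.g b := by
  rcases h1 with ⟨h1, h2⟩ | ⟨h1, h2⟩
  · exact Or.inl (Geo.eq_of_pts hG ha (S.memF _ hb) h1 h2)
  · right
    refine Geo.eq_of_pts hG ha (g_memF hb) ?_ ?_
    · rw [h1]; exact Geo.pt_of_eqv hG (Eqv.of_glued' hb)
    · rw [h2]; exact Geo.pt_of_eqv hG (Eqv.of_glued hb)

end Obj

end AG
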