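import Pool.Agent.AG.Plane

/-!
# Project AG (Shermer's conjecture, MP_586e8d_co): definitions of the combinatorial core

Triangles have names in a type `I`.  A pair `a = (t,i) : Sd I = I × Fin 3` is at the same time
* CORNER number `i` of the triangle `t`,
* the counterclockwise SIDE of `t` which runs from corner `i` to corner `i+1`.

An object `S : Obj I` is a finite set `F` of triangles, an involution `g` of the sides
(`g a = a` iff the side `a` is NOT glued, `g a = b` means: glued to the side `b` of another
triangle, with opposite direction) and a set `E` of ears (unglued sides).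

If `a = (t,i)` is glued to `b = (t',j)`, then the corner `a` and the corner `rot b = (t',j+1)`
lie at the same vertex, `rot b` is the next corner CLOCKWISE after `a`.
-/

namespace AG

open Finset

/-- sides = corners -/
abbrev Sd (I : Type) := I × Fin 3

variable {I : Type}

/-- next corner (side) of the same triangle, counterclockwise -/
def rot (a : Sd I) : Sd I := (a.1, a.2 + 1)

/-- previous corner (side) of the same triangle -/
def unrot (a : Sd I) : Sd I := (a.1, a.2 + 2)

/-- combinatorial objects -/
structure Obj (I : Type) where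
  F : Finset I
  g : Sd I → Sd I
  E : Finset (Sd I)
  invol : ∀ a, g (g a) = a
  ne : ∀ a, g a ≠ a → (g a).1 ≠ a.1
  memF : ∀ a, g a ≠ a → a.1 ∈ F
  earF : ∀ a ∈ E, a.1 ∈ F
  earFree : ∀ a ∈ E, g a = a

namespace Obj

/-- `b` is the corner clockwise after the corner `a` at the same vertex (across the side `a`) -/
def Step (S : Obj I) (a b : Sd I) : Prop := S.g a ≠ a ∧ b = rot (S.g a)

/-- equivalence of corners; the classes are the VISITS -/
def Eqv (S : Obj I) : Sd I → Sd I → Prop := Relation.EqvGen S.Step

variable [DecidableEq I]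

/-- clockwise neighbour of a corner, the corner itself if its side is not glued -/
def cw (S : Obj I) (a : Sd I) : Sd I := if S.g a = a then a else rot (S.g a)

/-- counterclockwise neighbour of a corner (across the side `unrot a`), the corner itself if
there is none -/
def ccw (S : Obj I) (a : Sd I) : Sd I :=
  if S.g (unrot a) = unrot a then a else S.g (unrot a)

/-- linear fans: going clockwise one arrives at an unglued side -/
def Linear (S : Obj I) : Prop := ∀ a, ∃ n, S.g (S.cw^[n] a) = S.cw^[n] a

/-- all sides (= corners) of the triangles of `S` -/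
def sides (S : Obj I) : Finset (Sd I) := S.F ×ˢ (univ : Finset (Fin 3))

/-- unglued sides.  In a linear object every visit contains exactly one unglued side
(its last corner in the clockwise direction), so `vis` stands for the set of visits. -/
def vis (S : Obj I) : Finset (Sd I) := S.sides.filter (fun a => S.g a = a)

/-- glued sides -/
def glued (S : Obj I) : Finset (Sd I) := S.sides.filter (fun a => S.g a ≠ a)

/-- boundary of a set of triangles: glued sides of triangles of `X` whose partner is outside -/
def bd (S : Obj I) (X : Finset I) : Finset (Sd I) :=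
  S.glued.filter (fun a => a.1 ∈ X ∧ (S.g a).1 ∉ X)

/-- connected (and not empty) -/
def Conn (S : Obj I) : Prop :=
  S.F.Nonempty ∧ ∀ X ⊆ S.F, X.Nonempty → X ≠ S.F → (S.bd X).Nonempty

/-- the glued side `a` is a bridge of the dual graph -/
def Bridge (S : Obj I) (a : Sd I) : Prop := ∃ X ⊆ S.F, S.bd X = {a}

/-- `t` lies on no cycle of the dual graph -/
def Noncore (S : Obj I) (t : I) : Prop := t ∈ S.F ∧ ∀ i, S.g (t, i) ≠ (t, i) → S.Bridge (t, i)

def Bridgeless (S : Obj I) : Prop := ∀ a, ¬ S.Bridge a

/-- twice the number `N(S,W)` of the text, for connected `S` and `|W| = k` -/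
def N2 (S : Obj I) (k : ℕ) : ℕ := S.F.card + S.vis.card + 2 + 4 * k + 2 * S.E.card

/-- sub-objects; nothing is said about ears -/
structure Le (S' S : Obj I) : Prop where
  F : S'.F ⊆ S.F
  g : ∀ a, S'.g a = S.g a ∨ S'.g a = a

/-- restriction to the triangles of `X` -/
def keep (S : Obj I) (X : Finset I) : Obj I where
  F := S.F ∩ X
  g a := if a.1 ∈ X ∧ (S.g a).1 ∈ X then S.g a else a
  E := S.E.filter (fun a => a.1 ∈ X)
  invol a := by
    by_cases h : a.1 ∈ X ∧ (S.g a).1 ∈ X
    · simp [h, S.invol]
    · simp [h]
  ne a := by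
    by_cases h : a.1 ∈ X ∧ (S.g a).1 ∈ X
    · simpa [h] using S.ne a
    · simp [h]
  memF a := by
    by_cases h : a.1 ∈ X ∧ (S.g a).1 ∈ X
    · simp only [h, and_self, if_true, ne_eq, mem_inter, and_true]
      exact S.memF a
    · simp [h]
  earF a ha := by
    simp only [mem_filter] at ha
    simp [S.earF a ha.1, ha.2]
  earFree a ha := by
    simp only [mem_filter] at ha
    by_cases h : a.1 ∈ X ∧ (S.g a).1 ∈ X
    · simp [h, S.earFree a ha.1]
    · simp [h]

/-- cut the glued side `a` -/
def cut (S : Obj I) (a : Sd I) : Obj I where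
  F := S.F
  g b := if b = a ∨ b = S.g a then b else S.g b
  E := S.E
  invol b := by
    by_cases h : b = a ∨ b = S.g a
    · simp [h]
    · have h2 : ¬ (S.g b = a ∨ S.g b = S.g a) := by
        rintro (h1 | h1)
        · exact h (Or.inr (by rw [← h1, S.invol]))
        · exact h (Or.inl (by rw [← S.invol b, h1, S.invol]))
      simp [h, h2, S.invol]
  ne b := by
    by_cases h : b = a ∨ b = S.g a
    · simp [h]
    · simpa [h] using S.ne b
  memF b := by
    by_cases h : b = a ∨ b = S.g a
    · simp [h]
    · simpa [h] using S.memF b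
  earF := S.earF
  earFree b hb := by
    by_cases h : b = a ∨ b = S.g a
    · simp [h]
    · simpa [h] using S.earFree b hb

/-- change the set of ears -/
def setE (S : Obj I) (E' : Finset (Sd I)) (h : ∀ a ∈ E', a.1 ∈ S.F ∧ S.g a = a) : Obj I where
  F := S.F
  g := S.g
  E := E'
  invol := S.invol
  ne := S.ne
  memF := S.memF
  earF a ha := (h a ha).1
  earFree a ha := (h a ha).2

/-- the corner `c` is hit by the set `C` of corners: `C` contains an equivalent corner -/
def Hit (S : Obj I) (C : Finset (Sd I)) (c : Sd I) : Prop := ∃ d ∈ C, S.Eqv d c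

end Obj

/-- the closed triangle with name `t` (for counterclockwise corners) -/
def tri (pt : Sd I → Pt) (t : I) : Set Pt := ctri (pt (t, 0)) (pt (t, 1)) (pt (t, 2))

/-- all points of `t` are seen inside `R` from the points of the corners in `C` -/
def Cov (pt : Sd I → Pt) (R : Set Pt) (C : Finset (Sd I)) (t : I) : Prop :=
  ∀ p ∈ tri pt t, ∃ c ∈ C, segment ℝ (pt c) p ⊆ R

variable [DecidableEq I]

/-- `C` is a solution of `(S,W)` -/
structure Sol (S : Obj I) (pt : Sd I → Pt) (R : Set Pt) (W C : Finset (Sd I)) : Prop where
  sub : C ⊆ S.sides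
  forced : ∀ w ∈ W, S.Hit C w
  ear : ∀ a ∈ S.E, S.Hit C a ∨ S.Hit C (rot a)
  dom : ∀ t, S.Noncore t → ∃ i, S.Hit C (t, i)
  cov : ∀ t ∈ S.F, Cov pt R C t

/-- statement P for the connected object `S` with forced corners `W ⊆ S.sides` (repetitions of a
visit in `W` only make the statement weaker); `6 |C| ≤ 2 N` says `|C| ≤ ⌊N/3⌋` -/
def P (S : Obj I) (pt : Sd I → Pt) (R : Set Pt) (W : Finset (Sd I)) : Prop :=
  ∃ C, Sol S pt R W C ∧ 6 * C.card ≤ S.N2 W.card

end AG
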