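import Pool.Agent.AG.Plane

/-!
# Project AG (MP_586e8d), block GEO-B: extreme points (7.6), plane part

Proofs.  `lex_min`: `V` finite and nonempty, `n, d` vectors which are linearly independent.  Choose
`p ∈ V` minimizing `n·p`, and among these minimizing `d·p` (`Finset.exists_min_image` twice, or
`exists_min_image` for a lexicographic order).  For every other `q ∈ V` either `n·(q-p) > 0`, or
`n·(q-p) = 0` and `d·(q-p) > 0` (`= 0` in both would give `q = p`), so for small `ε > 0`
`(n + ε d)·(q-p) > 0`; `V` is finite, so one `ε` works (`Filter.eventually_all_finset` in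
`nhdsWithin 0 (Set.Ioi 0)`, then `.exists`).

`three_exposed`: `V` contains a ccw triangle.  `p1` from `lex_min` with `n = (1,0), d = (0,1)`,
`p2` with `n = (-1,0), d = (0,-1)`.  `p1 ≠ p2` (otherwise `V` would be one point).  Some point `q`
of `V` is not on the line `p1 p2`; take `n` = the normal of `p1p2` with `n·(q - p1) < 0` and any
independent `d`: `p3` has `n·p3 ≤ n·q < n·p1 = n·p2`, so it is different from both.

-/

set_option linter.unusedSectionVars false
set_option linter.unusedSimpArgs false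

namespace AG

open Finset

/-- scalar product -/
def dot (u v : Pt) : ℝ := u.1 * v.1 + u.2 * v.2

/-- `p` is the strict minimum of the linear function `u` on `V` -/
def Exposed (V : Finset Pt) (p u : Pt) : Prop := p ∈ V ∧ ∀ q ∈ V, q ≠ p → 0 < dot u (q - p)

theorem dot_add_smul (n d w : Pt) (e : ℝ) :
    dot (n.1 + e * d.1, n.2 + e * d.2) w = dot n w + e * dot d w := by
  unfold dot; ring

theorem dot_sub (n q p : Pt) : dot n (q - p) = dot n q - dot n p := by
  unfold dot; simp only [Prod.fst_sub, Prod.snd_sub]; ring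

/-- lexicographic minimum -/
theorem lex_min {V : Finset Pt} (hV : V.Nonempty) {n d : Pt} (h : n.1 * d.2 - n.2 * d.1 ≠ 0) :
    ∃ p u, Exposed V p u ∧ ∀ q ∈ V, dot n p ≤ dot n q := by
  obtain ⟨p1, hp1, hmin1⟩ := V.exists_min_image (fun q => dot n q) hV
  have hne : (V.filter (fun q => dot n q = dot n p1)).Nonempty :=
    ⟨p1, Finset.mem_filter.2 ⟨hp1, rfl⟩⟩
  obtain ⟨p, hp, hmin2⟩ :=
    (V.filter (fun q => dot n q = dot n p1)).exists_min_image (fun q => dot d q) hne
  rw [Finset.mem_filter] at hp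
  have hall : ∀ q ∈ V, ∀ᶠ e in nhdsWithin (0 : ℝ) (Set.Ioi 0),
      q ≠ p → 0 < dot (n.1 + e * d.1, n.2 + e * d.2) (q - p) := by
    intro q hq
    by_cases hqp : q = p
    · exact Filter.Eventually.of_forall fun e h0 => absurd hqp h0
    have h1 : dot n p ≤ dot n q := by rw [hp.2]; exact hmin1 q hq
    rcases h1.lt_or_eq with h2 | h2
    · have hc : Continuous fun e : ℝ => dot n (q - p) + e * dot d (q - p) := by fun_prop
      have h0 : 0 < dot n (q - p) + 0 * dot d (q - p) := by rw [dot_sub]; linarith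
      have := (hc.tendsto 0).eventually (lt_mem_nhds h0)
      refine (this.filter_mono nhdsWithin_le_nhds).mono fun e he _ => ?_
      rw [dot_add_smul]; exact he
    · have h3 : dot d p ≤ dot d q :=
        hmin2 q (Finset.mem_filter.2 ⟨hq, by rw [← h2, hp.2]⟩)
      have h4 : dot d p ≠ dot d q := by
        intro h5
        apply hqp
        have e1 : n.1 * (q.1 - p.1) + n.2 * (q.2 - p.2) = 0 := by
          unfold dot at h2; linarith
        have e2 : d.1 * (q.1 - p.1) + d.2 * (q.2 - p.2) = 0 := by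
          unfold dot at h5; linarith
        have e3 : (n.1 * d.2 - n.2 * d.1) * (q.1 - p.1) = 0 := by
          linear_combination d.2 * e1 - n.2 * e2
        have e4 : (n.1 * d.2 - n.2 * d.1) * (q.2 - p.2) = 0 := by
          linear_combination n.1 * e2 - d.1 * e1
        have e5 := (mul_eq_zero.1 e3).resolve_left h
        have e6 := (mul_eq_zero.1 e4).resolve_left h
        exact Prod.ext (by linarith) (by linarith)
      have h5 : dot d p < dot d q := lt_of_le_of_ne h3 h4
      filter_upwards [self_mem_nhdsWithin] with e he _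
      have he' : (0 : ℝ) < e := he
      rw [dot_add_smul, dot_sub n, dot_sub d, h2]
      have : 0 < e * (dot d q - dot d p) := mul_pos he' (by linarith)
      linarith
  have hall2 : ∀ᶠ e in nhdsWithin (0 : ℝ) (Set.Ioi 0), ∀ q ∈ V,
      q ≠ p → 0 < dot (n.1 + e * d.1, n.2 + e * d.2) (q - p) :=
    (Filter.eventually_all_finset V).2 hall
  obtain ⟨e, he⟩ := hall2.exists
  exact ⟨p, (n.1 + e * d.1, n.2 + e * d.2), ⟨hp.1, he⟩, fun q hq => by rw [hp.2]; exact hmin1 q hq⟩

private theorem cr_zero_of {a b c p r : Pt} (hpr : p ≠ r) (ha : cr p r a = 0) (hb : cr p r b = 0)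
    (hc : cr p r c = 0) : cr a b c = 0 := by
  unfold cr at *
  have h1 : (r.1 - p.1) * ((b.1 - a.1) * (c.2 - a.2) - (b.2 - a.2) * (c.1 - a.1)) = 0 := by
    linear_combination (b.1 - a.1) * (hc - ha) - (c.1 - a.1) * (hb - ha)
  have h2 : (r.2 - p.2) * ((b.1 - a.1) * (c.2 - a.2) - (b.2 - a.2) * (c.1 - a.1)) = 0 := by
    linear_combination (b.2 - a.2) * (hc - ha) - (c.2 - a.2) * (hb - ha)
  rcases mul_eq_zero.1 h1 with h3 | h3
  · rcases mul_eq_zero.1 h2 with h4 | h4
    · exact absurd (Prod.ext (by linarith) (by linarith)) hpr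
    · exact h4
  · exact h3

/-- three different exposed points -/
theorem three_exposed {V : Finset Pt} {a b c : Pt} (ha : a ∈ V) (hb : b ∈ V) (hc : c ∈ V)
    (h : Ccw a b c) : ∃ p1 p2 p3 u1 u2 u3, Exposed V p1 u1 ∧ Exposed V p2 u2 ∧ Exposed V p3 u3 ∧
      p1 ≠ p2 ∧ p1 ≠ p3 ∧ p2 ≠ p3 := by
  obtain ⟨p1, u1, hp1, hm1⟩ := lex_min (V := V) ⟨a, ha⟩ (n := ((1 : ℝ), (0 : ℝ)))
    (d := ((0 : ℝ), (1 : ℝ))) (by norm_num)
  obtain ⟨p2, u2, hp2, hm2⟩ := lex_min (V := V) ⟨a, ha⟩ (n := ((-1 : ℝ), (0 : ℝ)))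
    (d := ((0 : ℝ), (-1 : ℝ))) (by norm_num)
  have h12 : p1 ≠ p2 := by
    rintro rfl
    have key : ∀ q ∈ V, q.1 = p1.1 := by
      intro q hq
      have h1 := hm1 q hq
      have h2 := hm2 q hq
      unfold dot at h1 h2
      simp only [one_mul, zero_mul, add_zero, neg_mul] at h1 h2
      linarith
    have ea := key a ha
    have eb := key b hb
    have ec := key c hc
    unfold Ccw cr at h
    rw [ea, eb, ec] at h
    simp at h
  have hq : ∃ q ∈ V, cr p1 p2 q ≠ 0 := by
    by_contra hcon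
    push Not at hcon
    have := cr_zero_of h12 (hcon a ha) (hcon b hb) (hcon c hc)
    unfold Ccw at h
    rw [this] at h
    exact lt_irrefl _ h
  obtain ⟨q, hqV, hq⟩ := hq
  have hpos : 0 < (p2.1 - p1.1) ^ 2 + (p2.2 - p1.2) ^ 2 := by
    by_contra hcon
    have h1 : (p2.1 - p1.1) ^ 2 = 0 := by nlinarith [sq_nonneg (p2.1 - p1.1), sq_nonneg (p2.2 - p1.2)]
    have h2 : (p2.2 - p1.2) ^ 2 = 0 := by nlinarith [sq_nonneg (p2.1 - p1.1), sq_nonneg (p2.2 - p1.2)]
    have h3 := pow_eq_zero_iff (two_ne_zero) |>.1 h1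
    have h4 := pow_eq_zero_iff (two_ne_zero) |>.1 h2
    exact h12 (Prod.ext (by linarith) (by linarith))
  -- the two signs of the normal
  have main : ∀ s : ℝ, s ≠ 0 → s * cr p1 p2 q < 0 → ∃ p3 u3, Exposed V p3 u3 ∧ p1 ≠ p3 ∧ p2 ≠ p3 := by
    intro s hs hneg
    obtain ⟨p3, u3, hp3, hm3⟩ := lex_min (V := V) ⟨a, ha⟩
      (n := (-(s * (p2.2 - p1.2)), s * (p2.1 - p1.1))) (d := (p2.1 - p1.1, p2.2 - p1.2)) (by
        have : -(s * (p2.2 - p1.2)) * (p2.2 - p1.2) - s * (p2.1 - p1.1) * (p2.1 - p1.1)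
            = -(s * ((p2.1 - p1.1) ^ 2 + (p2.2 - p1.2) ^ 2)) := by ring
        simp only
        rw [this]
        exact neg_ne_zero.2 (mul_ne_zero hs hpos.ne'))
    refine ⟨p3, u3, hp3, ?_, ?_⟩
    · rintro rfl
      have := hm3 q hqV
      unfold dot at this
      unfold cr at hneg
      simp only at this
      nlinarith
    · rintro rfl
      have := hm3 q hqV
      unfold dot at this
      unfold cr at hneg
      simp only at this
      nlinarith
  rcases lt_or_gt_of_ne hq with h0 | h0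
  · obtain ⟨p3, u3, hp3, h13, h23⟩ := main 1 one_ne_zero (by linarith)
    exact ⟨p1, p2, p3, u1, u2, u3, hp1, hp2, hp3, h12, h13, h23⟩
  · obtain ⟨p3, u3, hp3, h13, h23⟩ := main (-1) (by norm_num) (by linarith)
    exact ⟨p1, p2, p3, u1, u2, u3, hp1, hp2, hp3, h12, h13, h23⟩

/-- transitivity in an open half plane -/
theorem ccw_trans_of_dot {p u a b c : Pt} (ha : 0 < dot u (a - p)) (hb : 0 < dot u (b - p))
    (hc : 0 < dot u (c - p)) (h1 : Ccw p a b) (h2 : Ccw p b c) : Ccw p a c := by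
  unfold Ccw at *
  have key : cr p a c * dot u (b - p) = cr p a b * dot u (c - p) + cr p b c * dot u (a - p) := by
    unfold cr dot
    simp only [Prod.fst_sub, Prod.snd_sub]
    ring
  have h3 : 0 < cr p a c * dot u (b - p) := by
    rw [key]; positivity
  exact (pos_iff_pos_of_mul_pos h3).2 hb

end AG
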