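import Pool.Agent.AG.Basic

/-!
# Project AG: positions in the fan of a visit   (helper86)

`S.ps a` is the number of clockwise steps from the corner `a` to the end of its fan.  The corners
of one visit have the positions `0, 1, …, m`.  A glued side `a` (it starts at the vertex of the
corner `a`) lies between the triangles at the positions `ps a - 1` (the triangle `(S.g a).1`) and
`ps a` (the triangle `a.1`).  So the glued sides at a visit `v` are listed by the glued corners of
`v`, with the numbers `ps a = 1, …, m` (this is `f_i` of the text).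
-/

set_option linter.unusedSectionVars false
set_option linter.unusedSimpArgs false

namespace AG

open Finset

variable {I : Type} [DecidableEq I]

namespace Obj

open Classical in
/-- position of a corner in its fan: the number of clockwise steps to the end of the fan -/
noncomputable def ps (S : Obj I) (a : Sd I) : ℕ :=
  if h : ∃ n, S.g (S.cw^[n] a) = S.cw^[n] a then Nat.find h else 0

variable {S : Obj I}

theorem ps_of_unglued {a : Sd I} (h : S.g a = a) : S.ps a = 0 := by
  classical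
  have h0 : ∃ n, S.g (S.cw^[n] a) = S.cw^[n] a := ⟨0, h⟩
  rw [ps, dif_pos h0]
  exact (Nat.find_eq_zero h0).2 h

theorem cw_of_glued {a : Sd I} (h : S.g a ≠ a) : S.cw a = rot (S.g a) := by simp [cw, h]

theorem cw_fst {a : Sd I} (h : S.g a ≠ a) : (S.cw a).1 = (S.g a).1 := by simp [cw_of_glued h]

theorem ccw_of_glued {a : Sd I} (h : S.g (unrot a) ≠ unrot a) : S.ccw a = S.g (unrot a) := by
  simp [ccw, h]

/-- the counterclockwise neighbour of a corner is glued along its own side -/
theorem g_ccw {a : Sd I} (h : S.g (unrot a) ≠ unrot a) : S.g (S.ccw a) = unrot a := by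
  rw [ccw_of_glued h, S.invol]

theorem ccw_glued {a : Sd I} (h : S.g (unrot a) ≠ unrot a) : S.g (S.ccw a) ≠ S.ccw a := by
  rw [ccw_of_glued h, S.invol]
  exact h.symm

theorem cw_ccw {a : Sd I} (h : S.g (unrot a) ≠ unrot a) : S.cw (S.ccw a) = a := by
  rw [cw_of_glued (ccw_glued h), g_ccw h, rot_unrot]

theorem ccw_cw {a : Sd I} (h : S.g a ≠ a) : S.ccw (S.cw a) = a := by
  have h1 : S.cw a = rot (S.g a) := cw_of_glued h
  have h2 : S.g (unrot (S.cw a)) ≠ unrot (S.cw a) := by
    rw [h1, unrot_rot, S.invol]; exact h.symm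
  rw [ccw_of_glued h2, h1, unrot_rot, S.invol]

theorem unrot_cw_glued {a : Sd I} (h : S.g a ≠ a) :
    S.g (unrot (S.cw a)) ≠ unrot (S.cw a) := by
  rw [cw_of_glued h, unrot_rot, S.invol]; exact h.symm

theorem ccw_eqv {a : Sd I} (h : S.g (unrot a) ≠ unrot a) : S.Eqv a (S.ccw a) := by
  have := S.cw_eqv (S.ccw a)
  rw [cw_ccw h] at this
  exact this.symm

theorem ps_of_glued (hl : S.Linear) {a : Sd I} (h : S.g a ≠ a) :
    S.ps a = S.ps (S.cw a) + 1 := by
  classical
  have h0 : ∃ n, S.g (S.cw^[n] a) = S.cw^[n] a := hl a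
  have h1 : ∃ n, S.g (S.cw^[n] (S.cw a)) = S.cw^[n] (S.cw a) := hl _
  rw [ps, dif_pos h0, ps, dif_pos h1]
  have h2 : ∃ n, S.g (S.cw^[n + 1] a) = S.cw^[n + 1] a := by
    obtain ⟨n, hn⟩ := h1
    exact ⟨n, by rw [Function.iterate_succ_apply]; exact hn⟩
  rw [Nat.find_comp_succ h0 h2 (by simpa using h)]
  rfl

theorem ps_eq_zero_iff (hl : S.Linear) {a : Sd I} : S.ps a = 0 ↔ S.g a = a := by
  constructor
  · intro h
    by_contra h1
    rw [ps_of_glued hl h1] at h
    omega
  · exact ps_of_unglued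

theorem ps_pos_iff (hl : S.Linear) {a : Sd I} : 0 < S.ps a ↔ S.g a ≠ a := by
  rw [Nat.pos_iff_ne_zero, ne_eq, ps_eq_zero_iff hl]

theorem ps_ccw (hl : S.Linear) {a : Sd I} (h : S.g (unrot a) ≠ unrot a) :
    S.ps (S.ccw a) = S.ps a + 1 := by
  rw [ps_of_glued hl (ccw_glued h), cw_ccw h]

theorem cw_inj {a b : Sd I} (ha : S.g a ≠ a) (hb : S.g b ≠ b) (h : S.cw a = S.cw b) : a = b := by
  rw [cw_of_glued ha, cw_of_glued hb] at h
  exact S.g_injective (rot_injective h)

/-- a corner is determined by its visit and its position -/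
theorem ps_inj (hl : S.Linear) {a b : Sd I} (h : S.Eqv a b) (hp : S.ps a = S.ps b) : a = b := by
  have key : ∀ n : ℕ, ∀ a b : Sd I, S.last a = S.last b → S.ps a = n → S.ps b = n → a = b := by
    intro n
    induction n with
    | zero =>
      intro a b h ha hb
      rw [ps_eq_zero_iff hl] at ha hb
      rwa [last_of_unglued ha, last_of_unglued hb] at h
    | succ n ih =>
      intro a b h ha hb
      have ha' : S.g a ≠ a := (ps_pos_iff hl).1 (by omega)
      have hb' : S.g b ≠ b := (ps_pos_iff hl).1 (by omega)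
      refine cw_inj ha' hb' (ih _ _ ?_ ?_ ?_)
      · rw [last_cw hl, last_cw hl, h]
      · have := ps_of_glued hl ha'; omega
      · have := ps_of_glued hl hb'; omega
  exact key _ a b ((eqv_iff hl).1 h) rfl hp.symm

/-- all positions below the position of `a` occur in the visit of `a` -/
theorem exists_ps (hl : S.Linear) {a : Sd I} {k : ℕ} (hk : k ≤ S.ps a) :
    ∃ b, S.Eqv a b ∧ S.ps b = k := by
  have key : ∀ n : ℕ, ∀ a : Sd I, S.ps a = n → k ≤ n → ∃ b, S.Eqv a b ∧ S.ps b = k := by
    intro n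
    induction n with
    | zero => intro a ha hk; exact ⟨a, Eqv.refl S a, by omega⟩
    | succ n ih =>
      intro a ha hk
      rcases Nat.lt_or_ge n k with h1 | h1
      · exact ⟨a, Eqv.refl S a, by omega⟩
      · have ha' : S.g a ≠ a := (ps_pos_iff hl).1 (by omega)
        have h2 := ps_of_glued hl ha'
        obtain ⟨b, hb, hb'⟩ := ih (S.cw a) (by omega) h1
        exact ⟨b, (S.cw_eqv a).trans hb, hb'⟩
  exact key _ a rfl hk

/-- a corner which is not the first one counterclockwise ... the corner with position one more is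
the counterclockwise neighbour -/
theorem ccw_of_ps (hl : S.Linear) {a b : Sd I} (h : S.Eqv a b) (hp : S.ps b = S.ps a + 1) :
    S.cw b = a ∧ S.g b ≠ b ∧ S.g (unrot a) ≠ unrot a ∧ S.ccw a = b := by
  have hb : S.g b ≠ b := (ps_pos_iff hl).1 (by omega)
  have h1 := ps_of_glued hl hb
  have h2 : S.cw b = a :=
    ps_inj hl (((S.cw_eqv b).symm.trans h.symm)) (by omega)
  refine ⟨h2, hb, ?_, ?_⟩
  · rw [← h2]; exact unrot_cw_glued hb
  · rw [← h2]; exact ccw_cw hb

/-- the side `unrot a` of a corner is glued iff the position above occurs -/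
theorem unrot_glued_of_lt (hl : S.Linear) {a b : Sd I} (h : S.Eqv a b) (hp : S.ps a < S.ps b) :
    S.g (unrot a) ≠ unrot a := by
  obtain ⟨c, hc, hc'⟩ := exists_ps hl (show S.ps a + 1 ≤ S.ps b by omega)
  exact (ccw_of_ps hl (h.trans hc) hc').2.2.1

/-- CROSSING: if exactly one of the triangles at two positions of a visit is in `X`, then between
them the fan crosses the boundary of `X` -/
theorem exists_cross (hl : S.Linear) {a b : Sd I} (h : S.Eqv a b) (hp : S.ps a ≤ S.ps b)
    {X : Finset I} (hX : ¬ (a.1 ∈ X ↔ b.1 ∈ X)) :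
    ∃ c, S.Eqv a c ∧ S.g c ≠ c ∧ S.ps a < S.ps c ∧ S.ps c ≤ S.ps b ∧
      ¬ (c.1 ∈ X ↔ (S.g c).1 ∈ X) ∧ (c.1 ∈ X ↔ b.1 ∈ X) := by
  have key : ∀ n : ℕ, ∀ b : Sd I, S.ps b = n → S.Eqv a b → S.ps a ≤ n → ¬ (a.1 ∈ X ↔ b.1 ∈ X) →
      ∃ c, S.Eqv a c ∧ S.g c ≠ c ∧ S.ps a < S.ps c ∧ S.ps c ≤ n ∧
      ¬ (c.1 ∈ X ↔ (S.g c).1 ∈ X) ∧ (c.1 ∈ X ↔ b.1 ∈ X) := by
    intro n
    induction n with
    | zero =>
      intro b hb hab hle hX
      have : a = b := ps_inj hl hab (by omega)
      exact absurd (by rw [this]) hX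
    | succ n ih =>
      intro b hb hab hle hX
      rcases Nat.lt_or_ge n (S.ps a) with h1 | h1
      · have : a = b := ps_inj hl hab (by omega)
        exact absurd (by rw [this]) hX
      · have hb' : S.g b ≠ b := (ps_pos_iff hl).1 (by omega)
        have h2 := ps_of_glued hl hb'
        by_cases h3 : b.1 ∈ X ↔ (S.g b).1 ∈ X
        · have h4 : (S.cw b).1 = (S.g b).1 := cw_fst hb'
          obtain ⟨c, c1, c2, c3, c4, c5, c6⟩ := ih (S.cw b) (by omega) (hab.trans (S.cw_eqv b)) h1
            (by rw [h4, ← h3]; exact hX)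
          exact ⟨c, c1, c2, c3, by omega, c5, by rw [c6, h4, ← h3]⟩
        · exact ⟨b, hab, hb', by omega, by omega, h3, Iff.rfl⟩
  exact key _ b rfl h hp hX

/-- a glued side with exactly one triangle in `X` is a boundary side (in one of the two
directions) -/
theorem mem_bd_or {X : Finset I} {c : Sd I} (h : S.g c ≠ c) (hX : ¬ (c.1 ∈ X ↔ (S.g c).1 ∈ X)) :
    c ∈ S.bd X ∨ S.g c ∈ S.bd X := by
  by_cases h1 : c.1 ∈ X
  · left; rw [mem_bd]; exact ⟨h, h1, fun h2 => hX ⟨fun _ => h2, fun _ => h1⟩⟩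
  · right; rw [mem_bd]
    refine ⟨g_ne_iff.2 h, ?_, by rw [S.invol]; exact h1⟩
    by_contra h2
    exact hX ⟨fun h3 => absurd h3 h1, fun h3 => absurd h3 h2⟩

/-- the corners at the two ends of a fan: there is a last corner in the counterclockwise
direction -/
theorem exists_top (hl : S.Linear) {a : Sd I} (ha : a.1 ∈ S.F) :
    ∃ b, S.Eqv a b ∧ S.g (unrot b) = unrot b ∧ ∀ c, S.Eqv a c → S.ps c ≤ S.ps b := by
  classical
  let T := S.sides.filter (fun c => S.Eqv a c)
  have hT : T.Nonempty := ⟨a, by simp [T, mem_sides, ha, Eqv.refl]⟩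
  obtain ⟨b, hb, hmax⟩ := T.exists_max_image S.ps hT
  simp only [T, mem_filter, mem_sides] at hb hmax
  refine ⟨b, hb.2, ?_, fun c hc => ?_⟩
  · by_contra h
    have h1 := ps_ccw hl h
    have h2 : (S.ccw b).1 ∈ S.F := by rw [ccw_of_glued h]; exact g_memF h
    have := hmax (S.ccw b) ⟨h2, hb.2.trans (ccw_eqv h)⟩
    omega
  · by_cases hc' : c.1 ∈ S.F
    · exact hmax c ⟨hc', hc⟩
    · have h0 : S.g c = c := by
        by_contra h; exact hc' (S.memF c h)
      rw [ps_of_unglued h0]; exact Nat.zero_le _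

end Obj

end AG
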