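import Pool.Agent.AG.Geo

/-!
# Project AG (MP_586e8d), block GEO-B: the flip of a `U` diagonal of a geometric object

TASK: prove the `sorry`s (in this order; the first lemmas are the pieces of the last one).

Notation: `b = S.g a`, `x = pt a`, `y = pt (rot a) = pt b`, `w1 = pt (unrot a)`,
`w2 = pt (unrot b)`, `pt (rot b) = x`.  The hypotheses of the quadrilateral are `hG.uq`.
After the flip the triangle `a.1` is `(x,w2,w1)` and `b.1` is `(y,w1,w2)` (see Flip.lean); the
geometry is in Quad.lean: `UQ.disj_flip`, `UQ.disj_new`, `UQ.union_flip`, the angles are additive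
by `ang_add_of_ccw` of Plane.lean.

`geo_flip`, field `asum`: for every point `p` the sum over all corners at `p` does not change.
Write the sum over `S.sides = S.F ×ˢ univ` as a sum over `t ∈ S.F` of
`∑ i, if pt (t,i) = p then cang (t,i) else 0` (`Finset.sum_filter`, `Finset.sum_product`), the
terms with `t ≠ a.1, b.1` are equal, and for `a.1`, `b.1` write the three corners as
`a, rot a, unrot a` (lemma `sum_three` below) and use the six angle lemmas.
Field `mat`: for `c` with `(S.flip a h).g c ≠ c` put `d = sigB a b c` (so `c = sigF a b d` and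
`S.g d ≠ d`) and distinguish `d = a`, `d = b` (the new diagonal), otherwise `d` and `S.g d` are both
different from `a, b`, and `flipPt (sigF d) = pt d`, `flipPt (rot (sigF d)) = pt (rot d)` for every
`d ≠ a, b` (lemmas `flipPt_sigF`, `flipPt_rot_sigF`).
-/

set_option linter.unusedSectionVars false
set_option linter.unusedSimpArgs false

namespace AG

open Finset

variable {I : Type} [DecidableEq I]

/-- a sum over the three corners of a triangle, starting at any corner -/
theorem sum_three (f : Sd I → ℝ) (a : Sd I) :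
    ∑ i : Fin 3, f (a.1, i) = f a + f (rot a) + f (unrot a) := by
  rcases a with ⟨t, i⟩
  have h1 : ∀ i : Fin 3, ∑ j : Fin 3, f (t, j) = f (t, i) + f (t, i + 1) + f (t, i + 2) := by
    intro i
    rw [Fin.sum_univ_three]
    fin_cases i
    · rfl
    · show f (t, 0) + f (t, 1) + f (t, 2) = f (t, 1) + f (t, 2) + f (t, 0)
      ring
    · show f (t, 0) + f (t, 1) + f (t, 2) = f (t, 2) + f (t, 0) + f (t, 1)
      ring
  exact h1 i

section
variable {pt : Sd I → Pt} {a b : Sd I}

/-- start point of an old side under its new name (`d ≠ a, b`) -/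
theorem flipPt_sigF (h : b.1 ≠ a.1) (h1 : pt b = pt (rot a)) (h2 : pt (rot b) = pt a) {d : Sd I}
    (hda : d ≠ a) (hdb : d ≠ b) : flipPt pt a b (sigF a b d) = pt d := by
  by_cases k1 : d = rot a
  · subst k1
    rw [sigF_ra, flipPt_b h, h1]
  by_cases k2 : d = rot b
  · subst k2
    rw [sigF_rb h, flipPt_a h, h2]
  rw [sigF_other hda k1 hdb k2, flipPt_other k1 k2]

/-- end point of an old side under its new name (`d ≠ a, b`) -/
theorem flipPt_rot_sigF (h : b.1 ≠ a.1) (h1 : pt b = pt (rot a)) (h2 : pt (rot b) = pt a)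
    {d : Sd I} (hda : d ≠ a) (hdb : d ≠ b) :
    flipPt pt a b (rot (sigF a b d)) = pt (rot d) := by
  by_cases k1 : d = rot a
  · subst k1
    rw [sigF_ra, flipPt_rb h, rot_rot]
  by_cases k2 : d = rot b
  · subst k2
    rw [sigF_rb h, flipPt_ra, rot_rot]
  rw [sigF_other hda k1 hdb k2, flipPt_other (fun e => hda (rot_injective e))
    (fun e => hdb (rot_injective e))]

end

private theorem ccw0_of_ccw {pt : Sd I → Pt} {a : Sd I}
    (h : Ccw (pt a) (pt (rot a)) (pt (unrot a))) :
    Ccw (pt (a.1, 0)) (pt (a.1, 1)) (pt (a.1, 2)) := by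
  rcases a with ⟨t, i⟩
  fin_cases i
  · exact h
  · exact h.rot'
  · exact h.rot

namespace Geo

variable {S : Obj I} {pt : Sd I → Pt} (hG : Geo S pt)
include hG

/-- the quadrilateral of a `U` diagonal -/
theorem uq {a : Sd I} (hU : IsU S pt a) :
    UQ (pt a) (pt (rot a)) (pt (unrot a)) (pt (unrot (S.g a))) := by
  have h1 := hG.ccw (S.memF a hU.glued)
  have h2 := hG.ccw (Obj.g_memF hU.glued)
  have m1 := hG.mat' hU.glued
  have m2 := hG.mat a hU.glued
  rw [m1, m2] at h2
  have s1 := hU.start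
  have s2 := hU.stop
  unfold cang at s1 s2
  rw [m2, rot_rot, unrot_rot, m1] at s1
  rw [m1, m2, rot_rot, unrot_rot] at s2
  refine UQ.of_ang h1 h2 ?_ ?_
  · rw [add_comm]; exact s1
  · rw [add_comm]; exact s2

/-- angles after the flip: `a` -/
theorem cang_flip_a {a : Sd I} (hU : IsU S pt a) :
    cang (flipPt pt a (S.g a)) a = cang pt a + cang pt (rot (S.g a)) := by
  have hq := hG.uq hU
  have hba := S.ne a hU.glued
  have m1 := hG.mat' hU.glued
  have m2 := hG.mat a hU.glued
  unfold cang
  rw [flipPt_a hba, flipPt_ra, flipPt_ua hba, m2, rot_rot, unrot_rot, m1,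
    ang_add_of_ccw hq.t2.rot hq.t1 hq.ax]
  ring

theorem cang_flip_b {a : Sd I} (hU : IsU S pt a) :
    cang (flipPt pt a (S.g a)) (S.g a) = cang pt (S.g a) + cang pt (rot a) := by
  have hq := hG.uq hU
  have hba := S.ne a hU.glued
  have m1 := hG.mat' hU.glued
  have m2 := hG.mat a hU.glued
  unfold cang
  rw [flipPt_b hba, flipPt_rb hba, flipPt_ub hba, m1, m2, rot_rot, unrot_rot,
    ang_add_of_ccw hq.t1.rot hq.t2 hq.ay]
  ring

theorem cang_flip_w1 {a : Sd I} (hU : IsU S pt a) :
    cang (flipPt pt a (S.g a)) (unrot a) + cang (flipPt pt a (S.g a)) (rot (S.g a))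
      = cang pt (unrot a) := by
  have hq := hG.uq hU
  have hba := S.ne a hU.glued
  have m1 := hG.mat' hU.glued
  have m2 := hG.mat a hU.glued
  unfold cang
  rw [rot_unrot, unrot_unrot, rot_rot, unrot_rot, flipPt_ua hba, flipPt_a hba, flipPt_ra,
    flipPt_rb hba, flipPt_ub hba, flipPt_b hba, m1]
  exact (ang_add_of_ccw hq.ax.rot' hq.ay.rot hq.t1.rot').symm

theorem cang_flip_w2 {a : Sd I} (hU : IsU S pt a) :
    cang (flipPt pt a (S.g a)) (unrot (S.g a)) + cang (flipPt pt a (S.g a)) (rot a)
      = cang pt (unrot (S.g a)) := by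
  have hq := hG.uq hU
  have hba := S.ne a hU.glued
  have m1 := hG.mat' hU.glued
  have m2 := hG.mat a hU.glued
  unfold cang
  rw [rot_unrot, unrot_unrot, rot_rot, unrot_rot, flipPt_ub hba, flipPt_b hba, flipPt_rb hba,
    flipPt_ra, flipPt_ua hba, flipPt_a hba, m1, m2]
  exact (ang_add_of_ccw hq.ay.rot' hq.ax.rot hq.t2.rot').symm

omit hG in
theorem cang_flip_other {a b c : Sd I} (h1 : c.1 ≠ a.1) (h2 : c.1 ≠ b.1) :
    cang (flipPt pt a b) c = cang pt c := by
  unfold cang
  rw [flipPt_of_fst h1 h2, flipPt_of_fst (c := rot c) h1 h2, flipPt_of_fst (c := unrot c) h1 h2]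

/-- THE FLIP OF A `U` DIAGONAL IS A GEOMETRIC OBJECT -/
theorem geo_flip {a : Sd I} (hU : IsU S pt a) (hf : S.Flippable a) :
    Geo (S.flip a hf) (flipPt pt a (S.g a)) := by
  have hq := hG.uq hU
  have hba := S.ne a hU.glued
  have m1 := hG.mat' hU.glued
  have m2 := hG.mat a hU.glued
  have ha := S.memF a hU.glued
  have hb := Obj.g_memF hU.glued
  have ea : ctr (flipPt pt a (S.g a)) a = otri (pt a) (pt (unrot (S.g a))) (pt (unrot a)) := by
    unfold ctr
    rw [flipPt_a hba, flipPt_ra, flipPt_ua hba]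
  have eb : ctr (flipPt pt a (S.g a)) (S.g a) =
      otri (pt (rot a)) (pt (unrot a)) (pt (unrot (S.g a))) := by
    unfold ctr
    rw [flipPt_b hba, flipPt_rb hba, flipPt_ub hba, m1]
  have oa : ctr pt a = otri (pt a) (pt (rot a)) (pt (unrot a)) := rfl
  have ob : ctr pt (S.g a) = otri (pt (rot a)) (pt a) (pt (unrot (S.g a))) := by
    unfold ctr
    rw [m1, m2]
  have hother : ∀ t : I, t ≠ a.1 → t ≠ (S.g a).1 → ∀ i : Fin 3,
      flipPt pt a (S.g a) (t, i) = pt (t, i) := fun t h1 h2 i => flipPt_of_fst h1 h2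
  -- an open triangle of another name is disjoint from the two new triangles
  have hdis : ∀ t ∈ S.F, t ≠ a.1 → t ≠ (S.g a).1 →
      Disjoint (ctr (flipPt pt a (S.g a)) a) (otri (pt (t, 0)) (pt (t, 1)) (pt (t, 2))) ∧
      Disjoint (ctr (flipPt pt a (S.g a)) (S.g a))
        (otri (pt (t, 0)) (pt (t, 1)) (pt (t, 2))) := by
    intro t ht h1 h2
    rw [ea, eb]
    refine hq.disj_flip (isOpen_otri _ _ _) ?_ ?_
    · rw [← oa, ctr_eq0]
      exact hG.disj0 _ ha _ ht (Ne.symm h1)
    · rw [← ob, ctr_eq0]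
      exact hG.disj0 _ hb _ ht (Ne.symm h2)
  refine ⟨?_, ?_, ?_, ?_⟩
  · intro t ht
    by_cases h1 : t = a.1
    · subst h1
      apply ccw0_of_ccw
      rw [flipPt_a hba, flipPt_ra, flipPt_ua hba]
      exact hq.ax
    by_cases h2 : t = (S.g a).1
    · subst h2
      apply ccw0_of_ccw
      rw [flipPt_b hba, flipPt_rb hba, flipPt_ub hba, m1]
      exact hq.ay
    rw [hother t h1 h2, hother t h1 h2, hother t h1 h2]
    exact hG.ccw0 t ht
  · intro c hc
    obtain ⟨d, rfl⟩ : ∃ d, sigF a (S.g a) d = c := ⟨sigB a (S.g a) c, sigF_sigB hba c⟩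
    rw [Obj.flip_g_sig] at hc ⊢
    have hd : S.g d ≠ d := fun e => hc (by rw [e])
    by_cases h1 : d = a
    · subst h1
      rw [sigF_a, sigF_b hba, rot_rot, flipPt_ub hba, flipPt_ra]
    by_cases h2 : d = S.g a
    · subst h2
      rw [S.invol, sigF_a, sigF_b hba, rot_rot, flipPt_ua hba, flipPt_rb hba]
    have h3 : S.g d ≠ a := fun e => h2 (by rw [← e, S.invol])
    have h4 : S.g d ≠ S.g a := fun e => h1 (S.g_injective e)
    rw [flipPt_rot_sigF hba m1 m2 h3 h4, flipPt_sigF hba m1 m2 h1 h2]
    exact hG.mat d hd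
  · intro t ht t' ht' hne
    by_cases h1 : t = a.1
    · subst h1
      by_cases h2 : t' = (S.g a).1
      · subst h2
        rw [← ctr_eq0, ← ctr_eq0, ea, eb]
        exact hq.disj_new
      · rw [← ctr_eq0, hother t' hne.symm h2, hother t' hne.symm h2, hother t' hne.symm h2]
        exact (hdis t' ht' hne.symm h2).1
    by_cases h2 : t = (S.g a).1
    · subst h2
      by_cases h3 : t' = a.1
      · subst h3
        rw [← ctr_eq0, ← ctr_eq0, ea, eb]
        exact hq.disj_new.symm
      · rw [← ctr_eq0, hother t' h3 hne.symm, hother t' h3 hne.symm, hother t' h3 hne.symm]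
        exact (hdis t' ht' h3 hne.symm).2
    rw [hother t h1 h2, hother t h1 h2, hother t h1 h2]
    by_cases h3 : t' = a.1
    · subst h3
      rw [← ctr_eq0 (flipPt pt a (S.g a))]
      exact (hdis t ht h1 h2).1.symm
    by_cases h4 : t' = (S.g a).1
    · subst h4
      rw [← ctr_eq0 (flipPt pt a (S.g a))]
      exact (hdis t ht h1 h2).2.symm
    rw [hother t' h3 h4, hother t' h3 h4, hother t' h3 h4]
    exact hG.disj0 t ht t' ht' hne
  · intro p
    have h := hG.asum p
    rw [Finset.sum_filter] at h ⊢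
    refine lt_of_eq_of_lt ?_ h
    have hs : (S.flip a hf).sides = S.sides := rfl
    rw [hs]
    unfold Obj.sides
    rw [Finset.sum_product, Finset.sum_product, ← sub_eq_zero, ← Finset.sum_sub_distrib,
      ← Finset.sum_subset (s₁ := {a.1, (S.g a).1}) ?_ ?_, Finset.sum_pair (Ne.symm hba)]
    · rw [sum_three (fun c => if flipPt pt a (S.g a) c = p then cang (flipPt pt a (S.g a)) c else 0),
        sum_three (fun c => if flipPt pt a (S.g a) c = p then cang (flipPt pt a (S.g a)) c else 0),
        sum_three (fun c => if pt c = p then cang pt c else 0),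
        sum_three (fun c => if pt c = p then cang pt c else 0)]
      have c1 := hG.cang_flip_a hU
      have c2 := hG.cang_flip_b hU
      have c3 := hG.cang_flip_w1 hU
      have c4 := hG.cang_flip_w2 hU
      rw [flipPt_a hba, flipPt_ra, flipPt_ua hba, flipPt_b hba, flipPt_rb hba, flipPt_ub hba, m1,
        m2, c1, c2]
      by_cases k1 : pt a = p <;> by_cases k2 : pt (rot a) = p <;>
        by_cases k3 : pt (unrot a) = p <;> by_cases k4 : pt (unrot (S.g a)) = p <;>
        simp only [k1, k2, k3, k4, if_true, if_false] <;> linarith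
    · intro t ht
      rw [mem_insert, mem_singleton] at ht
      rcases ht with rfl | rfl
      · exact ha
      · exact hb
    · intro t _ hn
      rw [mem_insert, mem_singleton, not_or] at hn
      rw [sub_eq_zero]
      refine Finset.sum_congr rfl fun i _ => ?_
      rw [hother t hn.1 hn.2, cang_flip_other (c := (t, i)) hn.1 hn.2]

/-- the union of the two triangles is unchanged -/
theorem tri_flip {a : Sd I} (hU : IsU S pt a) :
    tri (flipPt pt a (S.g a)) a.1 ∪ tri (flipPt pt a (S.g a)) (S.g a).1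
      = tri pt a.1 ∪ tri pt (S.g a).1 := by
  have hq := hG.uq hU
  have hba := S.ne a hU.glued
  have m1 := hG.mat' hU.glued
  have m2 := hG.mat a hU.glued
  rw [tri_eq, tri_eq, tri_eq, tri_eq, flipPt_a hba, flipPt_ra, flipPt_ua hba, flipPt_b hba,
    flipPt_rb hba, flipPt_ub hba, m1, m2]
  exact hq.union_flip

omit hG in
/-- the other triangles are unchanged -/
theorem tri_flip_other {a b : Sd I} {t : I} (h1 : t ≠ a.1) (h2 : t ≠ b.1) :
    tri (flipPt pt a b) t = tri pt t := by
  unfold tri
  rw [flipPt_of_fst (c := (t, 0)) h1 h2, flipPt_of_fst (c := (t, 1)) h1 h2,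
    flipPt_of_fst (c := (t, 2)) h1 h2]

/-- the new diagonal is a `U` diagonal of the flipped object -/
theorem isU_flip {a : Sd I} (hU : IsU S pt a) (hf : S.Flippable a) :
    IsU (S.flip a hf) (flipPt pt a (S.g a)) (rot a) := by
  have hba := S.ne a hU.glued
  refine ⟨?_, ?_, ?_⟩
  · rw [Obj.flip_g_rot]
    exact ne_of_fst hba
  · rw [Obj.flip_g_rot, rot_rot, add_comm, hG.cang_flip_w2 hU]
    exact hG.cang_lt (a := unrot (S.g a)) (Obj.g_memF hU.glued)
  · rw [Obj.flip_g_rot, rot_rot, add_comm, hG.cang_flip_w1 hU]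
    exact hG.cang_lt (a := unrot a) (S.memF a hU.glued)

end Geo

end AG
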