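import Pool.Agent.AG.Geo

/-!
# Project AG (MP_586e8d), block GEO-B: the fans of a geometric object are linear
-/

set_option linter.unusedSectionVars false
set_option linter.unusedSimpArgs false

namespace AG

open Finset

/-- a cyclic sequence of directions around a point has total angle at least `2π` -/
theorem fan_sum {v : Pt} {d : ℕ → Pt} {m : ℕ} (hm : 0 < m)
    (h : ∀ k < m, Ccw v (d (k + 1)) (d k)) (hd : d m = d 0) :
    2 * Real.pi ≤ ∑ k ∈ range m, ang v (d (k + 1)) (d k) := by
  have hne : ∀ n, n ≤ m → toC (d n) - toC v ≠ 0 := by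
    intro n hn
    rcases Nat.lt_or_ge n m with h1 | h1
    · exact sub_toC_ne (h n h1).ne'.symm
    · have h2 : n = m := le_antisymm hn h1
      rw [h2, hd]
      exact sub_toC_ne (h 0 hm).ne'.symm
  have main : ∀ n, n ≤ m → ∃ j : ℤ, ∑ k ∈ range n, ang v (d (k + 1)) (d k) =
      Complex.arg ((toC (d 0) - toC v) / (toC (d n) - toC v)) + 2 * Real.pi * j := by
    intro n
    induction n with
    | zero =>
      intro _
      refine ⟨0, ?_⟩
      rw [div_self (hne 0 (Nat.zero_le m)), Complex.arg_one]
      simp
    | succ n ih =>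
      intro hn
      obtain ⟨j, hj⟩ := ih (by omega)
      have h0 := hne 0 (Nat.zero_le m)
      have h1 := hne n (by omega)
      have h2 := hne (n + 1) hn
      obtain ⟨k, hk⟩ := ang_coe_mul (div_ne_zero h0 h1) (div_ne_zero h1 h2)
      have e : (toC (d 0) - toC v) / (toC (d n) - toC v) *
          ((toC (d n) - toC v) / (toC (d (n + 1)) - toC v)) =
          (toC (d 0) - toC v) / (toC (d (n + 1)) - toC v) := by
        field_simp
      rw [e] at hk
      refine ⟨j - k, ?_⟩
      rw [Finset.sum_range_succ, hj]
      push_cast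
      unfold ang
      linarith
  obtain ⟨j, hj⟩ := main m le_rfl
  rw [hd, div_self (hne 0 (Nat.zero_le m)), Complex.arg_one, zero_add] at hj
  have hpos : 0 < ∑ k ∈ range m, ang v (d (k + 1)) (d k) := by
    apply Finset.sum_pos
    · intro k hk
      exact ang_pos (h k (Finset.mem_range.1 hk))
    · exact ⟨0, Finset.mem_range.2 hm⟩
  rw [hj] at hpos ⊢
  have hj0 : 0 < j := by
    apply int_lt_of_mul
    push_cast
    rw [mul_zero]
    exact hpos
  have hj1 : (1 : ℝ) ≤ j := by exact_mod_cast hj0
  nlinarith [Real.pi_pos]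

variable {I : Type} [DecidableEq I]

namespace Geo

variable {S : Obj I} {pt : Sd I → Pt} (hG : Geo S pt)
include hG

/-- the fans of a geometric object are linear -/
theorem linear : S.Linear := by
  intro a
  by_contra hcon
  push Not at hcon
  have hsucc : ∀ n, S.cw^[n + 1] a = rot (S.g (S.cw^[n] a)) := by
    intro n
    rw [Function.iterate_succ_apply', Obj.cw, if_neg (hcon n)]
  have hmemF : ∀ n, (S.cw^[n] a).1 ∈ S.F := fun n => S.memF _ (hcon n)
  have hpt : ∀ n, pt (S.cw^[n] a) = pt a := by
    intro n
    induction n with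
    | zero => rfl
    | succ n ih => rw [Function.iterate_succ_apply', hG.pt_cw, ih]
  -- backwards
  have hback : ∀ i k, S.cw^[i] a = S.cw^[i + k] a → S.cw^[k] a = a := by
    intro i
    induction i with
    | zero =>
      intro k hk
      rw [zero_add] at hk
      exact hk.symm
    | succ i ih =>
      intro k hk
      apply ih k
      have e : i + 1 + k = (i + k) + 1 := by omega
      rw [e, hsucc, hsucc] at hk
      exact S.g_injective (rot_injective hk)
  -- pigeonhole
  have hper : ∃ k, 0 < k ∧ S.cw^[k] a = a := by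
    have hmaps : ∀ n, S.cw^[n] a ∈ S.sides := fun n => Obj.mem_sides.2 (hmemF n)
    obtain ⟨i, j, hij, he⟩ : ∃ i j : ℕ, i ≠ j ∧ S.cw^[i] a = S.cw^[j] a := by
      by_contra hinj
      push Not at hinj
      have hinj' : Function.Injective (fun n : ℕ => S.cw^[n] a) := by
        intro i j he
        by_contra hne
        exact hinj i j hne he
      have hfin : Set.Finite (Set.range (fun n : ℕ => S.cw^[n] a)) := by
        apply Set.Finite.subset (S.sides.finite_toSet)
        rintro _ ⟨n, rfl⟩
        exact hmaps n
      exact Set.infinite_range_of_injective hinj' hfin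
    rcases Nat.lt_or_gt_of_ne hij with h | h
    · refine ⟨j - i, by omega, hback i (j - i) ?_⟩
      rw [he]
      congr 2
      omega
    · refine ⟨i - j, by omega, hback j (i - j) ?_⟩
      rw [← he]
      congr 2
      omega
  obtain ⟨k, hk, hka⟩ := hper
  have hP : a ∈ Function.periodicPts S.cw := ⟨k, hk, hka⟩
  obtain ⟨m, hm⟩ : ∃ m, m = Function.minimalPeriod S.cw a := ⟨_, rfl⟩
  have hm0 : 0 < m := by
    rw [hm]
    exact Function.minimalPeriod_pos_of_mem_periodicPts hP
  have hma : S.cw^[m] a = a := by
    rw [hm]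
    exact Function.isPeriodicPt_minimalPeriod S.cw a
  have hinj : Set.InjOn (fun n => S.cw^[n] a) (Finset.range m : Set ℕ) := by
    intro i hi j hj he
    rw [Finset.coe_range] at hi hj
    rw [hm] at hi hj
    exact Function.iterate_injOn_Iio_minimalPeriod hi hj he
  have hsum := hG.sum_lt (X := (range m).image (fun n => S.cw^[n] a)) (p := pt a) (by
    intro c hc
    obtain ⟨n, _, rfl⟩ := Finset.mem_image.1 hc
    exact hmemF n) (by
    intro c hc
    obtain ⟨n, _, rfl⟩ := Finset.mem_image.1 hc
    exact hpt n)
  rw [Finset.sum_image hinj] at hsum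
  have hshift : ∑ n ∈ range m, cang pt (S.cw^[n + 1] a) = ∑ n ∈ range m, cang pt (S.cw^[n] a) := by
    have e1 := Finset.sum_range_succ' (fun n => cang pt (S.cw^[n] a)) m
    have e2 := Finset.sum_range_succ (fun n => cang pt (S.cw^[n] a)) m
    rw [hma] at e2
    rw [e2] at e1
    simp only [Function.iterate_zero, id_eq] at e1
    linarith
  have hcang : ∀ n, cang pt (S.cw^[n + 1] a) =
      ang (pt a) (pt (rot (S.cw^[n + 1] a))) (pt (rot (S.cw^[n] a))) := by
    intro n
    unfold cang
    rw [hpt (n + 1)]
    have e : pt (unrot (S.cw^[n + 1] a)) = pt (rot (S.cw^[n] a)) := by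
      rw [hsucc, unrot_rot, hG.mat' (hcon n)]
    rw [e]
  have hfan := fan_sum (v := pt a) (d := fun n => pt (rot (S.cw^[n] a))) hm0 (by
    intro n _
    have h1 := hG.ccw (hmemF (n + 1))
    have e : pt (unrot (S.cw^[n + 1] a)) = pt (rot (S.cw^[n] a)) := by
      rw [hsucc, unrot_rot, hG.mat' (hcon n)]
    rw [hpt (n + 1), e] at h1
    exact h1) (by
    simp only [Function.iterate_zero, id_eq]
    rw [hma])
  have heq : ∑ n ∈ range m, ang (pt a) (pt (rot (S.cw^[n + 1] a))) (pt (rot (S.cw^[n] a))) =
      ∑ n ∈ range m, cang pt (S.cw^[n] a) := by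
    rw [← hshift]
    exact Finset.sum_congr rfl (fun n _ => (hcang n).symm)
  have hfan' : 2 * Real.pi ≤ ∑ n ∈ range m, cang pt (S.cw^[n] a) := by
    rw [← heq]
    exact hfan
  exact absurd hsum (not_lt.2 hfan')

/-- the third vertices of the two triangles at a diagonal are different -/
theorem apex_ne {a : Sd I} (h : S.g a ≠ a) : pt (unrot a) ≠ pt (unrot (S.g a)) := by
  intro he
  have h1 := hG.ccw (S.memF a h)
  have h2 := hG.ccw (Obj.g_memF h)
  rw [hG.mat' h, hG.mat a h, ← he] at h2
  unfold Ccw at h1 h2
  rw [cr_swap'] at h2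
  linarith

/-- every glued side of a geometric object can be flipped combinatorially -/
theorem flippable {a : Sd I} (h : S.g a ≠ a) : S.Flippable a := by
  refine ⟨h, ?_, ?_⟩
  · intro he
    have hg : S.g (rot a) ≠ rot a := by
      intro h2
      rw [h2] at he
      have := congrArg Prod.fst he
      rw [rot_fst, unrot_fst] at this
      exact S.ne a h this.symm
    have h3 := hG.mat' hg
    rw [he, rot_rot] at h3
    exact hG.apex_ne h h3.symm
  · intro he
    have hg : S.g (unrot a) ≠ unrot a := by
      intro h2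
      rw [h2] at he
      have := congrArg Prod.fst he
      rw [rot_fst, unrot_fst] at this
      exact S.ne a h this.symm
    have h3 := hG.mat (unrot a) hg
    rw [he, rot_rot] at h3
    exact hG.apex_ne h h3.symm

end Geo

end AG
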