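import Pool.Agent.AG.Red.Main
import Pool.Agent.AG.Reg.OfCex
import Pool.Agent.AG.GC.Shermer

/-!
# Project AG: assembly.  If neither the open case (a chosen nontrivial pair `(w0, w0')` with minimal
`B`) nor the closed case occurs, then there is no minimal counterexample, hence statement P holds
for all connected geometric objects, hence Shermer's bound.
-/

set_option linter.unusedSectionVars false

namespace AG

open Finset

variable {I : Type} [DecidableEq I]

namespace Obj

/-- a minimal counterexample gives a chosen pair, or it is closed -/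
theorem Cex.exists_min {S : Obj I} {pt : Sd I → Pt} {R : Set Pt} (hC : Cex S pt R) :
    (∃ (S' : Obj I) (pt' : Sd I → Pt) (w w' : Sd I), OpenMin S' pt' R w w') ∨
      ClosedMin S pt R := by
  classical
  by_cases h : ∃ n : ℕ, ∃ (S' : Obj I) (pt' : Sd I → Pt) (w w' : Sd I), Cex S' pt' R ∧
      S'.glued.card = S.glued.card ∧ S'.Pr pt' w w' ∧ ¬ S'.Triv pt' w w' ∧
      (S'.pB pt' w w').card = n
  · left
    obtain ⟨S', pt', w, w', h1, h2, h3, h4, h5⟩ := Nat.find_spec h
    refine ⟨S', pt', w, w', h1, h3, h4, ?_⟩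
    intro S'' pt'' u u' g1 g2 g3 g4
    rw [h5]
    exact Nat.find_min' h ⟨S'', pt'', u, u', g1, g2.trans h2, g3, g4, rfl⟩
  · right
    refine ⟨hC, fun u u' hp => ?_⟩
    by_contra ht
    exact h ⟨_, S, pt, u, u', hC, rfl, hp, ht, rfl⟩

/-- no minimal counterexample, if the open case and the closed case are impossible -/
theorem no_cex {R : Set Pt}
    (ho : ∀ (S : Obj I) (pt : Sd I → Pt) (w w' : Sd I), OpenMin S pt R w w' → False)
    (hc : ∀ (S : Obj I) (pt : Sd I → Pt), ClosedMin S pt R → False)
    (S : Obj I) (pt : Sd I → Pt) : ¬ Cex S pt R := by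
  intro hC
  rcases hC.exists_min with ⟨S', pt', w, w', h⟩ | h
  · exact ho S' pt' w w' h
  · exact hc S pt h

end Obj

/-- Shermer's bound, if the open case and the closed case are impossible -/
theorem guards_of_min (P : Pool.Agent.AG.PolygonWithHoles)
    (ho : ∀ (S : Obj (Finset Pt)) (pt : Sd (Finset Pt) → Pt) (w w' : Sd (Finset Pt)),
      Obj.OpenMin S pt P.carrier w w' → False)
    (hc : ∀ (S : Obj (Finset Pt)) (pt : Sd (Finset Pt) → Pt),
      Obj.ClosedMin S pt P.carrier → False) :
    ∃ G : Finset (ℝ × ℝ), (∀ g ∈ G, P.IsVertex g) ∧ G.card ≤ (P.n + P.h) / 3 ∧ P.Guards G :=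
  guards_of_main P fun _ hg hc' hR =>
    Obj.P_all (Obj.no_cex ho hc) hg hc' hR (Finset.empty_subset _)

end AG
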