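import Pool.Agent.AG.S8.S84
import Pool.Agent.AG.Mir.Ord
import Pool.Agent.AG.Reg.Results
import Pool.Agent.Helper41.AG7.OpenFin
import Pool.Agent.Helper41.AG7.Closed
import Pool.Agent.AG.MainThm

/-!
# Project AG: the open case and the closed case are impossible; Shermer's bound
-/

set_option linter.unusedSectionVars false

namespace AG

open Finset

variable {I : Type} [DecidableEq I]

namespace Obj

/-- section 8, left stub -/
theorem OpenMin.ub_left {S : Obj I} {pt : Sd I → Pt} {R : Set Pt} {w0 w0' : Sd I}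
    (hO : OpenMin S pt R w0 w0') (hA : S.VirtA pt w0) (hU : S.IsU pt w0)
    (hf : S.Face (S.g w0).1) :
    Real.pi ≤ cang pt (rot (S.g (rot w0))) + cang pt (rot w0) + cang pt (S.g w0) := by
  by_contra h
  push Not at h
  have hB := hO.cex.base
  exact U8.false ⟨hO, hA, hU, hf, h, hO.env hB, fun u hu he => hO.no_blade hB hu he⟩

/-- section 8, right stub, by reflection -/
theorem OpenMin.ub_right {S : Obj I} {pt : Sd I → Pt} {R : Set Pt} {w0 w0' : Sd I}
    (hO : OpenMin S pt R w0 w0') (hA : S.VirtB pt w0') (hU : S.IsU pt (unrot w0'))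
    (hf : S.Face (S.g (unrot w0')).1) :
    Real.pi ≤ cang pt (S.g (rot w0')) + cang pt (unrot w0') +
      cang pt (rot (S.g (unrot w0'))) := by
  have M : OpenMin S.mir (ptm pt) (refl '' R) (mc w0') (mc w0) :=
    openMin_mir (fun _ _ h => h.base.lin) (fun _ _ h => h.base.lin)
      (fun _ _ _ _ h => h.1.not_B h.2) (fun _ _ _ _ h => h.1.not_B h.2) hO
  have h := M.ub_left ((virtA_mir S pt).2 hA)
    (by rw [mc_eq_ms]; exact (isU_mir S pt).2 hU)
    (by rw [mir_g_mc, ms_fst, face_mir]; exact hf)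
  rw [rot_mc, mir_g_ms, rot_ms, mir_g_mc, cang_mir] at h
  have e1 : ms (rot w0') = mc (unrot w0') := by rw [mc_eq_ms, unrot_unrot]
  have e2 : ms (S.g (unrot w0')) = mc (rot (S.g (unrot w0'))) := rfl
  rw [e1, e2, cang_mir, cang_mir] at h
  exact h

/-- the open case is impossible -/
theorem OpenMin.false {S : Obj I} {pt : Sd I → Pt} {R : Set Pt} {w0 w0' : Sd I}
    (hO : OpenMin S pt R w0 w0') : False :=
  Pool.Agent.Helper41.AG7.open_false hO hO.cex.base hO.ub_left hO.ub_right

/-- the closed case is impossible -/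
theorem ClosedMin.false {S : Obj I} {pt : Sd I → Pt} {R : Set Pt}
    (h : ClosedMin S pt R) : False :=
  Pool.Agent.Helper41.AG7.closed_false h.cex (h.env h.cex.base)
    (fun _ hp => h.triv _ _ (mem_CP.1 hp).1.toPr)

end Obj

/-- Shermer's bound: every polygon with `n` vertices and `h` holes can be guarded by
`⌊(n + h) / 3⌋` vertex guards -/
theorem guards (P : Pool.Agent.AG.PolygonWithHoles) :
    ∃ G : Finset (ℝ × ℝ), (∀ g ∈ G, P.IsVertex g) ∧ G.card ≤ (P.n + P.h) / 3 ∧ P.Guards G :=
  guards_of_min P (fun _ _ _ _ h => h.false) (fun _ _ h => h.false)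

end AG
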