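import Pool.Agent.AG.Basic

/-!
# Project AG: the flip of a glued side

`a` glued to `b = S.g a`.  Triangle `a.1 = (x,y,w1)` with corners `a`, `rot a`, `unrot a`;
triangle `b.1 = (y,x,w2)` with corners `b`, `rot b`, `unrot b`.

After the flip: `a.1 = (x,w2,w1)`, `b.1 = (y,w1,w2)`, so only the points of the corners `rot a`
(now `w2`) and `rot b` (now `w1`) change.  The side `rot a` (`y → w1`) is now called `b`, the side
`rot b` (`x → w2`) is now called `a`, the new diagonal consists of `rot a` and `rot b`.
So the flip is the conjugation by the 4-cycle `a ↦ rot a ↦ b ↦ rot b ↦ a` of side names.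
-/

set_option linter.unusedSectionVars false
set_option linter.unusedSimpArgs false

namespace AG

open Finset

variable {I : Type} [DecidableEq I]

/-- the 4-cycle of side names `a ↦ rot a ↦ b ↦ rot b ↦ a` -/
def sigF (a b c : Sd I) : Sd I :=
  if c = a then rot a else if c = rot a then b else if c = b then rot b
  else if c = rot b then a else c

/-- its inverse -/
def sigB (a b c : Sd I) : Sd I :=
  if c = a then rot b else if c = rot a then a else if c = b then rot a
  else if c = rot b then b else c

section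
variable {a b : Sd I}

theorem ne_of_fst {c d : Sd I} (h : c.1 ≠ d.1) : c ≠ d := fun e => h (by rw [e])

theorem sigF_a : sigF a b a = rot a := by simp [sigF]
theorem sigF_ra : sigF a b (rot a) = b := by simp [sigF, rot_ne]
theorem sigF_b (h : b.1 ≠ a.1) : sigF a b b = rot b := by
  have h1 : b ≠ a := ne_of_fst h
  have h2 : b ≠ rot a := ne_of_fst h
  simp [sigF, h1, h2]
theorem sigF_rb (h : b.1 ≠ a.1) : sigF a b (rot b) = a := by
  have h1 : rot b ≠ a := ne_of_fst h
  have h2 : rot b ≠ rot a := ne_of_fst h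
  simp [sigF, h1, h2, rot_ne]
theorem sigF_other {c : Sd I} (h1 : c ≠ a) (h2 : c ≠ rot a) (h3 : c ≠ b) (h4 : c ≠ rot b) :
    sigF a b c = c := by
  simp [sigF, h1, h2, h3, h4]

theorem sigB_a : sigB a b a = rot b := by simp [sigB]
theorem sigB_ra : sigB a b (rot a) = a := by simp [sigB, rot_ne]
theorem sigB_b (h : b.1 ≠ a.1) : sigB a b b = rot a := by
  have h1 : b ≠ a := ne_of_fst h
  have h2 : b ≠ rot a := ne_of_fst h
  simp [sigB, h1, h2]
theorem sigB_rb (h : b.1 ≠ a.1) : sigB a b (rot b) = b := by
  have h1 : rot b ≠ a := ne_of_fst h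
  have h2 : rot b ≠ rot a := ne_of_fst h
  simp [sigB, h1, h2, rot_ne]
theorem sigB_other {c : Sd I} (h1 : c ≠ a) (h2 : c ≠ rot a) (h3 : c ≠ b) (h4 : c ≠ rot b) :
    sigB a b c = c := by
  simp [sigB, h1, h2, h3, h4]

theorem sigB_sigF (h : b.1 ≠ a.1) (c : Sd I) : sigB a b (sigF a b c) = c := by
  by_cases h1 : c = a
  · subst h1; rw [sigF_a, sigB_ra]
  by_cases h2 : c = rot a
  · subst h2; rw [sigF_ra, sigB_b h]
  by_cases h3 : c = b
  · subst h3; rw [sigF_b h, sigB_rb h]
  by_cases h4 : c = rot b
  · subst h4; rw [sigF_rb h, sigB_a]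
  rw [sigF_other h1 h2 h3 h4, sigB_other h1 h2 h3 h4]

theorem sigF_sigB (h : b.1 ≠ a.1) (c : Sd I) : sigF a b (sigB a b c) = c := by
  by_cases h1 : c = a
  · subst h1; rw [sigB_a, sigF_rb h]
  by_cases h2 : c = rot a
  · subst h2; rw [sigB_ra, sigF_a]
  by_cases h3 : c = b
  · subst h3; rw [sigB_b h, sigF_ra]
  by_cases h4 : c = rot b
  · subst h4; rw [sigB_rb h, sigF_b h]
  rw [sigB_other h1 h2 h3 h4, sigF_other h1 h2 h3 h4]

/-- the 4-cycle as a permutation -/
def sig (a b : Sd I) (h : b.1 ≠ a.1) : Equiv.Perm (Sd I) where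
  toFun := sigF a b
  invFun := sigB a b
  left_inv := sigB_sigF h
  right_inv := sigF_sigB h

/-- first component after `sigF` -/
theorem sigF_fst_other {c : Sd I} (h2 : c ≠ rot a) (h4 : c ≠ rot b) : (sigF a b c).1 = c.1 := by
  by_cases h1 : c = a
  · subst h1; rw [sigF_a]; rfl
  by_cases h3 : c = b
  · subst h3
    unfold sigF
    simp only [h1, h2, if_false, if_true]
    rfl
  rw [sigF_other h1 h2 h3 h4]

end

namespace Obj

/-- the side `a` can be flipped (the two extra conditions hold in linear objects) -/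
structure Flippable (S : Obj I) (a : Sd I) : Prop where
  glued : S.g a ≠ a
  h1 : S.g (rot a) ≠ unrot (S.g a)
  h2 : S.g (unrot a) ≠ rot (S.g a)

theorem Flippable.ne {S : Obj I} {a : Sd I} (h : S.Flippable a) : (S.g a).1 ≠ a.1 := S.ne a h.glued

/-- the gluing after the flip -/
def flipG (S : Obj I) (a : Sd I) (c : Sd I) : Sd I :=
  sigF a (S.g a) (S.g (sigB a (S.g a) c))

/-- the flip of `a` -/
def flip (S : Obj I) (a : Sd I) (h : S.Flippable a) : Obj I where
  F := S.F
  g := S.flipG a
  E := S.E.map (sig a (S.g a) h.ne).toEmbedding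
  invol c := by
    unfold flipG
    rw [sigB_sigF h.ne, S.invol, sigF_sigB h.ne]
  ne c := by
    intro hc
    unfold flipG at *
    set b := S.g a with hb
    have hba : b.1 ≠ a.1 := h.ne
    obtain ⟨d, rfl⟩ : ∃ d, sigF a b d = c := ⟨sigB a b c, sigF_sigB hba c⟩
    rw [sigB_sigF hba] at *
    have hd : S.g d ≠ d := fun e => hc (by rw [e])
    have hd1 := S.ne d hd
    have hgb : S.g b = a := S.invol a
    by_cases k1 : d = rot a
    · subst k1
      rw [sigF_ra]
      have m1 : S.g (rot a) ≠ unrot b := h.h1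
      by_cases k2 : S.g (rot a) = rot b
      · rw [k2, sigF_rb hba]; exact hba.symm
      · have k3 : S.g (rot a) ≠ b := by
          intro e
          have : rot a = a := by rw [← S.invol (rot a), e, hgb]
          exact rot_ne a this
        rw [sigF_fst_other hd k2]
        intro e
        rcases eq_of_fst_eq e with e' | e' | e'
        · exact k3 e'
        · exact k2 e'
        · exact m1 e'
    by_cases k1' : d = rot b
    · subst k1'
      rw [sigF_rb hba]
      have m1 : S.g (rot b) ≠ unrot a := by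
        intro e
        apply h.h2
        rw [← e, S.invol]
      by_cases k2 : S.g (rot b) = rot a
      · rw [k2, sigF_ra]; exact hba
      · have k3 : S.g (rot b) ≠ a := by
          intro e
          have : rot b = b := by rw [← S.invol (rot b), e, hb]
          exact rot_ne b this
        rw [sigF_fst_other k2 hd]
        intro e
        rcases eq_of_fst_eq e with e' | e' | e'
        · exact k3 e'
        · exact k2 e'
        · exact m1 e'
    rw [sigF_fst_other k1 k1']
    by_cases k2 : S.g d = rot a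
    · rw [k2, sigF_ra]
      intro e
      have e2 : S.g (rot a) = d := by rw [← k2, S.invol]
      rcases eq_of_fst_eq e.symm with e' | e' | e'
      · -- d = b
        rw [e', hgb] at k2
        exact rot_ne a k2.symm
      · exact k1' e'
      · exact h.h1 (by rw [e2, e'])
    by_cases k2' : S.g d = rot b
    · rw [k2', sigF_rb hba]
      intro e
      rcases eq_of_fst_eq e.symm with e' | e' | e'
      · rw [e', ← hb] at k2'
        exact rot_ne b k2'.symm
      · exact k1 e'
      · exact h.h2 (by rw [← e', k2'])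
    rw [sigF_fst_other k2 k2']
    exact hd1
  memF c := by
    intro hc
    unfold flipG at *
    set b := S.g a with hb
    have hba : b.1 ≠ a.1 := h.ne
    obtain ⟨d, rfl⟩ : ∃ d, sigF a b d = c := ⟨sigB a b c, sigF_sigB hba c⟩
    rw [sigB_sigF hba] at *
    have hd : S.g d ≠ d := fun e => hc (by rw [e])
    by_cases k1 : d = rot a
    · subst k1; rw [sigF_ra]; exact g_memF h.glued
    by_cases k1' : d = rot b
    · subst k1'; rw [sigF_rb hba]; exact S.memF _ h.glued
    rw [sigF_fst_other k1 k1']
    exact S.memF _ hd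
  earF c := by
    intro hc
    rw [Finset.mem_map] at hc
    obtain ⟨d, hd, rfl⟩ := hc
    change (sigF a (S.g a) d).1 ∈ S.F
    have hba : (S.g a).1 ≠ a.1 := h.ne
    by_cases k1 : d = rot a
    · subst k1; rw [sigF_ra]; exact g_memF h.glued
    by_cases k1' : d = rot (S.g a)
    · subst k1'; rw [sigF_rb hba]; exact S.memF _ h.glued
    rw [sigF_fst_other k1 k1']
    exact S.earF _ hd
  earFree c := by
    intro hc
    rw [Finset.mem_map] at hc
    obtain ⟨d, hd, rfl⟩ := hc
    change sigF a (S.g a) (S.g (sigB a (S.g a) (sigF a (S.g a) d))) = sigF a (S.g a) d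
    rw [sigB_sigF h.ne, S.earFree d hd]

section
variable {S : Obj I} {a : Sd I} (h : S.Flippable a)

@[simp] theorem flip_F : (S.flip a h).F = S.F := rfl

theorem flip_g (c : Sd I) : (S.flip a h).g c = sigF a (S.g a) (S.g (sigB a (S.g a) c)) := rfl

/-- the flip in terms of old side names: `g'(σ d) = σ (g d)` -/
theorem flip_g_sig (d : Sd I) :
    (S.flip a h).g (sigF a (S.g a) d) = sigF a (S.g a) (S.g d) := by
  rw [flip_g, sigB_sigF h.ne]

theorem flip_E (d : Sd I) : sigF a (S.g a) d ∈ (S.flip a h).E ↔ d ∈ S.E := by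
  change sigF a (S.g a) d ∈ S.E.map (sig a (S.g a) h.ne).toEmbedding ↔ _
  rw [Finset.mem_map]
  constructor
  · rintro ⟨e, he, h1⟩
    have : e = d := (sig a (S.g a) h.ne).injective h1
    rwa [← this]
  · intro hd; exact ⟨d, hd, rfl⟩

@[simp] theorem flip_E_card : (S.flip a h).E.card = S.E.card := Finset.card_map _

/-- the new diagonal -/
theorem flip_g_rot : (S.flip a h).g (rot a) = rot (S.g a) := by
  have := flip_g_sig h a
  rwa [sigF_a, sigF_b h.ne] at this

theorem flip_g_rot' : (S.flip a h).g (rot (S.g a)) = rot a := by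
  have := flip_g_sig h (S.g a)
  rwa [sigF_b h.ne, S.invol, sigF_a] at this

end

end Obj

/-- the points after the flip -/
def flipPt {α : Type} (pt : Sd I → α) (a b : Sd I) (c : Sd I) : α :=
  if c = rot a then pt (unrot b) else if c = rot b then pt (unrot a) else pt c

section
variable {α : Type} {pt : Sd I → α} {a b : Sd I}

theorem flipPt_ra : flipPt pt a b (rot a) = pt (unrot b) := by simp [flipPt]

theorem flipPt_rb (h : b.1 ≠ a.1) : flipPt pt a b (rot b) = pt (unrot a) := by
  have h2 : rot b ≠ rot a := ne_of_fst h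
  simp [flipPt, h2]

theorem flipPt_other {c : Sd I} (h1 : c ≠ rot a) (h2 : c ≠ rot b) : flipPt pt a b c = pt c := by
  simp [flipPt, h1, h2]

theorem flipPt_of_fst {c : Sd I} (h1 : c.1 ≠ a.1) (h2 : c.1 ≠ b.1) : flipPt pt a b c = pt c :=
  flipPt_other (ne_of_fst h1) (ne_of_fst h2)

theorem flipPt_a (h : b.1 ≠ a.1) : flipPt pt a b a = pt a :=
  flipPt_other (rot_ne a).symm (ne_of_fst h.symm)

theorem flipPt_b (h : b.1 ≠ a.1) : flipPt pt a b b = pt b :=
  flipPt_other (ne_of_fst h) (rot_ne b).symm

theorem flipPt_ua (h : b.1 ≠ a.1) : flipPt pt a b (unrot a) = pt (unrot a) :=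
  flipPt_other (unrot_ne_rot a) (ne_of_fst h.symm)

theorem flipPt_ub (h : b.1 ≠ a.1) : flipPt pt a b (unrot b) = pt (unrot b) :=
  flipPt_other (ne_of_fst h) (unrot_ne_rot b)

end

end AG
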