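import Pool.Agent.AG.Basic
import Pool.Agent.AG.Flip
import Pool.Agent.AG.Quad

/-!
# Project AG (MP_586e8d), block GEO-B: geometric objects

`Geo S pt`: the triangles of `S` are counterclockwise, glued sides match, the open triangles are
pairwise disjoint, and at EVERY POINT the sum of all angles is smaller than `2π`.
-/

set_option linter.unusedSectionVars false
set_option linter.unusedSimpArgs false

namespace AG

open Finset

variable {I : Type} [DecidableEq I]

/-- the angle at the corner `a` -/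
noncomputable def cang (pt : Sd I → Pt) (a : Sd I) : ℝ := ang (pt a) (pt (rot a)) (pt (unrot a))

/-- the open triangle of the corner `a` -/
def ctr (pt : Sd I → Pt) (a : Sd I) : Set Pt := otri (pt a) (pt (rot a)) (pt (unrot a))

open Classical in
/-- geometric objects -/
structure Geo (S : Obj I) (pt : Sd I → Pt) : Prop where
  ccw0 : ∀ t ∈ S.F, Ccw (pt (t, 0)) (pt (t, 1)) (pt (t, 2))
  mat : ∀ a, S.g a ≠ a → pt (rot (S.g a)) = pt a
  disj0 : ∀ t ∈ S.F, ∀ t' ∈ S.F, t ≠ t' →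
    Disjoint (otri (pt (t, 0)) (pt (t, 1)) (pt (t, 2))) (otri (pt (t', 0)) (pt (t', 1)) (pt (t', 2)))
  asum : ∀ p : Pt, ∑ a ∈ S.sides.filter (fun a => pt a = p), cang pt a < 2 * Real.pi

/-- the diagonal `{a, S.g a}` is BLOCKED AT THE START POINT of `a`, i.e. at the visit of the
corner `a` -/
def Blk (S : Obj I) (pt : Sd I → Pt) (a : Sd I) : Prop :=
  S.g a ≠ a ∧ Real.pi ≤ cang pt a + cang pt (rot (S.g a))

/-- the diagonal `{a, S.g a}` is a `U` diagonal -/
structure IsU (S : Obj I) (pt : Sd I → Pt) (a : Sd I) : Prop where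
  glued : S.g a ≠ a
  start : cang pt a + cang pt (rot (S.g a)) < Real.pi
  stop : cang pt (S.g a) + cang pt (rot a) < Real.pi

/-! ### triangles, independent of the first corner -/

theorem ctr_eq0 (pt : Sd I → Pt) (a : Sd I) :
    ctr pt a = otri (pt (a.1, 0)) (pt (a.1, 1)) (pt (a.1, 2)) := by
  rcases a with ⟨t, i⟩
  fin_cases i
  · rfl
  · exact otri_rot (pt (t, 0)) (pt (t, 1)) (pt (t, 2))
  · exact (otri_rot (pt (t, 2)) (pt (t, 0)) (pt (t, 1))).symm

theorem tri_eq (pt : Sd I → Pt) (a : Sd I) :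
    tri pt a.1 = ctri (pt a) (pt (rot a)) (pt (unrot a)) := by
  rcases a with ⟨t, i⟩
  fin_cases i
  · rfl
  · exact (ctri_rot (pt (t, 0)) (pt (t, 1)) (pt (t, 2))).symm
  · exact ctri_rot (pt (t, 2)) (pt (t, 0)) (pt (t, 1))

theorem tri_eq' (pt : Sd I → Pt) {t : I} {a : Sd I} (h : a.1 = t) :
    tri pt t = ctri (pt a) (pt (rot a)) (pt (unrot a)) := by rw [← h, tri_eq]

theorem ctr_rot (pt : Sd I → Pt) (a : Sd I) : ctr pt (rot a) = ctr pt a := by
  rw [ctr_eq0, ctr_eq0, rot_fst]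

theorem ctr_unrot (pt : Sd I → Pt) (a : Sd I) : ctr pt (unrot a) = ctr pt a := by
  rw [ctr_eq0, ctr_eq0, unrot_fst]

theorem ccw_of_ccw0 {pt : Sd I → Pt} {a : Sd I}
    (h : Ccw (pt (a.1, 0)) (pt (a.1, 1)) (pt (a.1, 2))) : Ccw (pt a) (pt (rot a)) (pt (unrot a)) := by
  rcases a with ⟨t, i⟩
  fin_cases i
  · exact h
  · exact h.rot
  · exact h.rot'

namespace Geo

variable {S : Obj I} {pt : Sd I → Pt} (hG : Geo S pt)
include hG

theorem ccw {a : Sd I} (h : a.1 ∈ S.F) : Ccw (pt a) (pt (rot a)) (pt (unrot a)) :=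
  ccw_of_ccw0 (hG.ccw0 _ h)

theorem disj {a b : Sd I} (ha : a.1 ∈ S.F) (hb : b.1 ∈ S.F) (h : a.1 ≠ b.1) :
    Disjoint (ctr pt a) (ctr pt b) := by
  rw [ctr_eq0, ctr_eq0]; exact hG.disj0 _ ha _ hb h

/-- the other end of a glued side -/
theorem mat' {a : Sd I} (h : S.g a ≠ a) : pt (S.g a) = pt (rot a) := by
  have := hG.mat (S.g a) (Obj.g_ne_iff.2 h)
  rw [S.invol] at this
  exact this.symm

/-- equivalent corners lie at the same point -/
theorem pt_eqv {a b : Sd I} (h : S.Eqv a b) : pt a = pt b := by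
  induction h with
  | rel x y hxy => obtain ⟨h1, rfl⟩ := hxy; exact (hG.mat x h1).symm
  | refl x => rfl
  | symm x y _ ih => exact ih.symm
  | trans x y z _ _ ih1 ih2 => exact ih1.trans ih2

theorem pt_cw (a : Sd I) : pt (S.cw a) = pt a := (hG.pt_eqv (S.cw_eqv a)).symm

theorem pt_ne_rot {a : Sd I} (h : a.1 ∈ S.F) : pt a ≠ pt (rot a) := (hG.ccw h).ne
theorem pt_ne_unrot {a : Sd I} (h : a.1 ∈ S.F) : pt a ≠ pt (unrot a) := (hG.ccw h).ne'
theorem pt_rot_ne_unrot {a : Sd I} (h : a.1 ∈ S.F) : pt (rot a) ≠ pt (unrot a) := (hG.ccw h).ne''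

/-- two corners of the same triangle at the same point are equal -/
theorem eq_of_fst {a b : Sd I} (h : a.1 ∈ S.F) (h1 : b.1 = a.1) (h2 : pt b = pt a) : b = a := by
  rcases eq_of_fst_eq h1 with h3 | h3 | h3
  · exact h3
  · subst h3; exact absurd h2.symm (hG.pt_ne_rot h)
  · subst h3; exact absurd h2.symm (hG.pt_ne_unrot h)

/-- A DIRECTED SEGMENT IS A SIDE OF AT MOST ONE TRIANGLE -/
theorem side_inj {a b : Sd I} (ha : a.1 ∈ S.F) (hb : b.1 ∈ S.F) (h1 : pt a = pt b)
    (h2 : pt (rot a) = pt (rot b)) : a = b := by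
  by_contra hne
  have hfst : a.1 ≠ b.1 := by
    intro e
    exact hne (hG.eq_of_fst hb e h1)
  have hd := hG.disj ha hb hfst
  have hcb := hG.ccw hb
  rw [← h1, ← h2] at hcb
  obtain ⟨p, hp1, hp2⟩ := otri_inter_same_side (hG.ccw ha) hcb
  refine Set.disjoint_left.1 hd hp1 ?_
  unfold ctr
  rw [← h1, ← h2]
  exact hp2

/-- a side opposite to a glued side `a` is `S.g a`: TWO DIFFERENT DIAGONALS WITH THE SAME ENDS
ARE IMPOSSIBLE -/
theorem side_anti {a b : Sd I} (ha : S.g a ≠ a) (hb : b.1 ∈ S.F) (h1 : pt b = pt (rot a))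
    (h2 : pt (rot b) = pt a) : b = S.g a := by
  apply hG.side_inj hb (Obj.g_memF ha)
  · rw [h1, hG.mat' ha]
  · rw [h2, hG.mat a ha]

/-! ### angles -/

theorem cang_pos {a : Sd I} (h : a.1 ∈ S.F) : 0 < cang pt a := ang_pos (hG.ccw h)

theorem cang_lt {a : Sd I} (h : a.1 ∈ S.F) : cang pt a < Real.pi := ang_lt_pi (hG.ccw h)

/-- the angles of a triangle -/
theorem cang_tri {a : Sd I} (h : a.1 ∈ S.F) :
    cang pt a + cang pt (rot a) + cang pt (unrot a) = Real.pi := by
  have h1 := ang_sum (hG.ccw h)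
  unfold cang
  rw [unrot_rot, rot_rot, rot_unrot, unrot_unrot]
  exact h1

/-- the sum of the angles of any set of corners at one point is smaller than `2π` -/
theorem sum_lt {X : Finset (Sd I)} (hX : ∀ c ∈ X, c.1 ∈ S.F) {p : Pt} (hp : ∀ c ∈ X, pt c = p) :
    ∑ c ∈ X, cang pt c < 2 * Real.pi := by
  classical
  have hsub : X ⊆ S.sides.filter (fun a => pt a = p) := by
    intro c hc
    exact mem_filter.2 ⟨Obj.mem_sides.2 (hX c hc), hp c hc⟩
  have h1 := Finset.sum_le_sum_of_subset_of_nonneg (f := cang pt) hsub (by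
    intro c hc _
    exact (hG.cang_pos (Obj.mem_sides.1 (mem_filter.1 hc).1)).le)
  refine lt_of_le_of_lt h1 ?_
  convert hG.asum p

theorem sum_two_lt {a b : Sd I} (ha : a.1 ∈ S.F) (hb : b.1 ∈ S.F) (hab : a ≠ b)
    (h : pt a = pt b) : cang pt a + cang pt b < 2 * Real.pi := by
  have := hG.sum_lt (X := {a, b}) (p := pt b) (by simp [ha, hb]) (by simp [h])
  rwa [Finset.sum_pair hab] at this

theorem sum_three_lt {a b c : Sd I} (ha : a.1 ∈ S.F) (hb : b.1 ∈ S.F) (hc : c.1 ∈ S.F)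
    (hab : a ≠ b) (hac : a ≠ c) (hbc : b ≠ c) (h1 : pt a = pt c) (h2 : pt b = pt c) :
    cang pt a + cang pt b + cang pt c < 2 * Real.pi := by
  have := hG.sum_lt (X := {a, b, c}) (p := pt c) (by simp [ha, hb, hc]) (by simp [h1, h2])
  rw [Finset.sum_insert (by simp [hab, hac]), Finset.sum_pair hbc] at this
  linarith

theorem sum_four_lt {a b c d : Sd I} (ha : a.1 ∈ S.F) (hb : b.1 ∈ S.F) (hc : c.1 ∈ S.F)
    (hd : d.1 ∈ S.F) (hab : a ≠ b) (hac : a ≠ c) (had : a ≠ d) (hbc : b ≠ c) (hbd : b ≠ d)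
    (hcd : c ≠ d) (h1 : pt a = pt d) (h2 : pt b = pt d) (h3 : pt c = pt d) :
    cang pt a + cang pt b + cang pt c + cang pt d < 2 * Real.pi := by
  have := hG.sum_lt (X := {a, b, c, d}) (p := pt d) (by simp [ha, hb, hc, hd])
    (by simp [h1, h2, h3])
  rw [Finset.sum_insert (by simp [hab, hac, had]), Finset.sum_insert (by simp [hbc, hbd]),
    Finset.sum_pair hcd] at this
  linarith

/-! ### blocked diagonals -/

/-- a diagonal is blocked at most at one end -/
theorem not_blk_both {a : Sd I} (h1 : Blk S pt a) (h2 : Blk S pt (S.g a)) : False := by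
  have ha := S.memF a h1.1
  have hb := Obj.g_memF h1.1
  have h3 := hG.cang_tri ha
  have h4 := hG.cang_tri hb
  have h5 := hG.cang_pos (a := unrot a) ha
  have h6 := hG.cang_pos (a := unrot (S.g a)) hb
  have h7 := h1.2
  have h8 := h2.2
  rw [S.invol] at h8
  linarith

omit hG in
/-- trichotomy for a glued side -/
theorem isU_or_blk {a : Sd I} (h : S.g a ≠ a) : IsU S pt a ∨ Blk S pt a ∨ Blk S pt (S.g a) := by
  by_cases h1 : Real.pi ≤ cang pt a + cang pt (rot (S.g a))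
  · exact Or.inr (Or.inl ⟨h, h1⟩)
  by_cases h2 : Real.pi ≤ cang pt (S.g a) + cang pt (rot a)
  · refine Or.inr (Or.inr ⟨Obj.g_ne_iff.2 h, ?_⟩)
    rw [S.invol]; exact h2
  · exact Or.inl ⟨h, not_le.1 h1, not_le.1 h2⟩

omit hG in
theorem _root_.AG.IsU.symm {a : Sd I} (h : IsU S pt a) : IsU S pt (S.g a) :=
  ⟨Obj.g_ne_iff.2 h.glued, by rw [S.invol]; exact h.stop, by rw [S.invol]; exact h.start⟩

omit hG in
theorem _root_.AG.IsU.not_blk {a : Sd I} (h : IsU S pt a) : ¬ Blk S pt a := fun h1 =>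
  absurd h1.2 (not_le.2 h.start)

omit hG in
theorem _root_.AG.IsU.not_blk' {a : Sd I} (h : IsU S pt a) : ¬ Blk S pt (S.g a) :=
  h.symm.not_blk

omit hG in
theorem isU_iff {a : Sd I} : IsU S pt a ↔ S.g a ≠ a ∧ ¬ Blk S pt a ∧ ¬ Blk S pt (S.g a) := by
  constructor
  · intro h; exact ⟨h.glued, h.not_blk, h.not_blk'⟩
  · rintro ⟨h1, h2, h3⟩
    rcases isU_or_blk (pt := pt) h1 with h | h | h
    · exact h
    · exact absurd h h2
    · exact absurd h h3

/-- the corner `rot (S.g a)` is in the triangle across -/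
theorem rot_g_ne {a : Sd I} (h : S.g a ≠ a) : rot (S.g a) ≠ a := by
  intro e
  exact S.ne a h (by rw [← rot_fst (S.g a), e])

/-- (G1) two diagonals blocked at the same point are equal or consecutive -/
theorem blk_consecutive {a b : Sd I} (ha : Blk S pt a) (hb : Blk S pt b) (h : pt a = pt b) :
    a = b ∨ b = rot (S.g a) ∨ a = rot (S.g b) := by
  by_contra hcon
  push Not at hcon
  obtain ⟨h1, h2, h3⟩ := hcon
  have fa := S.memF a ha.1
  have fb := S.memF b hb.1
  have ga : (rot (S.g a)).1 ∈ S.F := Obj.g_memF ha.1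
  have gb : (rot (S.g b)).1 ∈ S.F := Obj.g_memF hb.1
  have pa : pt (rot (S.g a)) = pt a := hG.mat a ha.1
  have pb : pt (rot (S.g b)) = pt b := hG.mat b hb.1
  have n1 : a ≠ rot (S.g a) := (hG.rot_g_ne ha.1).symm
  have n2 : b ≠ rot (S.g b) := (hG.rot_g_ne hb.1).symm
  have n3 : rot (S.g a) ≠ rot (S.g b) := fun e => h1 (S.g_injective (rot_injective e))
  have key := hG.sum_four_lt fa ga fb gb n1 h1 h3 h2.symm n3 n2 (by rw [h, pb])
    (by rw [pa, h, pb]) (by rw [pb])
  have k1 := ha.2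
  have k2 := hb.2
  linarith

/-- two diagonals blocked at the same point lie in the same visit -/
theorem blk_eqv {a b : Sd I} (ha : Blk S pt a) (hb : Blk S pt b) (h : pt a = pt b) :
    S.Eqv a b := by
  rcases hG.blk_consecutive ha hb h with h1 | h1 | h1
  · rw [h1]; exact Obj.Eqv.refl _ _
  · rw [h1]; exact Obj.Eqv.of_glued ha.1
  · rw [h1]; exact (Obj.Eqv.of_glued hb.1).symm

/-- no three triangles around a point -/
theorem no_three {a : Sd I} (h1 : S.g a ≠ a) (h2 : S.g (rot (S.g a)) ≠ rot (S.g a))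
    (h3 : rot (S.g (rot (S.g (rot (S.g a))))) = a) : False := by
  obtain ⟨c1, hc1⟩ : ∃ c, c = rot (S.g a) := ⟨_, rfl⟩
  obtain ⟨c2, hc2⟩ : ∃ c, c = rot (S.g c1) := ⟨_, rfl⟩
  rw [← hc1] at h2 h3
  rw [← hc2] at h3
  have fa := S.memF a h1
  have f1 : c1.1 ∈ S.F := S.memF c1 h2
  have f2 : c2.1 ∈ S.F := by rw [hc2]; exact Obj.g_memF h2
  have p1 : pt c1 = pt a := by rw [hc1]; exact hG.mat a h1
  have p2 : pt c2 = pt c1 := by rw [hc2]; exact hG.mat c1 h2
  have h3' : S.g c2 ≠ c2 := by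
    intro e
    rw [e] at h3
    exact hG.pt_ne_rot f2 (by rw [h3, p2, p1])
  have u1 : pt (unrot c1) = pt (rot a) := by rw [hc1, unrot_rot]; exact hG.mat' h1
  have u2 : pt (unrot c2) = pt (rot c1) := by rw [hc2, unrot_rot]; exact hG.mat' h2
  have u3 : pt (unrot a) = pt (rot c2) := by rw [← h3, unrot_rot]; exact hG.mat' h3'
  have n1 : a ≠ c1 := by rw [hc1]; exact (hG.rot_g_ne h1).symm
  have n2 : c1 ≠ c2 := by rw [hc2]; exact (hG.rot_g_ne h2).symm
  have n3 : a ≠ c2 := by rw [← h3]; exact hG.rot_g_ne h3'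
  have key := hG.sum_three_lt f2 f1 fa n2.symm n3.symm n1.symm (by rw [p2, p1]) p1
  have k2 := hG.ccw f2
  have k1 := hG.ccw f1
  have k0 := hG.ccw fa
  have e2 : cang pt c2 = ang (pt a) (pt (rot c2)) (pt (rot c1)) := by
    unfold cang; rw [u2, p2, p1]
  have e1 : cang pt c1 = ang (pt a) (pt (rot c1)) (pt (rot a)) := by
    unfold cang; rw [u1, p1]
  have e0 : cang pt a = ang (pt a) (pt (rot a)) (pt (rot c2)) := by
    unfold cang; rw [u3]
  rw [p2, p1, u2] at k2
  rw [p1, u1] at k1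
  rw [u3] at k0
  have := ang_sum_around k2 k1 k0
  rw [e2, e1, e0] at key
  linarith

/-- (G1) at most two diagonals are blocked at a point -/
theorem blk_three {a b c : Sd I} (ha : Blk S pt a) (hb : Blk S pt b) (hc : Blk S pt c)
    (h1 : pt a = pt b) (h2 : pt b = pt c) : a = b ∨ a = c ∨ b = c := by
  by_contra hcon
  push Not at hcon
  obtain ⟨n1, n2, n3⟩ := hcon
  have inj : ∀ {u v w : Sd I}, u = rot (S.g v) → u = rot (S.g w) → v = w := fun e1 e2 =>
    S.g_injective (rot_injective (e1.symm.trans e2))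
  rcases hG.blk_consecutive ha hb h1 with h3 | h3 | h3
  · exact n1 h3
  · -- b = cw a
    rcases hG.blk_consecutive hb hc h2 with h4 | h4 | h4
    · exact n3 h4
    · rcases hG.blk_consecutive ha hc (h1.trans h2) with h5 | h5 | h5
      · exact n2 h5
      · exact n1 (inj h5 h4)
      · refine hG.no_three ha.1 (by rw [← h3]; exact hb.1) ?_
        rw [← h3, ← h4, ← h5]
    · exact n2 (inj h3 h4)
  · -- a = cw b
    rcases hG.blk_consecutive hb hc h2 with h4 | h4 | h4
    · exact n3 h4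
    · exact n2 (h3.trans h4.symm)
    · rcases hG.blk_consecutive ha hc (h1.trans h2) with h5 | h5 | h5
      · exact n2 h5
      · refine hG.no_three ha.1 (by rw [← h5]; exact hc.1) ?_
        rw [← h5, ← h4, ← h3]
      · exact n3 (inj h3 h5)

/-! ### restriction -/

theorem mono {S' : Obj I} (h : S'.Le S) : Geo S' pt where
  ccw0 t ht := hG.ccw0 t (h.F ht)
  mat a ha := by
    obtain ⟨h1, h2⟩ := h.glued ha
    rw [h1]; exact hG.mat a h2
  disj0 t ht t' ht' hne := hG.disj0 t (h.F ht) t' (h.F ht') hne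
  asum p := by
    classical
    refine hG.sum_lt (p := p) ?_ ?_
    · intro c hc
      exact h.F (Obj.mem_sides.1 (mem_filter.1 hc).1)
    · intro c hc
      exact (mem_filter.1 hc).2

theorem _root_.AG.Blk.mono {S' : Obj I} (h : S'.Le S) {a : Sd I} (hb : Blk S' pt a) :
    Blk S pt a := by
  obtain ⟨h1, h2⟩ := h.glued hb.1
  refine ⟨h2, ?_⟩
  rw [← h1]; exact hb.2

end Geo

end AG
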