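import Pool.Agent.AG.GeoSee

/-!
# Project AG: `S.Geo pt`, `S.Blk pt a`, `S.IsU pt a` as notations for the definitions of helper23
(Geo.lean): all theorems of the namespace `AG.Geo` can be used with `hg : S.Geo pt`.
-/

namespace AG

variable {I : Type} [DecidableEq I]

namespace Obj

/-- geometric objects, see `AG.Geo` -/
abbrev Geo (S : Obj I) (pt : Sd I → Pt) : Prop := AG.Geo S pt

/-- the diagonal `{a, S.g a}` is blocked at the start point of `a`, see `AG.Blk` -/
abbrev Blk (S : Obj I) (pt : Sd I → Pt) (a : Sd I) : Prop := AG.Blk S pt a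

/-- U diagonals, see `AG.IsU` -/
abbrev IsU (S : Obj I) (pt : Sd I → Pt) (a : Sd I) : Prop := AG.IsU S pt a

end Obj

end AG
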