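import Pool.Agent.AG.Geo
import Pool.Agent.AG.Exposed

/-!
# Project AG (MP_586e8d), block GEO-B: extreme points (7.6)

TASK: prove the `sorry`s (`exists_ext` follows from `three_exposed` of Exposed.lean, applied to
`V = S.sides.image pt`, and `ang_sum_exposed`).

`ang_sum_exposed`: the whole visit is `c 0, c 1 = cw c 0, …, c K` (`c 0` its first corner), directions
`d k = pt (rot (c k))`, `pt (unrot (c (k+1))) = d k`; all directions `e` satisfy `0 < u·(e-p)`.  For
three such directions: `Ccw p a b`, `Ccw p b c` imply `Ccw p a c`, because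
`(u·b) det(a,c) = (u·c) det(a,b) + (u·a) det(b,c)` (vectors from `p`).  So by induction
`Ccw p (d k) (pt (unrot (c 0)))` and
`∑_{j≤k} cang (c j) = ang p (d k) (pt (unrot (c 0))) < π` (`ang_add_of_ccw`).
The set `{d | S.Eqv c d}` is the set of these iterates: use `Obj.last`, `Obj.last_eqv`,
`Obj.eqv_iff`, `Obj.last_cw` of Basic.lean (`hlin : S.Linear`).  Instead of the first corner one
can also prove: for every `n` and every corner `a`, the corners `a, cw a, …, cw^[n] a` (as long as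
glued) have total angle `< π`, and choose `a` in the class with the largest distance to `last a`.
-/

set_option linter.unusedSectionVars false
set_option linter.unusedSimpArgs false

namespace AG

open Finset

variable {I : Type} [DecidableEq I]

namespace Geo

private theorem cw_inj_glued {S : Obj I} {a b : Sd I} (ha : S.g a ≠ a) (hb : S.g b ≠ b)
    (h : S.cw a = S.cw b) : a = b := by
  unfold Obj.cw at h
  rw [if_neg ha, if_neg hb] at h
  exact S.g_injective (rot_injective h)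

private theorem chain_eq {S : Obj I} (m : ℕ) : ∀ (k : ℕ) (a b : Sd I),
    (∀ i < m + k, S.g (S.cw^[i] a) ≠ S.cw^[i] a) → (∀ i < m, S.g (S.cw^[i] b) ≠ S.cw^[i] b) →
    S.cw^[m + k] a = S.cw^[m] b → S.cw^[k] a = b := by
  induction m with
  | zero =>
    intro k a b _ _ h
    simpa using h
  | succ m ih =>
    intro k a b h1 h2 h3
    apply ih k a b (fun i hi => h1 i (by omega)) (fun i hi => h2 i (by omega))
    have e : m + 1 + k = (m + k) + 1 := by omega
    rw [e, Function.iterate_succ_apply', Function.iterate_succ_apply'] at h3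
    exact cw_inj_glued (h1 _ (by omega)) (h2 _ (by omega)) h3

variable {S : Obj I} {pt : Sd I → Pt} (hG : Geo S pt)
include hG

private theorem chain_sum {V : Finset Pt} (hV : ∀ c ∈ S.sides, pt c ∈ V) {p u : Pt}
    (hp : Exposed V p u) {a : Sd I} (ha : a ∈ S.sides) (hap : pt a = p) (n : ℕ)
    (hn : ∀ i < n, S.g (S.cw^[i] a) ≠ S.cw^[i] a) :
    S.cw^[n] a ∈ S.sides ∧ pt (S.cw^[n] a) = p ∧
    Ccw p (pt (rot (S.cw^[n] a))) (pt (unrot a)) ∧
    ∑ i ∈ range (n + 1), cang pt (S.cw^[i] a) =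
      ang p (pt (rot (S.cw^[n] a))) (pt (unrot a)) := by
  have hdot : ∀ b ∈ S.sides, pt b ≠ p → 0 < dot u (pt b - p) := fun b hb h =>
    hp.2 _ (hV b hb) h
  induction n with
  | zero =>
    have h1 := hG.ccw (Obj.mem_sides.1 ha)
    refine ⟨ha, hap, ?_, ?_⟩
    · rw [hap] at h1; exact h1
    · simp only [zero_add, sum_range_one, Function.iterate_zero, id_eq]
      unfold cang
      rw [hap]
  | succ n ih =>
    obtain ⟨h1, h2, h3, h4⟩ := ih (fun i hi => hn i (by omega))
    have hg := hn n (by omega)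
    obtain ⟨b, hb⟩ : ∃ b, b = S.cw^[n] a := ⟨_, rfl⟩
    rw [← hb] at h1 h2 h3 h4 hg
    have e : S.cw^[n + 1] a = S.cw b := by rw [Function.iterate_succ_apply', hb]
    have ecw : S.cw b = rot (S.g b) := by unfold Obj.cw; rw [if_neg hg]
    have hcb : S.cw b ∈ S.sides := Obj.cw_mem h1
    have hpcb : pt (S.cw b) = p := by rw [hG.pt_cw, h2]
    have hun : pt (unrot (S.cw b)) = pt (rot b) := by
      rw [ecw, unrot_rot]; exact hG.mat' hg
    have hc1 := hG.ccw (Obj.mem_sides.1 hcb)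
    rw [hpcb, hun] at hc1
    have fa : a.1 ∈ S.F := Obj.mem_sides.1 ha
    have fb : b.1 ∈ S.F := Obj.mem_sides.1 h1
    have fcb : (S.cw b).1 ∈ S.F := Obj.mem_sides.1 hcb
    have hu : unrot a ∈ S.sides := Obj.mem_sides.2 fa
    have hrb : rot b ∈ S.sides := Obj.mem_sides.2 fb
    have hrcb : rot (S.cw b) ∈ S.sides := Obj.mem_sides.2 fcb
    have d1 := hdot _ hrcb (fun h => hG.pt_ne_rot (Obj.mem_sides.1 hcb) (by rw [h, hpcb]))
    have d2 := hdot _ hrb (fun h => hG.pt_ne_rot (Obj.mem_sides.1 h1) (by rw [h, h2]))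
    have d3 := hdot _ hu (fun h => hG.pt_ne_unrot (Obj.mem_sides.1 ha) (by rw [h, hap]))
    have hc2 := ccw_trans_of_dot d1 d2 d3 hc1 h3
    rw [e]
    refine ⟨hcb, hpcb, hc2, ?_⟩
    rw [sum_range_succ, h4, e, ang_add_of_ccw hc1 h3 hc2]
    have hcang : cang pt (S.cw b) = ang p (pt (rot (S.cw b))) (pt (rot b)) := by
      unfold cang
      rw [hpcb, hun]
    rw [hcang, add_comm]

/-- the total angle of a visit at an exposed point is smaller than `π` -/
theorem ang_sum_exposed (hlin : S.Linear) {V : Finset Pt} (hV : ∀ c ∈ S.sides, pt c ∈ V) {p u : Pt}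
    (hp : Exposed V p u) {c : Sd I} (hc : c ∈ S.sides) (hcp : pt c = p) {X : Finset (Sd I)}
    (hX : ∀ d ∈ X, d ∈ S.sides ∧ S.Eqv c d) : ∑ d ∈ X, cang pt d < Real.pi := by
  classical
  rcases X.eq_empty_or_nonempty with h0 | hne
  · rw [h0, sum_empty]; exact Real.pi_pos
  let nn : Sd I → ℕ := fun a => Nat.find (hlin a)
  have hnn1 : ∀ a, S.g (S.cw^[nn a] a) = S.cw^[nn a] a := fun a => Nat.find_spec (hlin a)
  have hnn2 : ∀ a, ∀ i < nn a, S.g (S.cw^[i] a) ≠ S.cw^[i] a := fun a i hi =>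
    Nat.find_min (hlin a) hi
  have hlast : ∀ a, S.last a = S.cw^[nn a] a := fun a => Obj.last_eq_of (hnn1 a)
  obtain ⟨a, haX, hmax⟩ := exists_max_image X nn hne
  have hap : pt a = p := by rw [← hG.pt_eqv (hX a haX).2, hcp]
  have hk : ∀ d ∈ X, S.cw^[nn a - nn d] a = d := by
    intro d hd
    have h1 : nn d ≤ nn a := hmax d hd
    have h2 : nn d + (nn a - nn d) = nn a := by omega
    apply chain_eq (nn d) (nn a - nn d) a d
    · rw [h2]; exact hnn2 a
    · exact hnn2 d
    · rw [h2, ← hlast, ← hlast]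
      exact (Obj.eqv_iff hlin).1 ((hX a haX).2.symm.trans (hX d hd).2)
  obtain ⟨-, -, h3, h4⟩ := hG.chain_sum hV hp (hX a haX).1 hap (nn a) (hnn2 a)
  have h5 : ∑ d ∈ X, cang pt d = ∑ i ∈ X.image (fun d => nn a - nn d), cang pt (S.cw^[i] a) := by
    rw [sum_image]
    · exact sum_congr rfl (fun d hd => by rw [hk d hd])
    · intro d hd d' hd' h
      rw [← hk d hd, ← hk d' hd']
      simp only at h
      rw [h]
  have h6 : X.image (fun d => nn a - nn d) ⊆ range (nn a + 1) := by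
    intro i hi
    obtain ⟨d, _, rfl⟩ := mem_image.1 hi
    rw [mem_range]
    omega
  have h7 : ∑ i ∈ X.image (fun d => nn a - nn d), cang pt (S.cw^[i] a) ≤
      ∑ i ∈ range (nn a + 1), cang pt (S.cw^[i] a) := by
    apply sum_le_sum_of_subset_of_nonneg h6
    intro i hi _
    have h8 := (hG.chain_sum hV hp (hX a haX).1 hap i
      (fun j hj => hnn2 a j (by have := mem_range.1 hi; omega))).1
    exact (hG.cang_pos (Obj.mem_sides.1 h8)).le
  rw [h5]
  refine lt_of_le_of_lt h7 ?_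
  rw [h4]
  exact ang_lt_pi h3

/-- (7.6) EXTREME POINTS: at least three, and at each of them every visit has total angle `< π` -/
theorem exists_ext (hlin : S.Linear) (hne : S.F.Nonempty) : ∃ Ext : Finset Pt, 3 ≤ Ext.card ∧
    ∀ q ∈ Ext, (∃ c ∈ S.sides, pt c = q) ∧ ∀ c ∈ S.sides, pt c = q → ∀ X : Finset (Sd I),
      (∀ d ∈ X, d ∈ S.sides ∧ S.Eqv c d) → ∑ d ∈ X, cang pt d < Real.pi := by
  classical
  obtain ⟨t, ht⟩ := hne
  have hV : ∀ c ∈ S.sides, pt c ∈ S.sides.image pt := fun c hc => mem_image_of_mem pt hc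
  have hs : ∀ i : Fin 3, (t, i) ∈ S.sides := fun i => Obj.mem_sides.2 ht
  obtain ⟨p1, p2, p3, u1, u2, u3, e1, e2, e3, n1, n2, n3⟩ :=
    three_exposed (hV _ (hs 0)) (hV _ (hs 1)) (hV _ (hs 2)) (hG.ccw0 t ht)
  have key : ∀ q u, Exposed (S.sides.image pt) q u → (∃ c ∈ S.sides, pt c = q) ∧
      ∀ c ∈ S.sides, pt c = q → ∀ X : Finset (Sd I),
        (∀ d ∈ X, d ∈ S.sides ∧ S.Eqv c d) → ∑ d ∈ X, cang pt d < Real.pi := by
    intro q u hq
    refine ⟨?_, fun c hc hcq X hX => hG.ang_sum_exposed hlin hV hq hc hcq hX⟩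
    obtain ⟨c, hc, h⟩ := mem_image.1 hq.1
    exact ⟨c, hc, h⟩
  refine ⟨{p1, p2, p3}, ?_, ?_⟩
  · rw [card_insert_of_notMem (by simp [n1, n2]), card_pair n3]
  · intro q hq
    simp only [mem_insert, mem_singleton] at hq
    rcases hq with rfl | rfl | rfl
    · exact key _ _ e1
    · exact key _ _ e2
    · exact key _ _ e3

end Geo

end AG
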