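import Pool.Agent.AG.GeoSee

/-!
# Project AG (MP_586e8d), block GEO-B: further forms of the geometric facts
-/

set_option linter.unusedSectionVars false
set_option linter.unusedSimpArgs false

namespace AG

open Finset

variable {I : Type} [DecidableEq I]

namespace Geo

variable {S : Obj I} {pt : Sd I → Pt} (hG : Geo S pt)
include hG

/-- a diagonal is blocked at most at one end -/
theorem b1 {a : Sd I} (h : Blk S pt a) : ¬ Blk S pt (S.g a) := fun h' => hG.not_blk_both h h'

/-- (G1) in the form with `cw` -/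
theorem g1 {a b : Sd I} (ha : Blk S pt a) (hb : Blk S pt b) (h : S.Eqv a b) :
    a = b ∨ b = S.cw a ∨ a = S.cw b := by
  have e1 : S.cw a = rot (S.g a) := by unfold Obj.cw; rw [if_neg ha.1]
  have e2 : S.cw b = rot (S.g b) := by unfold Obj.cw; rw [if_neg hb.1]
  rw [e1, e2]
  exact hG.blk_consecutive ha hb (hG.pt_eqv h)

theorem sh_aux {a : Sd I} (ga : S.g a ≠ a) (gb : S.g (rot a) ≠ rot a) :
    (S.g a).1 ≠ (S.g (rot a)).1 := by
  intro e
  have fa := S.memF a ga
  have f2 := Obj.g_memF gb
  have m1 : pt (S.g a) = pt (rot a) := hG.mat' ga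
  have m2 : pt (rot (S.g a)) = pt a := hG.mat a ga
  have m3 : pt (S.g (rot a)) = pt (unrot a) := by rw [hG.mat' gb, rot_rot]
  have m4 : pt (rot (S.g (rot a))) = pt (rot a) := hG.mat _ gb
  have h1 : S.g a = rot (S.g (rot a)) :=
    hG.eq_of_fst (a := rot (S.g (rot a))) f2 e (by rw [m1, m4])
  have h2 : pt (unrot (S.g (rot a))) = pt a := by rw [← rot_rot, ← h1, m2]
  have k1 : 0 < cr (pt (unrot a)) (pt (rot a)) (pt a) := by
    have := hG.ccw f2
    rw [m3, m4, h2] at this
    exact this
  have k2 : 0 < cr (pt a) (pt (rot a)) (pt (unrot a)) := hG.ccw fa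
  have k3 : cr (pt (unrot a)) (pt (rot a)) (pt a) = - cr (pt a) (pt (rot a)) (pt (unrot a)) := by
    unfold cr; ring
  linarith

/-- two triangles are not glued along two sides -/
theorem sh {a b : Sd I} (h1 : a.1 = b.1) (h2 : a ≠ b) (ga : S.g a ≠ a) (gb : S.g b ≠ b) :
    (S.g a).1 ≠ (S.g b).1 := by
  rcases eq_of_fst_eq h1.symm with h3 | h3 | h3
  · exact absurd h3.symm h2
  · rw [h3] at gb ⊢
    exact hG.sh_aux ga gb
  · have h4 : a = rot b := by rw [h3, rot_unrot]
    rw [h4] at ga ⊢
    exact (hG.sh_aux gb ga).symm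

/-- the third vertices of the two triangles at a diagonal are different -/
theorem third {a : Sd I} (h : S.g a ≠ a) : pt (unrot a) ≠ pt (unrot (S.g a)) := by
  intro e
  have k1 : 0 < cr (pt (rot a)) (pt a) (pt (unrot (S.g a))) := hG.ccw_g h
  have k2 : 0 < cr (pt a) (pt (rot a)) (pt (unrot a)) := hG.ccw (S.memF a h)
  rw [← e, cr_swap'] at k1
  linarith

/-- the apex of the triangle across `a` is not a corner point of the triangle `a.1` -/
theorem third_not_corner {a c : Sd I} (h : S.g a ≠ a) (hc : c.1 = a.1) :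
    pt c ≠ pt (unrot (S.g a)) := by
  intro e
  have k1 : 0 < cr (pt (rot a)) (pt a) (pt (unrot (S.g a))) := hG.ccw_g h
  have fa := S.memF a h
  have h2 : pt c ∈ tri pt a.1 := by rw [← hc]; exact hG.pt_mem_tri (c := c) (by rw [hc]; exact fa)
  rw [tri_eq, e] at h2
  rw [cr_swap'] at k1
  linarith [h2.1]

end Geo

end AG
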