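import Pool.Agent.AG.GeoFlip

/-!
# Project AG (MP_586e8d), block GEO-B: seeing lemmas, coincidences (c1), (c3)
-/

set_option linter.unusedSectionVars false
set_option linter.unusedSimpArgs false

namespace AG

open Finset

variable {I : Type} [DecidableEq I]

namespace Geo

variable {S : Obj I} {pt : Sd I → Pt} (hG : Geo S pt)
include hG

theorem hit_pt {C : Finset (Sd I)} {c : Sd I} (h : S.Hit C c) : ∃ d ∈ C, pt d = pt c := by
  obtain ⟨d, hd, h1⟩ := h
  exact ⟨d, hd, hG.pt_eqv h1⟩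

/-- a corner is a point of its triangle -/
theorem pt_mem_tri {c : Sd I} (hc : c.1 ∈ S.F) : pt c ∈ tri pt c.1 := by
  rw [tri_eq]; exact mem_ctri_left (hG.ccw hc)

omit hG in
theorem convex_tri (pt : Sd I → Pt) (t : I) : Convex ℝ (tri pt t) := convex_ctri _ _ _

/-- a triangle is covered if one of its corner points is a point of `C` -/
theorem cov_of_pt {c : Sd I} (hc : c.1 ∈ S.F) {R : Set Pt} (hR : tri pt c.1 ⊆ R)
    {C : Finset (Sd I)} {d : Sd I} (hd : d ∈ C) (h : pt d = pt c) : Cov pt R C c.1 := by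
  intro p hp
  refine ⟨d, hd, ?_⟩
  rw [h]
  exact ((convex_tri pt c.1).segment_subset (hG.pt_mem_tri hc) hp).trans hR

/-- a dominated triangle is covered -/
theorem cov_of_hit {t : I} (ht : t ∈ S.F) {R : Set Pt} (hR : tri pt t ⊆ R)
    {C : Finset (Sd I)} {i : Fin 3} (h : S.Hit C (t, i)) : Cov pt R C t := by
  obtain ⟨d, hd, h1⟩ := hG.hit_pt h
  exact hG.cov_of_pt (c := (t, i)) ht hR hd h1

theorem cov_of_hit' {c : Sd I} (hc : c.1 ∈ S.F) {R : Set Pt} (hR : tri pt c.1 ⊆ R)
    {C : Finset (Sd I)} (h : S.Hit C c) : Cov pt R C c.1 := by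
  obtain ⟨d, hd, h1⟩ := hG.hit_pt h
  exact hG.cov_of_pt hc hR hd h1

/-- the two triangles at a glued side, in points -/
theorem tri_g {a : Sd I} (h : S.g a ≠ a) :
    tri pt (S.g a).1 = ctri (pt (rot a)) (pt a) (pt (unrot (S.g a))) := by
  rw [tri_eq, hG.mat' h, hG.mat a h]

theorem ccw_g {a : Sd I} (h : S.g a ≠ a) :
    Ccw (pt (rot a)) (pt a) (pt (unrot (S.g a))) := by
  have := hG.ccw (Obj.g_memF h)
  rwa [hG.mat' h, hG.mat a h] at this

/-- SEEING LEMMA (U): if the triangle across a `U` diagonal is dominated, then `a.1` is covered -/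
theorem cov_U {a : Sd I} (hU : IsU S pt a) {R : Set Pt} (h1 : tri pt a.1 ⊆ R)
    (h2 : tri pt (S.g a).1 ⊆ R) {C : Finset (Sd I)} {c : Sd I} (hc : c.1 = (S.g a).1)
    (h : S.Hit C c) : Cov pt R C a.1 := by
  intro p hp
  obtain ⟨d, hd, hdc⟩ := hG.hit_pt h
  refine ⟨d, hd, ?_⟩
  have hq := hG.uq hU
  have hb : (S.g a).1 ∈ S.F := Obj.g_memF hU.glued
  have hcm : pt c ∈ tri pt (S.g a).1 := by rw [← hc]; exact hG.pt_mem_tri (by rw [hc]; exact hb)
  rw [hdc]
  rw [hG.tri_g hU.glued] at hcm h2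
  rw [tri_eq] at hp h1
  exact (hq.sees (Or.inr hcm) (Or.inl hp)).trans (Set.union_subset h1 h2)

/-- the data of a pair at the corner `c`: both sides of the triangle at this corner are blocked
at this corner -/
structure _root_.AG.IsPair (S : Obj I) (pt : Sd I → Pt) (c : Sd I) : Prop where
  b1 : Blk S pt c
  b2 : Blk S pt (S.g (unrot c))

omit hG in
theorem _root_.AG.IsPair.g2 {c : Sd I} (h : IsPair S pt c) : S.g (unrot c) ≠ unrot c :=
  Obj.g_ne_iff.1 h.b2.1

/-- SEEING LEMMA (pair) -/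
theorem cov_pair {c : Sd I} (hP : IsPair S pt c) {R : Set Pt} (h0 : tri pt c.1 ⊆ R)
    (h1 : tri pt (S.g c).1 ⊆ R) (h2 : tri pt (S.g (unrot c)).1 ⊆ R) {C : Finset (Sd I)}
    {d1 d2 : Sd I} (hd1 : d1.1 = (S.g c).1) (hit1 : S.Hit C d1)
    (hd2 : d2.1 = (S.g (unrot c)).1) (hit2 : S.Hit C d2) : Cov pt R C c.1 := by
  have g1 := hP.b1.1
  have g2 := hP.g2
  have fc := S.memF c g1
  have f1 := Obj.g_memF g1
  have f2 := Obj.g_memF g2
  obtain ⟨q1, hq1, hq1'⟩ := hG.hit_pt hit1
  obtain ⟨q2, hq2, hq2'⟩ := hG.hit_pt hit2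
  -- points
  have m1 : pt (S.g c) = pt (rot c) := hG.mat' g1
  have m2 : pt (rot (S.g c)) = pt c := hG.mat c g1
  have m3 : pt (S.g (unrot c)) = pt c := by rw [hG.mat' g2, rot_unrot]
  have m4 : pt (rot (S.g (unrot c))) = pt (unrot c) := hG.mat _ g2
  have k0 : Ccw (pt c) (pt (rot c)) (pt (unrot c)) := hG.ccw fc
  have k1 : Ccw (pt (rot c)) (pt c) (pt (unrot (S.g c))) := hG.ccw_g g1
  have k2 : Ccw (pt c) (pt (unrot c)) (pt (unrot (S.g (unrot c)))) := by
    have := hG.ccw_g g2
    rwa [rot_unrot] at this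
  -- all cases in which a corner point of the triangle itself is hit
  by_cases e1 : d1 = S.g c
  · exact hG.cov_of_pt (c := rot c) fc h0 hq1 (by rw [hq1', e1, m1])
  by_cases e2 : d1 = rot (S.g c)
  · exact hG.cov_of_pt fc h0 hq1 (by rw [hq1', e2, m2])
  by_cases e3 : d2 = S.g (unrot c)
  · exact hG.cov_of_pt fc h0 hq2 (by rw [hq2', e3, m3])
  by_cases e4 : d2 = rot (S.g (unrot c))
  · exact hG.cov_of_pt (c := unrot c) fc h0 hq2 (by rw [hq2', e4, m4])
  have e5 : d1 = unrot (S.g c) := by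
    rcases eq_of_fst_eq hd1 with h | h | h
    · exact absurd h e1
    · exact absurd h e2
    · exact h
  have e6 : d2 = unrot (S.g (unrot c)) := by
    rcases eq_of_fst_eq hd2 with h | h | h
    · exact absurd h e3
    · exact absurd h e4
    · exact h
  rw [e5] at hq1'
  rw [e6] at hq2'
  -- not blocked at the other ends
  have n1 : ¬ Blk S pt (S.g c) := fun h => hG.not_blk_both hP.b1 h
  have n2 : ¬ Blk S pt (unrot c) := fun h => hG.not_blk_both h hP.b2
  have l1 : cang pt (S.g c) + cang pt (rot c) < Real.pi := by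
    by_contra hcon
    exact n1 ⟨Obj.g_ne_iff.2 g1, by rw [S.invol]; exact not_lt.1 hcon⟩
  have l2 : cang pt (unrot c) + cang pt (rot (S.g (unrot c))) < Real.pi := by
    by_contra hcon
    exact n2 ⟨g2, not_lt.1 hcon⟩
  have a1 : cang pt (S.g c) = ang (pt (rot c)) (pt c) (pt (unrot (S.g c))) := by
    unfold cang; rw [m1, m2]
  have a2 : cang pt (rot c) = ang (pt (rot c)) (pt (unrot c)) (pt c) := by
    unfold cang; rw [rot_rot, unrot_rot]
  have a3 : cang pt (unrot c) = ang (pt (unrot c)) (pt c) (pt (rot c)) := by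
    unfold cang; rw [rot_unrot, unrot_unrot]
  have a4 : cang pt (rot (S.g (unrot c)))
      = ang (pt (unrot c)) (pt (unrot (S.g (unrot c)))) (pt c) := by
    unfold cang; rw [rot_rot, unrot_rot, m3, m4]
  have a5 : cang pt (rot (S.g c)) = ang (pt c) (pt (unrot (S.g c))) (pt (rot c)) := by
    unfold cang; rw [rot_rot, unrot_rot, m1, m2]
  have a6 : cang pt (S.g (unrot c)) = ang (pt c) (pt (unrot c)) (pt (unrot (S.g (unrot c)))) := by
    unfold cang; rw [m3, m4]
  have x1 : Ccw (pt (rot c)) (pt (unrot c)) (pt (unrot (S.g c))) :=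
    (ang_add k0.rot k1 (by rw [← a1, ← a2]; linarith)).1
  have x2 : Ccw (pt (unrot c)) (pt (unrot (S.g (unrot c)))) (pt (rot c)) :=
    (ang_add k2.rot k0.rot' (by rw [← a4, ← a3]; linarith)).1
  have ne : rot (S.g c) ≠ S.g (unrot c) := by
    intro e
    have : pt (unrot (S.g c)) = pt (unrot c) := by rw [← rot_rot, e, m4]
    rw [this] at x1
    exact x1.ne'' rfl
  have hs : ang (pt c) (pt (unrot (S.g c))) (pt (rot c)) + ang (pt c) (pt (rot c)) (pt (unrot c))
      + ang (pt c) (pt (unrot c)) (pt (unrot (S.g (unrot c)))) < 2 * Real.pi := by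
    rw [← a5, ← a6]
    exact hG.sum_three_lt (a := rot (S.g c)) (b := c) (c := S.g (unrot c)) f1 fc f2
      (hG.rot_g_ne g1) ne (fun e => S.ne _ g2 (by rw [← e]; rfl)) (by rw [m2, m3]) m3.symm
  intro p hp
  rw [tri_eq] at hp h0
  rcases pair_dichotomy k1.rot k0 k2 hs hp with h | h
  · refine ⟨q1, hq1, ?_⟩
    rw [hq1']
    rw [hG.tri_g g1] at h1
    exact (sees_half k1 k0 x1 hp h).trans (Set.union_subset h1 h0)
  · refine ⟨q2, hq2, ?_⟩
    rw [hq2']
    rw [hG.tri_g g2, rot_unrot] at h2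
    exact (sees_half' k2 k0 x2 hp h).trans (Set.union_subset h2 h0)

/-- (c1) the two triangles across the sides of a triangle at the corner `c` have different third
vertices (otherwise the three triangles would fill the full angle around `pt c`) -/
theorem c1 {c : Sd I} (g1 : S.g c ≠ c) (g2 : S.g (unrot c) ≠ unrot c) :
    pt (unrot (S.g c)) ≠ pt (unrot (S.g (unrot c))) := by
  intro e
  have fc := S.memF c g1
  have f1 := Obj.g_memF g1
  have f2 := Obj.g_memF g2
  have m1 : pt (S.g c) = pt (rot c) := hG.mat' g1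
  have m2 : pt (rot (S.g c)) = pt c := hG.mat c g1
  have m3 : pt (S.g (unrot c)) = pt c := by rw [hG.mat' g2, rot_unrot]
  have m4 : pt (rot (S.g (unrot c))) = pt (unrot c) := hG.mat _ g2
  have k0 : Ccw (pt c) (pt (rot c)) (pt (unrot c)) := hG.ccw fc
  have k1 : Ccw (pt (rot c)) (pt c) (pt (unrot (S.g c))) := hG.ccw_g g1
  have k2 : Ccw (pt c) (pt (unrot c)) (pt (unrot (S.g (unrot c)))) := by
    have := hG.ccw_g g2
    rwa [rot_unrot] at this
  have a5 : cang pt (rot (S.g c)) = ang (pt c) (pt (unrot (S.g c))) (pt (rot c)) := by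
    unfold cang; rw [rot_rot, unrot_rot, m1, m2]
  have a6 : cang pt (S.g (unrot c)) = ang (pt c) (pt (unrot c)) (pt (unrot (S.g (unrot c)))) := by
    unfold cang; rw [m3, m4]
  have ne : rot (S.g c) ≠ S.g (unrot c) := by
    intro e'
    have h3 : pt (unrot (S.g (unrot c))) = pt (rot c) := by rw [← e', unrot_rot, m1]
    have h4 : pt (unrot (S.g c)) = pt (unrot c) := by rw [← rot_rot, e', m4]
    rw [h3, h4] at e
    exact k0.ne'' e.symm
  have hs := hG.sum_three_lt (a := rot (S.g c)) (b := c) (c := S.g (unrot c)) f1 fc f2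
      (hG.rot_g_ne g1) ne (fun e => S.ne _ g2 (by rw [← e]; rfl)) (by rw [m2, m3]) m3.symm
  rw [a5, a6, ← e] at hs
  rw [← e] at k2
  have := ang_sum_around k1.rot k0 k2
  unfold cang at hs
  linarith

/-- (c3) no triangle has a side joining the opposite vertices of the quadrilateral of a `U`
diagonal -/
theorem no_side_across {a : Sd I} (hU : IsU S pt a) {d : Sd I} (hd : d.1 ∈ S.F) :
    ¬ (pt d = pt (unrot a) ∧ pt (rot d) = pt (unrot (S.g a))) := by
  rintro ⟨e1, e2⟩
  have hq := hG.uq hU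
  have fa := S.memF a hU.glued
  have fb := Obj.g_memF hU.glued
  have kd := hG.ccw hd
  rw [e1, e2] at kd
  obtain ⟨p, hp, hp2⟩ := hq.c3 kd
  have hpd : p ∈ ctr pt d := by unfold ctr; rw [e1, e2]; exact hp
  rcases hp2 with hp2 | hp2
  · have h1 : d.1 = a.1 := by
      by_contra hne
      exact Set.disjoint_left.1 (hG.disj hd fa hne) hpd hp2
    -- `pt (rot d)` is a corner of `a.1` but lies on the other side of `a`
    have h2 : pt (rot d) ∈ tri pt a.1 := by rw [← h1]; exact hG.pt_mem_tri (c := rot d) hd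
    rw [tri_eq, e2] at h2
    have h3 : 0 < cr (pt (rot a)) (pt a) (pt (unrot (S.g a))) := hG.ccw_g hU.glued
    rw [cr_swap'] at h3
    linarith [h2.1]
  · have hp3 : p ∈ ctr pt (S.g a) := by
      unfold ctr; rw [hG.mat' hU.glued, hG.mat a hU.glued]; exact hp2
    have h1 : d.1 = (S.g a).1 := by
      by_contra hne
      exact Set.disjoint_left.1 (hG.disj hd fb hne) hpd hp3
    have h2 : pt d ∈ tri pt (S.g a).1 := by rw [← h1]; exact hG.pt_mem_tri hd
    rw [hG.tri_g hU.glued, e1] at h2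
    have h3 : 0 < cr (pt a) (pt (rot a)) (pt (unrot a)) := hG.ccw fa
    rw [cr_swap'] at h3
    linarith [h2.1]

/-- (c3), the other direction of the side -/
theorem no_side_across' {a : Sd I} (hU : IsU S pt a) {d : Sd I} (hd : d.1 ∈ S.F) :
    ¬ (pt d = pt (unrot (S.g a)) ∧ pt (rot d) = pt (unrot a)) := by
  have := hG.no_side_across hU.symm hd
  rwa [S.invol] at this

end Geo

/-! ### solutions of the flipped object -/

/-- corners of the flipped object as corners of the old one -/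
def unflip (a b : Sd I) (c : Sd I) : Sd I :=
  if c = rot a then unrot b else if c = rot b then unrot a else c

theorem flipPt_eq {α : Type} (pt : Sd I → α) (a b c : Sd I) :
    flipPt pt a b c = pt (unflip a b c) := by
  unfold flipPt unflip
  split_ifs <;> rfl

/-- a set covered in the sense of `Cov` -/
theorem cov_image {pt pt' : Sd I → Pt} {f : Sd I → Sd I} (h : ∀ c, pt' c = pt (f c)) {R : Set Pt}
    {C : Finset (Sd I)} {p : Pt} (hp : ∃ c ∈ C, segment ℝ (pt' c) p ⊆ R) :
    ∃ c ∈ C.image f, segment ℝ (pt c) p ⊆ R := by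
  obtain ⟨c, hc, h1⟩ := hp
  exact ⟨f c, mem_image_of_mem f hc, by rw [← h]; exact h1⟩

namespace Geo

variable {S : Obj I} {pt : Sd I → Pt} (hG : Geo S pt)
include hG

/-- coverage goes back from the flipped object -/
theorem cov_unflip {a : Sd I} (hU : IsU S pt a) {R : Set Pt} {C : Finset (Sd I)}
    (h : ∀ t ∈ S.F, Cov (flipPt pt a (S.g a)) R C t) :
    ∀ t ∈ S.F, Cov pt R (C.image (unflip a (S.g a))) t := by
  intro t ht p hp
  by_cases h1 : t = a.1 ∨ t = (S.g a).1
  · have h2 : p ∈ tri (flipPt pt a (S.g a)) a.1 ∪ tri (flipPt pt a (S.g a)) (S.g a).1 := by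
      rw [hG.tri_flip hU]
      rcases h1 with h1 | h1
      · left; rw [← h1]; exact hp
      · right; rw [← h1]; exact hp
    rcases h2 with h2 | h2
    · exact cov_image (flipPt_eq pt a (S.g a)) (h _ (S.memF a hU.glued) p h2)
    · exact cov_image (flipPt_eq pt a (S.g a)) (h _ (Obj.g_memF hU.glued) p h2)
  · push Not at h1
    rw [← tri_flip_other (pt := pt) h1.1 h1.2] at hp
    exact cov_image (flipPt_eq pt a (S.g a)) (h t ht p hp)

/-- the triangles of the flipped object are in `R` -/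
theorem tri_flip_subset {a : Sd I} (hU : IsU S pt a) {R : Set Pt} (h : ∀ t ∈ S.F, tri pt t ⊆ R) :
    ∀ t ∈ S.F, tri (flipPt pt a (S.g a)) t ⊆ R := by
  intro t ht
  have h0 := hG.tri_flip hU
  have h1 : tri pt a.1 ∪ tri pt (S.g a).1 ⊆ R :=
    Set.union_subset (h _ (S.memF a hU.glued)) (h _ (Obj.g_memF hU.glued))
  rw [← h0] at h1
  by_cases h2 : t = a.1
  · rw [h2]; exact Set.subset_union_left.trans h1
  by_cases h3 : t = (S.g a).1
  · rw [h3]; exact Set.subset_union_right.trans h1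
  rw [tri_flip_other h2 h3]
  exact h t ht

end Geo

end AG
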