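import Mathlib

/-!
Plane geometry for project AG (vertex guards for polygons with holes).
Points are pairs of reals.  `Ccw a b c`: the triangle `a b c` is counterclockwise;
`ang a b c`: the angle at `a` from `b` to `c`.
-/

namespace AG

/-- points of the plane -/
abbrev Pt := ℝ × ℝ

/-- a point as a complex number -/
def toC (p : Pt) : ℂ := ⟨p.1, p.2⟩

@[simp] theorem toC_re (p : Pt) : (toC p).re = p.1 := rfl

@[simp] theorem toC_im (p : Pt) : (toC p).im = p.2 := rfl

theorem toC_inj {p q : Pt} (h : toC p = toC q) : p = q := by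
  have h1 := congrArg Complex.re h
  have h2 := congrArg Complex.im h
  exact Prod.ext h1 h2

theorem sub_toC_ne {p q : Pt} (h : p ≠ q) : toC p - toC q ≠ 0 :=
  sub_ne_zero.2 fun e => h (toC_inj e)

/-- twice the signed area of the triangle `a b c` -/
def cr (a b c : Pt) : ℝ := (b.1 - a.1) * (c.2 - a.2) - (b.2 - a.2) * (c.1 - a.1)

/-- counterclockwise and nondegenerate -/
def Ccw (a b c : Pt) : Prop := 0 < cr a b c

/-- the angle at `a` from `b` to `c` (in `(0, π)` for a counterclockwise triangle) -/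
noncomputable def ang (a b c : Pt) : ℝ := Complex.arg ((toC c - toC a) / (toC b - toC a))

/-- the closed triangle (for counterclockwise `a b c`) -/
def ctri (a b c : Pt) : Set Pt := {p | 0 ≤ cr a b p ∧ 0 ≤ cr b c p ∧ 0 ≤ cr c a p}

/-- the open triangle (for counterclockwise `a b c`) -/
def otri (a b c : Pt) : Set Pt := {p | 0 < cr a b p ∧ 0 < cr b c p ∧ 0 < cr c a p}

theorem cr_rot (a b c : Pt) : cr b c a = cr a b c := by unfold cr; ring

theorem cr_swap (a b c : Pt) : cr a c b = - cr a b c := by unfold cr; ring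

theorem cr_swap' (a b c : Pt) : cr b a c = - cr a b c := by unfold cr; ring

theorem cr_sum (a b c p : Pt) : cr a b p + cr b c p + cr c a p = cr a b c := by unfold cr; ring

theorem cr_self_left (a b : Pt) : cr a b a = 0 := by unfold cr; ring

theorem cr_self_right (a b : Pt) : cr a b b = 0 := by unfold cr; ring

theorem cr_same (a b : Pt) : cr a a b = 0 := by unfold cr; ring

theorem Ccw.rot {a b c : Pt} (h : Ccw a b c) : Ccw b c a := by
  unfold Ccw at *; rw [cr_rot]; exact h

theorem Ccw.rot' {a b c : Pt} (h : Ccw a b c) : Ccw c a b := h.rot.rot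

theorem Ccw.ne {a b c : Pt} (h : Ccw a b c) : a ≠ b := by
  rintro rfl; unfold Ccw at h; rw [cr_same] at h; exact lt_irrefl _ h

theorem Ccw.ne' {a b c : Pt} (h : Ccw a b c) : a ≠ c := fun e => h.rot'.ne e.symm

theorem Ccw.ne'' {a b c : Pt} (h : Ccw a b c) : b ≠ c := h.rot.ne

/-- affine in the last argument -/
theorem cr_affine (a b p q : Pt) (s t : ℝ) (h : s + t = 1) :
    cr a b (s • p + t • q) = s * cr a b p + t * cr a b q := by
  have hs : s = 1 - t := by linarith
  subst hs
  unfold cr
  simp only [Prod.fst_add, Prod.snd_add, Prod.smul_fst, Prod.smul_snd, smul_eq_mul]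
  ring

theorem mem_ctri_left {a b c : Pt} (h : Ccw a b c) : a ∈ ctri a b c := by
  refine ⟨?_, ?_, ?_⟩
  · rw [cr_self_left]
  · rw [cr_rot]; exact h.le
  · rw [cr_self_right]

theorem ctri_rot (a b c : Pt) : ctri b c a = ctri a b c := by
  ext p; unfold ctri; simp only [Set.mem_setOf_eq]; tauto

theorem otri_rot (a b c : Pt) : otri b c a = otri a b c := by
  ext p; unfold otri; simp only [Set.mem_setOf_eq]; tauto

theorem otri_subset_ctri (a b c : Pt) : otri a b c ⊆ ctri a b c :=
  fun _ h => ⟨h.1.le, h.2.1.le, h.2.2.le⟩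

theorem convex_half (a b : Pt) : Convex ℝ {p | 0 ≤ cr a b p} := by
  intro p hp q hq s t hs ht hst
  simp only [Set.mem_setOf_eq] at *
  rw [cr_affine _ _ _ _ _ _ hst]
  positivity

theorem convex_ctri (a b c : Pt) : Convex ℝ (ctri a b c) := by
  have : ctri a b c = {p | 0 ≤ cr a b p} ∩ ({p | 0 ≤ cr b c p} ∩ {p | 0 ≤ cr c a p}) := rfl
  rw [this]
  exact (convex_half a b).inter ((convex_half b c).inter (convex_half c a))

theorem isOpen_half (a b : Pt) : IsOpen {p | 0 < cr a b p} := by
  have : Continuous fun p : Pt => cr a b p := by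
    unfold cr; fun_prop
  exact isOpen_lt continuous_const this

theorem isOpen_otri (a b c : Pt) : IsOpen (otri a b c) := by
  have : otri a b c = {p | 0 < cr a b p} ∩ ({p | 0 < cr b c p} ∩ {p | 0 < cr c a p}) := rfl
  rw [this]
  exact (isOpen_half a b).inter ((isOpen_half b c).inter (isOpen_half c a))

/-! ### angles -/

theorem div_im (a b c : Pt) : ((toC c - toC a) / (toC b - toC a)).im = cr a b c / Complex.normSq (toC b - toC a) := by
  rw [Complex.div_im]
  unfold cr
  simp only [Complex.sub_re, Complex.sub_im, toC_re, toC_im]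
  ring

theorem Ccw.im_pos {a b c : Pt} (h : Ccw a b c) : 0 < ((toC c - toC a) / (toC b - toC a)).im := by
  rw [div_im]
  have hne : toC b - toC a ≠ 0 := sub_toC_ne h.ne.symm
  exact div_pos h (Complex.normSq_pos.2 hne)

theorem ang_pos {a b c : Pt} (h : Ccw a b c) : 0 < ang a b c := by
  unfold ang
  have h1 := h.im_pos
  have h0 : 0 ≤ Complex.arg ((toC c - toC a) / (toC b - toC a)) := Complex.arg_nonneg_iff.2 h1.le
  rcases h0.lt_or_eq with h2 | h2
  · exact h2
  · exfalso
    have := Complex.arg_eq_zero_iff.1 h2.symm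
    linarith [this.2]

theorem ang_lt_pi {a b c : Pt} (h : Ccw a b c) : ang a b c < Real.pi := by
  unfold ang
  have h1 := h.im_pos
  refine lt_of_le_of_ne (Complex.arg_le_pi _) ?_
  intro h2
  have := (Complex.arg_eq_pi_iff.1 h2).2
  linarith

theorem angle_ofReal_eq {x y : ℝ} (h : (x : Real.Angle) = (y : Real.Angle)) :
    ∃ k : ℤ, x - y = 2 * Real.pi * k :=
  Real.Angle.angle_eq_iff_two_pi_dvd_sub.1 h

theorem ang_coe_mul {z w : ℂ} (hz : z ≠ 0) (hw : w ≠ 0) :
    ∃ k : ℤ, Complex.arg (z * w) - (Complex.arg z + Complex.arg w) = 2 * Real.pi * k := by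
  apply angle_ofReal_eq
  rw [Real.Angle.coe_add]
  exact Complex.arg_mul_coe_angle hz hw

theorem int_lt_of_mul {k n : ℤ} (h : 2 * Real.pi * k < 2 * Real.pi * n) : k < n := by
  have h1 : (k : ℝ) < n := lt_of_mul_lt_mul_left h (by positivity)
  exact_mod_cast h1

theorem ang_add_of_ccw {a b c d : Pt} (h1 : Ccw a b c) (h2 : Ccw a c d) (h3 : Ccw a b d) :
    ang a b d = ang a b c + ang a c d := by
  have hb : toC b - toC a ≠ 0 := sub_toC_ne h1.ne.symm
  have hc : toC c - toC a ≠ 0 := sub_toC_ne h2.ne.symm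
  have hd : toC d - toC a ≠ 0 := sub_toC_ne h2.ne'.symm
  obtain ⟨k, hk⟩ := ang_coe_mul (div_ne_zero hc hb) (div_ne_zero hd hc)
  have e : (toC c - toC a) / (toC b - toC a) * ((toC d - toC a) / (toC c - toC a)) = (toC d - toC a) / (toC b - toC a) := by
    field_simp
  rw [e] at hk
  have p1 := ang_pos h1
  have p2 := ang_pos h2
  have p3 := ang_pos h3
  have q1 := ang_lt_pi h1
  have q2 := ang_lt_pi h2
  have q3 := ang_lt_pi h3
  change ang a b d - (ang a b c + ang a c d) = 2 * Real.pi * k at hk
  have k1 : k < 1 := by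
    apply int_lt_of_mul
    push_cast
    rw [← hk]; linarith
  have k2 : -1 < k := by
    apply int_lt_of_mul
    push_cast
    rw [← hk]; linarith
  have k0 : k = 0 := by omega
  subst k0
  push_cast at hk
  linarith

/-- additivity of angles -/
theorem ang_add {a b c d : Pt} (h1 : Ccw a b c) (h2 : Ccw a c d)
    (h : ang a b c + ang a c d < Real.pi) : Ccw a b d ∧ ang a b d = ang a b c + ang a c d := by
  have hb : toC b - toC a ≠ 0 := sub_toC_ne h1.ne.symm
  have hc : toC c - toC a ≠ 0 := sub_toC_ne h2.ne.symm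
  have hd : toC d - toC a ≠ 0 := sub_toC_ne h2.ne'.symm
  have e : (toC c - toC a) / (toC b - toC a) * ((toC d - toC a) / (toC c - toC a)) = (toC d - toC a) / (toC b - toC a) := by
    field_simp
  have p1 := ang_pos h1
  have p2 := ang_pos h2
  have key : ang a b d = ang a b c + ang a c d := by
    unfold ang at *
    rw [← e]
    apply Complex.arg_mul (div_ne_zero hc hb) (div_ne_zero hd hc)
    constructor
    · linarith [Real.pi_pos]
    · exact h.le
  refine ⟨?_, key⟩
  have hpos : 0 < ang a b d := by rw [key]; linarith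
  have hlt : ang a b d < Real.pi := by rw [key]; exact h
  have him : 0 < ((toC d - toC a) / (toC b - toC a)).im := by
    have hne : (toC d - toC a) / (toC b - toC a) ≠ 0 := div_ne_zero hd hb
    have := Complex.norm_mul_sin_arg ((toC d - toC a) / (toC b - toC a))
    rw [← this]
    exact mul_pos (norm_pos_iff.2 hne) (Real.sin_pos_of_pos_of_lt_pi hpos hlt)
  rw [div_im] at him
  have hn : 0 < Complex.normSq (toC b - toC a) := Complex.normSq_pos.2 hb
  have := (div_pos_iff_of_pos_right hn).1 him
  exact this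

theorem ang_add_lt_pi_iff {a b c d : Pt} (h1 : Ccw a b c) (h2 : Ccw a c d) :
    ang a b c + ang a c d < Real.pi ↔ Ccw a b d := by
  constructor
  · intro h; exact (ang_add h1 h2 h).1
  · intro h
    rw [← ang_add_of_ccw h1 h2 h]
    exact ang_lt_pi h

theorem ang_three {z1 z2 z3 : ℂ} (h1 : z1 ≠ 0) (h2 : z2 ≠ 0) (h3 : z3 ≠ 0) :
    ∃ k : ℤ, Complex.arg (z1 * z2 * z3) -
      (Complex.arg z1 + Complex.arg z2 + Complex.arg z3) = 2 * Real.pi * k := by
  obtain ⟨k, hk⟩ := ang_coe_mul h1 h2
  obtain ⟨l, hl⟩ := ang_coe_mul (mul_ne_zero h1 h2) h3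
  refine ⟨k + l, ?_⟩
  push_cast
  linarith

/-- the angles of a triangle add up to `π` -/
theorem ang_sum {a b c : Pt} (h : Ccw a b c) : ang a b c + ang b c a + ang c a b = Real.pi := by
  have hab : toC b - toC a ≠ 0 := sub_toC_ne h.ne.symm
  have hba : toC a - toC b ≠ 0 := sub_toC_ne h.ne
  have hac : toC c - toC a ≠ 0 := sub_toC_ne h.ne'.symm
  have hca : toC a - toC c ≠ 0 := sub_toC_ne h.ne'
  have hbc : toC c - toC b ≠ 0 := sub_toC_ne h.ne''.symm
  have hcb : toC b - toC c ≠ 0 := sub_toC_ne h.ne''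
  obtain ⟨k, hk⟩ := ang_three (div_ne_zero hac hab) (div_ne_zero hba hbc) (div_ne_zero hcb hca)
  have e : (toC c - toC a) / (toC b - toC a) * ((toC a - toC b) / (toC c - toC b)) * ((toC b - toC c) / (toC a - toC c)) = -1 := by
    rw [div_mul_div_comm, div_mul_div_comm, div_eq_iff (by positivity)]
    ring
  rw [e, Complex.arg_neg_one] at hk
  change Real.pi - (ang a b c + ang b c a + ang c a b) = 2 * Real.pi * k at hk
  have p1 := ang_pos h
  have p2 := ang_pos h.rot
  have p3 := ang_pos h.rot'
  have q1 := ang_lt_pi h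
  have q2 := ang_lt_pi h.rot
  have q3 := ang_lt_pi h.rot'
  have k1 : k < 1 := by
    apply int_lt_of_mul
    push_cast
    rw [← hk]; linarith
  have k2 : -2 < k := by
    apply int_lt_of_mul
    push_cast
    rw [← hk]; linarith
  have k3 : k = 0 ∨ k = -1 := by omega
  rcases k3 with k3 | k3
  · subst k3; push_cast at hk; linarith
  · subst k3; push_cast at hk
    linarith

/-- three triangles around a point -/
theorem ang_sum_around {y u v w : Pt} (h1 : Ccw y u v) (h2 : Ccw y v w) (h3 : Ccw y w u) :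
    ang y u v + ang y v w + ang y w u = 2 * Real.pi := by
  have hu : toC u - toC y ≠ 0 := sub_toC_ne h1.ne.symm
  have hv : toC v - toC y ≠ 0 := sub_toC_ne h2.ne.symm
  have hw : toC w - toC y ≠ 0 := sub_toC_ne h3.ne.symm
  obtain ⟨k, hk⟩ := ang_three (div_ne_zero hv hu) (div_ne_zero hw hv) (div_ne_zero hu hw)
  have e : (toC v - toC y) / (toC u - toC y) * ((toC w - toC y) / (toC v - toC y)) * ((toC u - toC y) / (toC w - toC y)) = 1 := by
    field_simp
  rw [e, Complex.arg_one] at hk
  change 0 - (ang y u v + ang y v w + ang y w u) = 2 * Real.pi * k at hk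
  have p1 := ang_pos h1
  have p2 := ang_pos h2
  have p3 := ang_pos h3
  have q1 := ang_lt_pi h1
  have q2 := ang_lt_pi h2
  have q3 := ang_lt_pi h3
  have k1 : k < 0 := by
    apply int_lt_of_mul
    push_cast
    rw [← hk]; linarith
  have k2 : -2 < k := by
    apply int_lt_of_mul
    push_cast
    rw [← hk]; linarith
  have k3 : k = -1 := by omega
  subst k3; push_cast at hk
  linarith

end AG
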