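import Mathlib

/-!
# Polygons with holes and vertex guards: definitions
-/

set_option autoImplicit false

namespace Pool.Agent.AG

/-- The closed polygonal curve with the vertices `v 0, …, v (k-1)` (indices modulo `k`): the union
of the edges `v i v (i+1)`. -/
def curve {k : ℕ} (v : ZMod k → ℝ × ℝ) : Set (ℝ × ℝ) :=
  {p | ∃ i, p ∈ segment ℝ (v i) (v (i + 1))}

/-- `v` lists the vertices of a simple polygon: there are at least three, the edges are
nondegenerate, and two different edges meet only if they are consecutive, and then only in their
common vertex. -/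
def IsSimple {k : ℕ} (v : ZMod k → ℝ × ℝ) : Prop :=
  3 ≤ k ∧ (∀ i, v i ≠ v (i + 1)) ∧
  ∀ i j : ZMod k, i ≠ j → ∀ x ∈ segment ℝ (v i) (v (i + 1)), x ∈ segment ℝ (v j) (v (j + 1)) →
    (j = i + 1 ∧ x = v j) ∨ (i = j + 1 ∧ x = v i)

/-- The closed region bounded by a simple polygon: the points of the curve, and the points whose
connected component in the complement of the curve is bounded. -/
def region {k : ℕ} (v : ZMod k → ℝ × ℝ) : Set (ℝ × ℝ) :=
  {p | p ∈ curve v ∨ Bornology.IsBounded (connectedComponentIn (curve v)ᶜ p)}

/-- A polygon with holes: the outer polygon is number `0`, the holes are the numbers `c ≠ 0`. -/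
structure PolygonWithHoles where
  /-- the number of holes -/
  h : ℕ
  /-- the numbers of vertices of the polygons -/
  k : Fin (h + 1) → ℕ
  /-- the vertices of the polygons, in their cyclic order -/
  v : (c : Fin (h + 1)) → ZMod (k c) → ℝ × ℝ
  /-- all polygons are simple -/
  simple : ∀ c, IsSimple (v c)
  /-- the holes lie in the interior of the region bounded by the outer polygon -/
  inside : ∀ c, c ≠ 0 → region (v c) ⊆ interior (region (v 0))
  /-- the closed regions bounded by two different holes are disjoint -/
  disj : ∀ c c', c ≠ 0 → c' ≠ 0 → c ≠ c' → Disjoint (region (v c)) (region (v c'))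

namespace PolygonWithHoles

/-- The polygon with holes as a set of points: the outer region without the interiors of the
holes. -/
def carrier (P : PolygonWithHoles) : Set (ℝ × ℝ) :=
  region (P.v 0) \ ⋃ c ∈ {c | c ≠ 0}, interior (region (P.v c))

/-- The number of vertices: those of the outer polygon and those of all holes. -/
def n (P : PolygonWithHoles) : ℕ := ∑ c, P.k c

/-- `p` is a vertex. -/
def IsVertex (P : PolygonWithHoles) (p : ℝ × ℝ) : Prop := ∃ c i, P.v c i = p

/-- The point `x` sees the point `y`. -/
def Sees (P : PolygonWithHoles) (x y : ℝ × ℝ) : Prop := segment ℝ x y ⊆ P.carrier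

/-- The set `G` of points guards the polygon. -/
def Guards (P : PolygonWithHoles) (G : Finset (ℝ × ℝ)) : Prop :=
  ∀ x ∈ P.carrier, ∃ g ∈ G, P.Sees g x

end PolygonWithHoles

end Pool.Agent.AG
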